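import Pool.Agent.H603R2.EP.Term

/-!
# Local flows
-/

namespace Pool.Agent.H603R2.EP

/-- the orders of the tracks -/
def PIT : List (ℕ × ℕ × ℕ) := [(8, 9, 10), (9, 8, 10), (9, 10, 8), (8, 10, 9), (10, 8, 9), (10, 9, 8)]

/-- the label in a slot -/
def pi (σ ρ ℓ : ℕ) : ℕ :=
  if ℓ = 2 then (if σ = 0 then 2 else 3) else
  if ℓ = 3 then (if σ = 0 then 3 else 2) else
  if ℓ = 8 then (PIT.getD ρ (8, 9, 10)).1 else
  if ℓ = 9 then (PIT.getD ρ (8, 9, 10)).2.1 else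
  if ℓ = 10 then (PIT.getD ρ (8, 9, 10)).2.2 else ℓ

theorem pi_lt : ∀ σ < 2, ∀ ρ < 6, ∀ ℓ < 13, pi σ ρ ℓ < 13 := by decide +kernel

theorem pi_enB : ∀ σ < 2, ∀ ρ < 6, ∀ ℓ < 13, ∀ ℓ' < 13, enB ℓ ℓ' = true →
    enB (pi σ ρ ℓ) (pi σ ρ ℓ') = true := by decide +kernel

theorem enB_lt' {i j : ℕ} (h : enB i j = true) : j < 13 := by
  have h1 := enB_lt h
  by_contra hj
  unfold enB at h
  have h2 : ∀ i < 13, enL.getD i 0 < 2 ^ 13 := by decide +kernel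
  have h3 := Nat.testBit_lt_two_pow (lt_of_lt_of_le (h2 i h1)
    (Nat.pow_le_pow_right (by omega) (not_lt.1 hj)))
  rw [h3] at h
  exact absurd h (by decide)

/-- the mask of the terminals of a list at a vertex of a tile -/
def tmAux (k x y : ℕ) : List (ℕ × ℕ × ℕ) → ℕ → ℕ
  | [], _ => 0
  | e :: es, i => (bif Nat.beq e.1 k && (Nat.beq (e.2.1 + 1) x && Nat.beq (e.2.2 + 1) y)
      then 1 <<< i else 0) ||| tmAux k x y es (i + 1)

def srM (k x y : ℕ) : ℕ := tmAux k x y srcK 0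
def skM (k x y : ℕ) : ℕ := tmAux k x y snkK 0

theorem tmAux_testBit (k x y : ℕ) (L : List (ℕ × ℕ × ℕ)) : ∀ (i ℓ : ℕ),
    (tmAux k x y L i).testBit ℓ = true ↔ i ≤ ℓ ∧ ∃ e, L[ℓ - i]? = some e ∧ e.1 = k ∧
      e.2.1 + 1 = x ∧ e.2.2 + 1 = y := by
  induction L with
  | nil =>
    intro i ℓ
    rw [tmAux]
    simp
  | cons a L ih =>
    intro i ℓ
    rw [tmAux, Nat.testBit_or, Bool.or_eq_true, ih]
    have h1 : (bif Nat.beq a.1 k && (Nat.beq (a.2.1 + 1) x && Nat.beq (a.2.2 + 1) y)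
      then 1 <<< i else 0).testBit ℓ = true ↔ (ℓ = i ∧ a.1 = k ∧ a.2.1 + 1 = x ∧ a.2.2 + 1 = y) := by
      simp only [Bool.cond_eq_ite, Bool.and_eq_true, Nat.beq_eq]
      split_ifs with h
      · rw [Nat.one_shiftLeft, Nat.testBit_two_pow]
        simp only [decide_eq_true_eq]
        exact ⟨fun h' => ⟨h'.symm, h⟩, fun h' => h'.1.symm⟩
      · simp only [Nat.zero_testBit]
        exact ⟨fun h' => absurd h' (by decide), fun h' => absurd h'.2 h⟩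
    rw [h1]
    constructor
    · rintro (⟨rfl, h⟩ | ⟨h2, e, h3, h4⟩)
      · refine ⟨le_refl _, a, ?_, h⟩
        rw [Nat.sub_self]
        rfl
      · refine ⟨by omega, e, ?_, h4⟩
        have : ℓ - i = (ℓ - (i + 1)) + 1 := by omega
        rw [this, List.getElem?_cons_succ]
        exact h3
    · rintro ⟨h2, e, h3, h4⟩
      rcases Nat.eq_or_lt_of_le h2 with h5 | h5
      · left
        subst h5
        rw [Nat.sub_self, List.getElem?_cons_zero, Option.some.injEq] at h3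
        rw [h3]
        exact ⟨rfl, h4⟩
      · right
        refine ⟨h5, e, ?_, h4⟩
        have : ℓ - i = (ℓ - (i + 1)) + 1 := by omega
        rw [this, List.getElem?_cons_succ] at h3
        exact h3

theorem srM_testBit {k x y ℓ : ℕ} (hℓ : ℓ < 13) (hx : 1 ≤ x) (hy : 1 ≤ y) :
    (srM k x y).testBit ℓ = true ↔ srcK.getD ℓ (0, 0, 0) = (k, x - 1, y - 1) := by
  unfold srM
  rw [tmAux_testBit]
  have hl : ℓ < srcK.length := by
    have : srcK.length = 13 := rfl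
    omega
  rw [List.getD_eq_getElem _ _ hl, Nat.sub_zero, List.getElem?_eq_getElem hl]
  constructor
  · rintro ⟨_, e, h1, h2, h3, h4⟩
    rw [Option.some.injEq] at h1
    rw [h1]
    exact Prod.ext h2 (Prod.ext (by simp only; omega) (by simp only; omega))
  · intro h
    exact ⟨Nat.zero_le _, _, rfl, by rw [h], by rw [h]; simp only; omega, by rw [h]; simp only; omega⟩

theorem skM_testBit {k x y ℓ : ℕ} (hℓ : ℓ < 13) (hx : 1 ≤ x) (hy : 1 ≤ y) :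
    (skM k x y).testBit ℓ = true ↔ snkK.getD ℓ (0, 0, 0) = (k, x - 1, y - 1) := by
  unfold skM
  rw [tmAux_testBit]
  have hl : ℓ < snkK.length := by
    have : snkK.length = 13 := rfl
    omega
  rw [List.getD_eq_getElem _ _ hl, Nat.sub_zero, List.getElem?_eq_getElem hl]
  constructor
  · rintro ⟨_, e, h1, h2, h3, h4⟩
    rw [Option.some.injEq] at h1
    rw [h1]
    exact Prod.ext h2 (Prod.ext (by simp only; omega) (by simp only; omega))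
  · intro h
    exact ⟨Nat.zero_le _, _, rfl, by rw [h], by rw [h]; simp only; omega, by rw [h]; simp only; omega⟩

/-- the data of a solution -/
structure Ctx (n m : ℕ) (var : ℕ → ℕ → ℕ) (Fl : ℕ → ℕ → ℕ → ℕ → Bool) : Prop where
  hn : 1 ≤ n
  hm : 1 ≤ m
  hv : ∀ bx b, var bx b < 7
  flow : ∀ ℓ < 13, IsFlow (hdir n m var) (vdir n m var) (Fl ℓ) (rT n m ℓ) (sT n m ℓ)
  enm : ∀ ℓ ℓ' o X Y, enB ℓ ℓ' = true → Fl ℓ o X Y = true → Fl ℓ' o X Y = false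
  pq : ∀ o X Y, Fl 2 o X Y = true → Fl 8 o X Y = false

/-- the flows of the slots in the frame of the tile `(bx, b)` -/
def loc (Fl : ℕ → ℕ → ℕ → ℕ → Bool) (σ ρ bx b : ℕ) (ℓ o x y : ℕ) : Bool :=
  Fl (pi σ ρ ℓ) o (27 * bx - 1 + x) (24 * b - 1 + y)

variable {n m : ℕ} {var : ℕ → ℕ → ℕ} {Fl : ℕ → ℕ → ℕ → ℕ → Bool}

theorem loc_enm (hc : Ctx n m var Fl) {σ ρ : ℕ} (hσ : σ < 2) (hρ : ρ < 6) (bx b : ℕ) :
    Enm (loc Fl σ ρ bx b) := by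
  intro ℓ ℓ' o x y h h'
  exact hc.enm _ _ _ _ _ (pi_enB σ hσ ρ hρ ℓ (enB_lt h) ℓ' (enB_lt' h) h) h'

/-- conservation in a frame -/
theorem loc_cons (hc : Ctx n m var Fl) {σ ρ : ℕ} (hσ : σ < 2) (hρ : ρ < 6) {bx b w : ℕ}
    (hbx : 1 ≤ bx) (hb : 1 ≤ b) {dh dv sr sk : ℕ → ℕ → ℕ}
    (hh : ∀ x y, x ≤ w → 1 ≤ y → y ≤ 24 →
      hdir n m var (27 * bx - 1 + x) (24 * b - 1 + y) = dh x y)
    (hv : ∀ x y, 1 ≤ x → x ≤ w → y ≤ 24 →
      vdir n m var (27 * bx - 1 + x) (24 * b - 1 + y) = dv x y)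
    (hsr : ∀ x y, 1 ≤ x → x ≤ w → 1 ≤ y → y ≤ 24 → ∀ ℓ < 13, ((sr x y).testBit ℓ = true ↔
      (27 * bx - 1 + x, 24 * b - 1 + y) = rT n m (pi σ ρ ℓ)))
    (hsk : ∀ x y, 1 ≤ x → x ≤ w → 1 ≤ y → y ≤ 24 → ∀ ℓ < 13, ((sk x y).testBit ℓ = true ↔
      (27 * bx - 1 + x, 24 * b - 1 + y) = sT n m (pi σ ρ ℓ))) :
    ∀ x y, 1 ≤ x → x ≤ w → 1 ≤ y → y ≤ 24 →
      Cons (loc Fl σ ρ bx b) dh dv (sr x y) (sk x y) x y := by
  intro x y hx1 hx hy1 hy ℓ hℓ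
  have h := hc.flow (pi σ ρ ℓ) (pi_lt σ hσ ρ hρ ℓ hℓ) (27 * bx - 1 + x) (24 * b - 1 + y)
    (by omega) (by omega)
  have e1 : 27 * bx - 1 + x - 1 = 27 * bx - 1 + (x - 1) := by omega
  have e2 : 24 * b - 1 + y - 1 = 24 * b - 1 + (y - 1) := by omega
  have hin : inS (hdir n m var) (vdir n m var) (Fl (pi σ ρ ℓ)) (27 * bx - 1 + x) (24 * b - 1 + y) =
      inS dh dv (loc Fl σ ρ bx b ℓ) x y := by
    unfold inS loc
    rw [e1, e2, hh x y hx hy1 hy, hh (x - 1) y (by omega) hy1 hy, hv x y hx1 hx hy,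
      hv x (y - 1) hx1 hx (by omega)]
  have hout : outS (hdir n m var) (vdir n m var) (Fl (pi σ ρ ℓ)) (27 * bx - 1 + x)
      (24 * b - 1 + y) = outS dh dv (loc Fl σ ρ bx b ℓ) x y := by
    unfold outS loc
    rw [e1, e2, hh x y hx hy1 hy, hh (x - 1) y (by omega) hy1 hy, hv x y hx1 hx hy,
      hv x (y - 1) hx1 hx (by omega)]
  rw [hin, hout] at h
  have h3 : (if (27 * bx - 1 + x, 24 * b - 1 + y) = rT n m (pi σ ρ ℓ) then 1 else 0) =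
      ((sr x y).testBit ℓ).toNat := by
    have := hsr x y hx1 hx hy1 hy ℓ hℓ
    by_cases h4 : (27 * bx - 1 + x, 24 * b - 1 + y) = rT n m (pi σ ρ ℓ)
    · rw [if_pos h4, this.2 h4]
      rfl
    · rw [if_neg h4]
      have h5 : (sr x y).testBit ℓ = false := by
        rw [← Bool.not_eq_true]
        exact fun h6 => h4 (this.1 h6)
      rw [h5]
      rfl
  have h3' : (if (27 * bx - 1 + x, 24 * b - 1 + y) = sT n m (pi σ ρ ℓ) then 1 else 0) =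
      ((sk x y).testBit ℓ).toNat := by
    have := hsk x y hx1 hx hy1 hy ℓ hℓ
    by_cases h4 : (27 * bx - 1 + x, 24 * b - 1 + y) = sT n m (pi σ ρ ℓ)
    · rw [if_pos h4, this.2 h4]
      rfl
    · rw [if_neg h4]
      have h5 : (sk x y).testBit ℓ = false := by
        rw [← Bool.not_eq_true]
        exact fun h6 => h4 (this.1 h6)
      rw [h5]
      rfl
  rw [← h3, ← h3']
  exact h

theorem rT_iff (hc : Ctx n m var Fl) {bx b x y ℓ : ℕ} (hℓ : ℓ < 13) (hbx : 1 ≤ bx) (hb : 1 ≤ b)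
    (hx1 : 1 ≤ x) (hx : x ≤ 27) (hy1 : 1 ≤ y) (hy : y ≤ 24) :
    (27 * bx - 1 + x, 24 * b - 1 + y) = rT n m ℓ ↔
      srcK.getD ℓ (0, 0, 0) = (KK n m var bx b, x - 1, y - 1) := by
  obtain ⟨h1, h2, h3⟩ := src_ok ℓ hℓ
  exact pt_iff hc.hn hc.hm hc.hv h1 h2 h3 hbx hb hx1 hx hy1 hy

theorem sT_iff (hc : Ctx n m var Fl) {bx b x y ℓ : ℕ} (hℓ : ℓ < 13) (hbx : 1 ≤ bx) (hb : 1 ≤ b)
    (hx1 : 1 ≤ x) (hx : x ≤ 27) (hy1 : 1 ≤ y) (hy : y ≤ 24) :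
    (27 * bx - 1 + x, 24 * b - 1 + y) = sT n m ℓ ↔
      snkK.getD ℓ (0, 0, 0) = (KK n m var bx b, x - 1, y - 1) := by
  obtain ⟨h1, h2, h3⟩ := snk_ok ℓ hℓ
  exact pt_iff hc.hn hc.hm hc.hv h1 h2 h3 hbx hb hx1 hx hy1 hy

theorem not_rT (hc : Ctx n m var Fl) {bx b x y ℓ : ℕ} (hℓ : ℓ < 13) (hbx : 1 ≤ bx) (hb : 1 ≤ b)
    (hx1 : 1 ≤ x) (hx : x ≤ 27) (hy1 : 1 ≤ y) (hy : y ≤ 24) (hk : ¬ isT (KK n m var bx b)) :
    (27 * bx - 1 + x, 24 * b - 1 + y) ≠ rT n m ℓ := by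
  intro h
  rw [rT_iff hc hℓ hbx hb hx1 hx hy1 hy] at h
  have := (src_ok ℓ hℓ).1
  rw [h] at this
  exact hk this

theorem not_sT (hc : Ctx n m var Fl) {bx b x y ℓ : ℕ} (hℓ : ℓ < 13) (hbx : 1 ≤ bx) (hb : 1 ≤ b)
    (hx1 : 1 ≤ x) (hx : x ≤ 27) (hy1 : 1 ≤ y) (hy : y ≤ 24) (hk : ¬ isT (KK n m var bx b)) :
    (27 * bx - 1 + x, 24 * b - 1 + y) ≠ sT n m ℓ := by
  intro h
  rw [sT_iff hc hℓ hbx hb hx1 hx hy1 hy] at h
  have := (snk_ok ℓ hℓ).1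
  rw [h] at this
  exact hk this

/-- conservation in a tile without terminals -/
theorem tile_cons0 (hc : Ctx n m var Fl) {σ ρ : ℕ} (hσ : σ < 2) (hρ : ρ < 6) {bx b k : ℕ}
    (hbx : 1 ≤ bx) (hb : 1 ≤ b) (hk : KK n m var bx b = k) (hT : ¬ isT k) :
    ∀ x y, 1 ≤ x → x ≤ 27 → 1 ≤ y → y ≤ 24 →
      Cons (loc Fl σ ρ bx b) (dir (DHt k)) (dir (DVt k)) 0 0 x y := by
  subst hk
  refine loc_cons hc hσ hρ hbx hb (sr := fun _ _ => 0) (sk := fun _ _ => 0)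
    (fun x y hx hy1 hy => frame_h hc.hn hc.hm hc.hv hbx hb hx hy1 hy)
    (fun x y hx1 hx hy => frame_v hc.hn hc.hm hc.hv hbx hb hx1 hx hy) ?_ ?_
  · intro x y hx1 hx hy1 hy ℓ hℓ
    rw [Nat.zero_testBit]
    exact ⟨fun h => absurd h (by decide), fun h =>
      absurd h (not_rT hc (pi_lt σ hσ ρ hρ ℓ hℓ) hbx hb hx1 hx hy1 hy hT)⟩
  · intro x y hx1 hx hy1 hy ℓ hℓ
    rw [Nat.zero_testBit]
    exact ⟨fun h => absurd h (by decide), fun h =>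
      absurd h (not_sT hc (pi_lt σ hσ ρ hρ ℓ hℓ) hbx hb hx1 hx hy1 hy hT)⟩

theorem pi_zero : ∀ ℓ < 13, pi 0 0 ℓ = ℓ := by decide +kernel

/-- conservation in any tile, for the labels themselves -/
theorem tile_cons1 (hc : Ctx n m var Fl) {bx b k : ℕ}
    (hbx : 1 ≤ bx) (hb : 1 ≤ b) (hk : KK n m var bx b = k) :
    ∀ x y, 1 ≤ x → x ≤ 27 → 1 ≤ y → y ≤ 24 →
      Cons (loc Fl 0 0 bx b) (dir (DHt k)) (dir (DVt k)) (srM k x y) (skM k x y) x y := by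
  subst hk
  refine loc_cons hc (by omega) (by omega) hbx hb
    (sr := srM (KK n m var bx b)) (sk := skM (KK n m var bx b))
    (fun x y hx hy1 hy => frame_h hc.hn hc.hm hc.hv hbx hb hx hy1 hy)
    (fun x y hx1 hx hy => frame_v hc.hn hc.hm hc.hv hbx hb hx1 hx hy) ?_ ?_
  · intro x y hx1 hx hy1 hy ℓ hℓ
    rw [pi_zero ℓ hℓ, rT_iff hc hℓ hbx hb hx1 hx hy1 hy]
    exact srM_testBit hℓ hx1 hy1
  · intro x y hx1 hx hy1 hy ℓ hℓ
    rw [pi_zero ℓ hℓ, sT_iff hc hℓ hbx hb hx1 hx hy1 hy]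
    exact skM_testBit hℓ hx1 hy1

end Pool.Agent.H603R2.EP
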