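import Pool.Agent.H603R2.EP.Data2
import Pool.Agent.H603R2.EP.Local

/-!
# Flows in the tiles: kernel checks
-/

namespace Pool.Agent.H603R2.EP

def QIT : List (ℕ × ℕ × ℕ) := [(8, 9, 10), (9, 8, 10), (10, 8, 9)]

/-- the slot of a label -/
def qi (σ ρ ℓ : ℕ) : ℕ :=
  if ℓ = 2 then (if σ = 0 then 2 else 3) else
  if ℓ = 3 then (if σ = 0 then 3 else 2) else
  if ℓ = 8 then (QIT.getD ρ (8, 9, 10)).1 else
  if ℓ = 9 then (QIT.getD ρ (8, 9, 10)).2.1 else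
  if ℓ = 10 then (QIT.getD ρ (8, 9, 10)).2.2 else ℓ

/-- from slots to labels -/
def pm (σ ρ m : ℕ) : ℕ :=
  ((m &&& 6387) ||| (bif Nat.beq σ 0 then m &&& 12 else (((m &&& 4) <<< 1) ||| ((m &&& 8) >>> 1)))) |||
  (bif Nat.beq ρ 0 then m &&& 1792 else bif Nat.beq ρ 1 then
    ((((m &&& 256) <<< 1) ||| ((m &&& 512) >>> 1)) ||| (m &&& 1024))
   else ((((m &&& 256) <<< 1) ||| ((m &&& 512) <<< 1)) ||| ((m &&& 1024) >>> 2)))

theorem pm_testBit {σ ρ ℓ : ℕ} (hσ : σ < 2) (hρ : ρ < 3) (hℓ : ℓ < 13) (m : ℕ) :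
    (pm σ ρ m).testBit ℓ = m.testBit (qi σ ρ ℓ) := by
  have t1 : ∀ i < 16, (6387 : ℕ).testBit i =
      decide (i < 13 ∧ i ≠ 2 ∧ i ≠ 3 ∧ i ≠ 8 ∧ i ≠ 9 ∧ i ≠ 10) := by decide +kernel
  have t2 : ∀ i < 16, (12 : ℕ).testBit i = decide (i = 2 ∨ i = 3) := by decide +kernel
  have t3 : ∀ i < 16, (1792 : ℕ).testBit i = decide (i = 8 ∨ i = 9 ∨ i = 10) := by decide +kernel
  have t4 : ∀ i < 16, (4 : ℕ).testBit i = decide (i = 2) := by decide +kernel
  have t5 : ∀ i < 16, (8 : ℕ).testBit i = decide (i = 3) := by decide +kernel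
  have t6 : ∀ i < 16, (256 : ℕ).testBit i = decide (i = 8) := by decide +kernel
  have t7 : ∀ i < 16, (512 : ℕ).testBit i = decide (i = 9) := by decide +kernel
  have t8 : ∀ i < 16, (1024 : ℕ).testBit i = decide (i = 10) := by decide +kernel
  unfold pm
  simp only [Bool.cond_eq_ite, Nat.beq_eq]
  interval_cases σ <;> interval_cases ρ <;> interval_cases ℓ <;>
    simp [Nat.testBit_or, Nat.testBit_and, Nat.testBit_shiftLeft, Nat.testBit_shiftRight, qi, QIT,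
      t1, t2, t3, t4, t5, t6, t7, t8, -Nat.testBit_zero]

/-- the table of a tile -/
def idx (k σ ρ : ℕ) : ℕ :=
  if k = 2 ∧ σ = 1 then 29 else if k = 3 ∧ σ = 1 then 30 else
  if k = 15 ∧ ρ = 1 then 31 else if k = 15 ∧ ρ = 2 then 32 else
  if k = 18 ∧ ρ = 1 then 33 else if k = 18 ∧ ρ = 2 then 34 else
  if k = 20 ∧ ρ = 1 then 35 else if k = 20 ∧ ρ = 2 then 36 else k

/-- the slot of a label in a tile -/
def qq (k σ ρ ℓ : ℕ) : ℕ :=
  if 22 ≤ k then qi σ ρ ℓ else if k = 13 ∨ k = 14 then qi σ 0 ℓ else ℓ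

/-- mask of the slots that use an edge -/
def sm' (k σ ρ o x y : ℕ) : ℕ := get (CTT.getD (idx k σ ρ) 0) (code o x y)

/-- mask of the labels that use an edge -/
def tm (k σ ρ o x y : ℕ) : ℕ :=
  if 22 ≤ k then pm σ ρ (sm' k σ ρ o x y) else
  if k = 13 ∨ k = 14 then pm σ 0 (sm' k σ ρ o x y) else sm' k σ ρ o x y

theorem tm_testBit {k σ ρ ℓ : ℕ} (hσ : σ < 2) (hρ : ρ < 3) (hℓ : ℓ < 13) (o x y : ℕ) :
    (tm k σ ρ o x y).testBit ℓ = (sm' k σ ρ o x y).testBit (qq k σ ρ ℓ) := by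
  unfold tm qq
  split_ifs
  · exact pm_testBit hσ hρ hℓ _
  · exact pm_testBit hσ (by omega) hℓ _
  · rfl

/-! ### The boundaries -/

def lk : List (ℕ × ℕ) → ℕ → ℕ
  | [], _ => 0
  | e :: es, y => bif Nat.beq e.1 y then e.2 else lk es y

def cN : List (ℕ × ℕ) := [(17, 1), (14, 4), (11, 8), (8, 2), (5, 16), (2, 96)]
def cP : List (ℕ × ℕ) := [(17, 1), (14, 4), (11, 8), (8, 2), (20, 16), (23, 96)]
def cB : List (ℕ × ℕ) := [(2, 1), (5, 4), (8, 8), (11, 2), (14, 16), (17, 96)]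
def cZ : List (ℕ × ℕ) := [(20, 128), (17, 256), (14, 512), (11, 1024), (8, 2048)]
def cD : List (ℕ × ℕ) := [(5, 128), (8, 256), (11, 512), (14, 1024), (17, 2048)]
def cU : List (ℕ × ℕ) := [(5, 2048), (8, 1024), (11, 512), (14, 256), (17, 128)]

def BML : List (List (ℕ × ℕ)) := [[], cN, cN, cP, cB, cZ, cZ]
def BVL : List (List (ℕ × ℕ)) := [[], cN, cB, cD, cU, [(11, 4096)]]

/-- masks on the left or right boundary of a tile -/
def Hb (c σ y : ℕ) : ℕ := if c = 2 ∨ c = 3 then pm σ 0 (lk (BML.getD c []) y) else lk (BML.getD c []) y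
/-- masks on the lower or upper boundary of a tile -/
def Vb (c ρ x : ℕ) : ℕ := if c = 3 then pm 0 ρ (lk (BVL.getD c []) x) else lk (BVL.getD c []) x

def bdChk (k σ ρ : ℕ) : Bool :=
  ((List.range 24).all fun y => Nat.beq (tm k σ ρ 0 0 (y + 1)) (Hb (sig k).1 σ (y + 1)) &&
    Nat.beq (tm k σ ρ 0 27 (y + 1)) (Hb (sig k).2.1 σ (y + 1))) &&
  ((List.range 27).all fun x => Nat.beq (tm k σ ρ 1 (x + 1) 0) (Vb (sig k).2.2.1 ρ (x + 1)) &&
    Nat.beq (tm k σ ρ 1 (x + 1) 24) (Vb (sig k).2.2.2 ρ (x + 1)))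

theorem bdChk_all : ((List.range 29).all fun k => (List.range 2).all fun σ => (List.range 3).all
    fun ρ => bdChk k σ ρ) = true := by decide +kernel

theorem bdChk_spec {k σ ρ : ℕ} (hk : k < 29) (hσ : σ < 2) (hρ : ρ < 3) :
    (∀ y, 1 ≤ y → y ≤ 24 → tm k σ ρ 0 0 y = Hb (sig k).1 σ y ∧
      tm k σ ρ 0 27 y = Hb (sig k).2.1 σ y) ∧
    (∀ x, 1 ≤ x → x ≤ 27 → tm k σ ρ 1 x 0 = Vb (sig k).2.2.1 ρ x ∧
      tm k σ ρ 1 x 24 = Vb (sig k).2.2.2 ρ x) := by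
  have h := List.all_eq_true.1 bdChk_all k (List.mem_range.2 hk)
  have h := List.all_eq_true.1 h σ (List.mem_range.2 hσ)
  have h := List.all_eq_true.1 h ρ (List.mem_range.2 hρ)
  unfold bdChk at h
  rw [Bool.and_eq_true, List.all_eq_true, List.all_eq_true] at h
  constructor
  · intro y h1 h2
    have := h.1 (y - 1) (List.mem_range.2 (by omega))
    rw [Bool.and_eq_true, Nat.beq_eq, Nat.beq_eq, Nat.sub_add_cancel h1] at this
    exact this
  · intro x h1 h2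
    have := h.2 (x - 1) (List.mem_range.2 (by omega))
    rw [Bool.and_eq_true, Nat.beq_eq, Nat.beq_eq, Nat.sub_add_cancel h1] at this
    exact this

/-! ### Conservation and enemies -/

def sel (d e m : ℕ) : ℕ := bif Nat.beq d e then m else 0

/-- the masks are disjoint and their union is as given -/
def dj (a b c d e u : ℕ) : Bool :=
  (Nat.beq (a &&& b) 0 && Nat.beq ((a ||| b) &&& c) 0) &&
  ((Nat.beq (((a ||| b) ||| c) &&& d) 0 && Nat.beq ((((a ||| b) ||| c) ||| d) &&& e) 0) &&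
    Nat.beq ((((a ||| b) ||| c) ||| d) ||| e) u)

def csChk (k T x y : ℕ) : Bool :=
  dj (sel (sw (dir (DHt k) x y)) 1 (get T (code 0 x y)))
    (sel (dir (DHt k) (x - 1) y) 1 (get T (code 0 (x - 1) y)))
    (sel (sw (dir (DVt k) x y)) 1 (get T (code 1 x y)))
    (sel (dir (DVt k) x (y - 1)) 1 (get T (code 1 x (y - 1)))) (srM k x y)
    (((((sel (sw (dir (DHt k) x y)) 2 (get T (code 0 x y))) |||
    (sel (dir (DHt k) (x - 1) y) 2 (get T (code 0 (x - 1) y)))) |||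
    (sel (sw (dir (DVt k) x y)) 2 (get T (code 1 x y)))) |||
    (sel (dir (DVt k) x (y - 1)) 2 (get T (code 1 x (y - 1))))) ||| skM k x y) &&
  dj (sel (sw (dir (DHt k) x y)) 2 (get T (code 0 x y)))
    (sel (dir (DHt k) (x - 1) y) 2 (get T (code 0 (x - 1) y)))
    (sel (sw (dir (DVt k) x y)) 2 (get T (code 1 x y)))
    (sel (dir (DVt k) x (y - 1)) 2 (get T (code 1 x (y - 1)))) (skM k x y)
    (((((sel (sw (dir (DHt k) x y)) 1 (get T (code 0 x y))) |||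
    (sel (dir (DHt k) (x - 1) y) 1 (get T (code 0 (x - 1) y)))) |||
    (sel (sw (dir (DVt k) x y)) 1 (get T (code 1 x y)))) |||
    (sel (dir (DVt k) x (y - 1)) 1 (get T (code 1 x (y - 1))))) ||| srM k x y)

def pqOK (v m : ℕ) : Bool := (Nat.beq (m &&& 12) 0 || Nat.beq (m &&& 1792) 0) ||
  (!(Nat.beq v 0) && (Nat.beq (m &&& 12) (if (v - 1) % 2 = 0 then 4 else 8) &&
    Nat.beq (m &&& 1792) (256 <<< ((v - 1) / 2))))

def enChk (v m : ℕ) : Bool := Nat.beq m 0 || (Nat.beq (m &&& EN m) 0 && pqOK v m)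

/-- the tables: tile and index -/
def TBL : List (ℕ × ℕ) := ((List.range 29).map fun k => (k, k)) ++ [(2, 29), (3, 30), (15, 31),
  (15, 32), (18, 33), (18, 34), (20, 35), (20, 36)]

def tbChk (e : ℕ × ℕ) : Bool :=
  (List.range 27).all fun x => (List.range 24).all fun y =>
    csChk e.1 (CTT.getD e.2 0) (x + 1) (y + 1) &&
    (enChk (e.1 - 22) (get (CTT.getD e.2 0) (code 0 (x + 1) (y + 1))) &&
    enChk (e.1 - 22) (get (CTT.getD e.2 0) (code 1 (x + 1) (y + 1))))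

end Pool.Agent.H603R2.EP
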