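import Pool.Agent.H603R2.EP.Comp

/-!
# Flows in the tiles: conservation, kernel checks
-/

namespace Pool.Agent.H603R2.EP

theorem tb2 : (((TBL.drop 10).take 10).all tbChk) = true := by decide +kernel
theorem tb3 : (((TBL.drop 20).take 5).all tbChk) = true := by decide +kernel

end Pool.Agent.H603R2.EP
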