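import Pool.Agent.H603R2.EP.CompA
import Pool.Agent.H603R2.EP.CompB
import Pool.Agent.H603R2.EP.CompC

/-!
# Flows in the tiles: conservation, kernel checks
-/

namespace Pool.Agent.H603R2.EP

theorem tb_all : ∀ e ∈ TBL, tbChk e = true := by
  have h : (TBL.all tbChk) = true := by
    have e : TBL = TBL.take 10 ++ ((TBL.drop 10).take 10 ++ ((TBL.drop 20).take 5 ++
      ((TBL.drop 25).take 6 ++ TBL.drop 31))) := by decide +kernel
    rw [e, List.all_append, List.all_append, List.all_append, List.all_append, tb1, tb2, tb3, tb4, tb5]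
    rfl
  exact List.all_eq_true.1 h

theorem mem_TBL' : ((List.range 29).all fun k => (List.range 2).all fun σ => (List.range 3).all fun ρ =>
    decide ((k, idx k σ ρ) ∈ TBL)) = true := by decide +kernel

theorem mem_TBL {k σ ρ : ℕ} (hk : k < 29) (hσ : σ < 2) (hρ : ρ < 3) : (k, idx k σ ρ) ∈ TBL := by
  have h := List.all_eq_true.1 mem_TBL' k (List.mem_range.2 hk)
  have h := List.all_eq_true.1 h σ (List.mem_range.2 hσ)
  have h := List.all_eq_true.1 h ρ (List.mem_range.2 hρ)
  exact of_decide_eq_true h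

theorem sel_bit (d e m s : ℕ) : ((sel d e m).testBit s).toNat = if d = e then (m.testBit s).toNat else 0 := by
  unfold sel
  rw [Bool.cond_eq_ite]
  simp only [Nat.beq_eq]
  split_ifs
  · rfl
  · simp

theorem or_toNat {a b : ℕ} (h : a &&& b = 0) (s : ℕ) :
    (a.testBit s).toNat + (b.testBit s).toNat = ((a ||| b).testBit s).toNat := by
  have h1 : (a &&& b).testBit s = false := by
    rw [h]
    simp
  rw [Nat.testBit_and] at h1
  rw [Nat.testBit_or]
  revert h1
  cases a.testBit s <;> cases b.testBit s <;> simp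

theorem dj_spec {a b c d e u : ℕ} (h : dj a b c d e u = true) (s : ℕ) :
    (a.testBit s).toNat + (b.testBit s).toNat + (c.testBit s).toNat + (d.testBit s).toNat +
      (e.testBit s).toNat = (((((a ||| b) ||| c) ||| d) ||| e).testBit s).toNat ∧
    ((((a ||| b) ||| c) ||| d) ||| e) = u := by
  unfold dj at h
  simp only [Bool.and_eq_true, Nat.beq_eq] at h
  obtain ⟨⟨h1, h2⟩, ⟨h3, h4⟩, h5⟩ := h
  refine ⟨?_, h5⟩
  rw [or_toNat h1, or_toNat h2, or_toNat h3, or_toNat h4]

theorem cs_spec {k T x y : ℕ} (h : csChk k T x y = true) (s : ℕ) (g : ℕ → ℕ → ℕ → Bool)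
    (hg : ∀ o x y, g o x y = (get T (code o x y)).testBit s) :
    inS (dir (DHt k)) (dir (DVt k)) g x y + ((srM k x y).testBit s).toNat =
      outS (dir (DHt k)) (dir (DVt k)) g x y + ((skM k x y).testBit s).toNat ∧
    inS (dir (DHt k)) (dir (DVt k)) g x y + ((srM k x y).testBit s).toNat ≤ 1 := by
  unfold csChk at h
  rw [Bool.and_eq_true] at h
  obtain ⟨h1, h2⟩ := dj_spec h.1 s
  obtain ⟨h3, h4⟩ := dj_spec h.2 s
  simp only [sel_bit] at h1 h3
  unfold inS outS ci co
  simp only [hg]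
  rw [h1, h3, h2]
  refine ⟨rfl, ?_⟩
  rw [← h2]
  exact Bool.toNat_le _

theorem tb_spec {k σ ρ : ℕ} (hk : k < 29) (hσ : σ < 2) (hρ : ρ < 3) {x y : ℕ} (hx1 : 1 ≤ x)
    (hx : x ≤ 27) (hy1 : 1 ≤ y) (hy : y ≤ 24) : csChk k (CTT.getD (idx k σ ρ) 0) x y = true ∧
    enChk (k - 22) (sm' k σ ρ 0 x y) = true ∧ enChk (k - 22) (sm' k σ ρ 1 x y) = true := by
  have h := tb_all _ (mem_TBL hk hσ hρ)
  unfold tbChk at h
  have h := List.all_eq_true.1 h (x - 1) (List.mem_range.2 (by omega))
  have h := List.all_eq_true.1 h (y - 1) (List.mem_range.2 (by omega))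
  rw [Bool.and_eq_true, Bool.and_eq_true, Nat.sub_add_cancel hx1, Nat.sub_add_cancel hy1] at h
  exact h

theorem qi_enB : ∀ σ < 2, ∀ ρ < 3, ∀ ℓ < 13, ∀ ℓ' < 13, enB ℓ ℓ' = true →
    enB (qi σ ρ ℓ) (qi σ ρ ℓ') = true := by decide +kernel

theorem qi_lt : ∀ σ < 2, ∀ ρ < 3, ∀ ℓ < 13, qi σ ρ ℓ < 13 := by decide +kernel

theorem qq_enB {k σ ρ ℓ ℓ' : ℕ} (hσ : σ < 2) (hρ : ρ < 3) (h : enB ℓ ℓ' = true) :
    enB (qq k σ ρ ℓ) (qq k σ ρ ℓ') = true := by
  have h1 := enB_lt h
  have h2 := enB_lt' h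
  unfold qq
  split_ifs
  · exact qi_enB σ hσ ρ hρ ℓ h1 ℓ' h2 h
  · exact qi_enB σ hσ 0 (by omega) ℓ h1 ℓ' h2 h
  · exact h

theorem qq_lt {k σ ρ ℓ : ℕ} (hσ : σ < 2) (hρ : ρ < 3) (h : ℓ < 13) : qq k σ ρ ℓ < 13 := by
  unfold qq
  split_ifs
  · exact qi_lt σ hσ ρ hρ ℓ h
  · exact qi_lt σ hσ 0 (by omega) ℓ h
  · exact h

theorem enAux_mono (es : List ℕ) : ∀ (m a j : ℕ), a.testBit j = true →
    (enAux es m a).testBit j = true := by
  induction es with
  | nil =>
    intro m a j h
    exact h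
  | cons e es ih =>
    intro m a j h
    rw [enAux]
    refine ih _ _ _ ?_
    rw [Bool.cond_eq_ite]
    split_ifs
    · exact h
    · rw [Nat.testBit_or, h, Bool.true_or]

theorem enAux_complete (es : List ℕ) : ∀ (m a i j : ℕ), m.testBit i = true →
    (es.getD i 0).testBit j = true → (enAux es m a).testBit j = true := by
  induction es with
  | nil =>
    intro m a i j _ h
    simp at h
  | cons e es ih =>
    intro m a i j h1 h2
    rw [enAux]
    rcases i with _ | i
    · refine enAux_mono _ _ _ _ ?_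
      rw [Bool.cond_eq_ite, if_neg, Nat.testBit_or]
      · have : e.testBit j = true := by simpa using h2
        rw [this, Bool.or_true]
      · rw [Nat.beq_eq]
        intro h3
        rw [Nat.and_one_is_mod] at h3
        rw [Nat.testBit_zero] at h1
        simp at h1
        omega
    · refine ih _ _ i j ?_ (by simpa using h2)
      rw [Nat.testBit_shiftRight, add_comm]
      exact h1

theorem EN_complete {m i j : ℕ} (h1 : m.testBit i = true) (h2 : enB i j = true) :
    (EN m).testBit j = true := by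
  unfold EN
  rw [Bool.cond_eq_ite, if_neg]
  · exact enAux_complete _ _ _ _ _ h1 h2
  · rw [Nat.beq_eq]
    rintro rfl
    simp at h1

theorem en_spec {v m i j : ℕ} (h : enChk v m = true) (hi : m.testBit i = true)
    (hij : enB i j = true) : m.testBit j = false := by
  unfold enChk at h
  rw [Bool.or_eq_true, Bool.and_eq_true, Nat.beq_eq, Nat.beq_eq] at h
  rcases h with h | ⟨h, _⟩
  · rw [h] at hi
    simp at hi
  · have h1 := EN_complete hi hij
    by_contra hcon
    rw [Bool.not_eq_false] at hcon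
    have h2 : (m &&& EN m).testBit j = true := by
      rw [Nat.testBit_and, hcon, h1]
      rfl
    rw [h] at h2
    simp at h2

theorem pq_spec {v m p q : ℕ} (h : enChk v m = true) (hp : m.testBit p = true)
    (hq : m.testBit q = true) (hp' : p = 2 ∨ p = 3) (hq' : q = 8 ∨ q = 9 ∨ q = 10) :
    v ≠ 0 ∧ p = (if (v - 1) % 2 = 0 then 2 else 3) ∧ q = 8 + (v - 1) / 2 := by
  have hp12 : (m &&& 12).testBit p = true := by
    rw [Nat.testBit_and, hp, Bool.true_and]
    rcases hp' with rfl | rfl <;> decide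
  have hq17 : (m &&& 1792).testBit q = true := by
    rw [Nat.testBit_and, hq, Bool.true_and]
    rcases hq' with rfl | rfl | rfl <;> decide
  unfold enChk pqOK at h
  simp only [Bool.or_eq_true, Bool.and_eq_true, Nat.beq_eq, Bool.not_eq_true'] at h
  rcases h with h | ⟨_, (h | h) | ⟨h1, h2, h3⟩⟩
  · rw [h] at hp
    simp at hp
  · rw [h] at hp12
    simp at hp12
  · rw [h] at hq17
    simp at hq17
  · have hv : v ≠ 0 := by
      rintro rfl
      exact absurd h1 (by decide)
    refine ⟨hv, ?_, ?_⟩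
    · rw [h2] at hp12
      split_ifs at hp12 ⊢ with hc
      · rcases hp' with rfl | rfl
        · rfl
        · exact absurd hp12 (by decide)
      · rcases hp' with rfl | rfl
        · exact absurd hp12 (by decide)
        · rfl
    · rw [h3] at hq17
      have h4 : (256 : ℕ) <<< ((v - 1) / 2) = 2 ^ (8 + (v - 1) / 2) := by
        rw [Nat.shiftLeft_eq, pow_add]
        norm_num
      rw [h4, Nat.testBit_two_pow] at hq17
      exact (of_decide_eq_true hq17).symm

end Pool.Agent.H603R2.EP
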