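import Pool.Agent.H603R2.EP.CompT

/-!
# From assignments to flows
-/

namespace Pool.Agent.H603R2.EP

variable {n m : ℕ} {var : ℕ → ℕ → ℕ} {s r : ℕ → ℕ}

/-- the labels that use an edge -/
def GF (n m : ℕ) (var : ℕ → ℕ → ℕ) (s r : ℕ → ℕ) (ℓ o X Y : ℕ) : Bool :=
  (tm (KK n m var (X / 27) (Y / 24)) (s (Y / 24)) (r (X / 27)) o (X % 27 + 1) (Y % 24 + 1)).testBit ℓ

/-- the data of an assignment -/
structure Dat (n m : ℕ) (var : ℕ → ℕ → ℕ) (s r : ℕ → ℕ) : Prop where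
  hn : 1 ≤ n
  hm : 1 ≤ m
  hv : ∀ bx b, var bx b < 7
  hs : ∀ b, s b < 2
  hr : ∀ bx, r bx < 3
  ok : ∀ bx b v, v ≠ 0 → KK n m var bx b = 22 + v →
    ¬ (qi (s b) (r bx) 2 = (if (v - 1) % 2 = 0 then 2 else 3) ∧
      qi (s b) (r bx) 8 = 8 + (v - 1) / 2)

theorem gf_h (hd : Dat n m var s r) {bx b : ℕ} (hbx : 1 ≤ bx) (hb : 1 ≤ b) {x y : ℕ} (hx : x ≤ 27)
    (hy1 : 1 ≤ y) (hy : y ≤ 24) (ℓ : ℕ) : GF n m var s r ℓ 0 (27 * bx - 1 + x) (24 * b - 1 + y) =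
      (tm (KK n m var bx b) (s b) (r bx) 0 x y).testBit ℓ := by
  unfold GF
  have e1 : (24 * b - 1 + y) / 24 = b := by omega
  have e2 : (24 * b - 1 + y) % 24 + 1 = y := by omega
  rw [e1, e2]
  rcases Nat.eq_zero_or_pos x with h0 | h0
  · subst h0
    have e3 : (27 * bx - 1 + 0) / 27 = bx - 1 := by omega
    have e4 : (27 * bx - 1 + 0) % 27 + 1 = 27 := by omega
    rw [e3, e4, ((bdChk_spec (KK_lt hd.hv (bx - 1) b) (hd.hs b) (hd.hr (bx - 1))).1 y hy1 hy).2,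
      ((bdChk_spec (KK_lt hd.hv bx b) (hd.hs b) (hd.hr bx)).1 y hy1 hy).1,
      sig_KK hd.hn hd.hm hd.hv, sig_KK hd.hn hd.hm hd.hv]
    unfold quad
    rw [Nat.sub_add_cancel hbx]
  · have e3 : (27 * bx - 1 + x) / 27 = bx := by omega
    have e4 : (27 * bx - 1 + x) % 27 + 1 = x := by omega
    rw [e3, e4]

theorem gf_v (hd : Dat n m var s r) {bx b : ℕ} (hbx : 1 ≤ bx) (hb : 1 ≤ b) {x y : ℕ} (hx1 : 1 ≤ x)
    (hx : x ≤ 27) (hy : y ≤ 24) (ℓ : ℕ) : GF n m var s r ℓ 1 (27 * bx - 1 + x) (24 * b - 1 + y) =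
      (tm (KK n m var bx b) (s b) (r bx) 1 x y).testBit ℓ := by
  unfold GF
  have e1 : (27 * bx - 1 + x) / 27 = bx := by omega
  have e2 : (27 * bx - 1 + x) % 27 + 1 = x := by omega
  rw [e1, e2]
  rcases Nat.eq_zero_or_pos y with h0 | h0
  · subst h0
    have e3 : (24 * b - 1 + 0) / 24 = b - 1 := by omega
    have e4 : (24 * b - 1 + 0) % 24 + 1 = 24 := by omega
    rw [e3, e4, ((bdChk_spec (KK_lt hd.hv bx (b - 1)) (hd.hs (b - 1)) (hd.hr bx)).2 x hx1 hx).2,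
      ((bdChk_spec (KK_lt hd.hv bx b) (hd.hs b) (hd.hr bx)).2 x hx1 hx).1,
      sig_KK hd.hn hd.hm hd.hv, sig_KK hd.hn hd.hm hd.hv]
    unfold quad
    rw [Nat.sub_add_cancel hb]
  · have e3 : (24 * b - 1 + y) / 24 = b := by omega
    have e4 : (24 * b - 1 + y) % 24 + 1 = y := by omega
    rw [e3, e4]

theorem tpos_pos {n m k : ℕ} (hn : 1 ≤ n) : 1 ≤ (tpos n m k).1 ∧ 1 ≤ (tpos n m k).2 := by
  unfold tpos
  split_ifs <;> simp only <;> omega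

theorem ptOf_ge {n m : ℕ} (hn : 1 ≤ n) (e : ℕ × ℕ × ℕ) : 27 ≤ (ptOf n m e).1 ∧ 24 ≤ (ptOf n m e).2 := by
  obtain ⟨h1, h2⟩ := tpos_pos (n := n) (m := m) (k := e.1) hn
  unfold ptOf
  simp only
  omega

theorem srM_zero {k x y ℓ : ℕ} (hk : ¬ isT k) (hℓ : ℓ < 13) (hx : 1 ≤ x) (hy : 1 ≤ y) :
    (srM k x y).testBit ℓ = false := by
  rw [← Bool.not_eq_true, srM_testBit hℓ hx hy]
  intro h
  have := (src_ok ℓ hℓ).1
  rw [h] at this
  exact hk this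

theorem skM_zero {k x y ℓ : ℕ} (hk : ¬ isT k) (hℓ : ℓ < 13) (hx : 1 ≤ x) (hy : 1 ≤ y) :
    (skM k x y).testBit ℓ = false := by
  rw [← Bool.not_eq_true, skM_testBit hℓ hx hy]
  intro h
  have := (snk_ok ℓ hℓ).1
  rw [h] at this
  exact hk this

theorem qq_isT {k σ ρ ℓ : ℕ} (hk : isT k) : qq k σ ρ ℓ = ℓ := by
  unfold isT at hk
  unfold qq
  rw [if_neg (by omega), if_neg (by omega)]

theorem srM_qq {k σ ρ x y ℓ : ℕ} (hσ : σ < 2) (hρ : ρ < 3) (hℓ : ℓ < 13) (hx : 1 ≤ x) (hy : 1 ≤ y) :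
    (srM k x y).testBit (qq k σ ρ ℓ) = (srM k x y).testBit ℓ := by
  by_cases hk : isT k
  · rw [qq_isT hk]
  · rw [srM_zero hk (qq_lt hσ hρ hℓ) hx hy, srM_zero hk hℓ hx hy]

theorem skM_qq {k σ ρ x y ℓ : ℕ} (hσ : σ < 2) (hρ : ρ < 3) (hℓ : ℓ < 13) (hx : 1 ≤ x) (hy : 1 ≤ y) :
    (skM k x y).testBit (qq k σ ρ ℓ) = (skM k x y).testBit ℓ := by
  by_cases hk : isT k
  · rw [qq_isT hk]
  · rw [skM_zero hk (qq_lt hσ hρ hℓ) hx hy, skM_zero hk hℓ hx hy]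

theorem toNat_ite {b : Bool} {p : Prop} [Decidable p] (h : b = true ↔ p) :
    b.toNat = if p then 1 else 0 := by
  by_cases hp : p
  · rw [if_pos hp, h.2 hp]
    rfl
  · rw [if_neg hp]
    have : b = false := by
      rw [← Bool.not_eq_true]
      exact fun h' => hp (h.1 h')
    rw [this]
    rfl

theorem gf_flow (hd : Dat n m var s r) {ℓ : ℕ} (hℓ : ℓ < 13) :
    IsFlow (hdir n m var) (vdir n m var) (GF n m var s r ℓ) (rT n m ℓ) (sT n m ℓ) := by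
  intro X Y hX hY
  by_cases hz : X / 27 = 0 ∨ Y / 24 = 0
  · -- no arcs
    have hz1 : KK n m var (X / 27) (Y / 24) = 0 := KK_zero hd.hn (by omega)
    have hz2 : KK n m var ((X - 1) / 27) (Y / 24) = 0 := KK_zero hd.hn (by omega)
    have hz3 : KK n m var (X / 27) ((Y - 1) / 24) = 0 := KK_zero hd.hn (by omega)
    have hr : (X, Y) ≠ rT n m ℓ := by
      intro h
      obtain ⟨h1, h2⟩ := ptOf_ge (m := m) hd.hn (srcK.getD ℓ (0, 0, 0))
      unfold rT at h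
      rw [← h] at h1 h2
      simp only at h1 h2
      omega
    have hs : (X, Y) ≠ sT n m ℓ := by
      intro h
      obtain ⟨h1, h2⟩ := ptOf_ge (m := m) hd.hn (snkK.getD ℓ (0, 0, 0))
      unfold sT at h
      rw [← h] at h1 h2
      simp only at h1 h2
      omega
    rw [if_neg hr, if_neg hs]
    unfold inS outS hdir vdir
    rw [hz1, hz2, hz3, DH0, DV0, dir_zero, dir_zero, dir_zero]
    simp [ci, co, sw_def]
  · obtain ⟨bx, hbx⟩ : ∃ bx, X / 27 = bx := ⟨_, rfl⟩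
    obtain ⟨b, hb⟩ : ∃ b, Y / 24 = b := ⟨_, rfl⟩
    obtain ⟨x, hx⟩ : ∃ x, X % 27 + 1 = x := ⟨_, rfl⟩
    obtain ⟨y, hy⟩ : ∃ y, Y % 24 + 1 = y := ⟨_, rfl⟩
    have hbx1 : 1 ≤ bx := by omega
    have hb1 : 1 ≤ b := by omega
    have eX : X = 27 * bx - 1 + x := by omega
    have eY : Y = 24 * b - 1 + y := by omega
    have hx1 : 1 ≤ x := by omega
    have hx27 : x ≤ 27 := by omega
    have hy1 : 1 ≤ y := by omega
    have hy24 : y ≤ 24 := by omega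
    rw [eX, eY]
    clear hX hY hz hbx hb hx hy eX eY
    have hσ := hd.hs b
    have hρ := hd.hr bx
    have hk := KK_lt (n := n) (m := m) hd.hv bx b
    obtain ⟨k, hkk⟩ : ∃ k, KK n m var bx b = k := ⟨_, rfl⟩
    rw [hkk] at hk
    have hcs := (tb_spec hk hσ hρ hx1 hx27 hy1 hy24).1
    have h := cs_spec hcs (qq k (s b) (r bx) ℓ)
      (fun o x y => (get (CTT.getD (idx k (s b) (r bx)) 0) (code o x y)).testBit
        (qq k (s b) (r bx) ℓ)) (fun _ _ _ => rfl)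
    rw [srM_qq hσ hρ hℓ hx1 hy1, skM_qq hσ hρ hℓ hx1 hy1] at h
    have e1 : 27 * bx - 1 + x - 1 = 27 * bx - 1 + (x - 1) := by omega
    have e2 : 24 * b - 1 + y - 1 = 24 * b - 1 + (y - 1) := by omega
    have f1 := gf_h hd hbx1 hb1 hx27 hy1 hy24 ℓ
    have f2 := gf_h hd hbx1 hb1 (x := x - 1) (by omega) hy1 hy24 ℓ
    have f3 := gf_v hd hbx1 hb1 hx1 hx27 hy24 ℓ
    have f4 := gf_v hd hbx1 hb1 hx1 hx27 (y := y - 1) (by omega) ℓ
    rw [hkk, tm_testBit hσ hρ hℓ] at f1 f2 f3 f4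
    have d1 := frame_h hd.hn hd.hm hd.hv hbx1 hb1 hx27 hy1 hy24
    have d2 := frame_h hd.hn hd.hm hd.hv hbx1 hb1 (x := x - 1) (by omega) hy1 hy24
    have d3 := frame_v hd.hn hd.hm hd.hv hbx1 hb1 hx1 hx27 hy24
    have d4 := frame_v hd.hn hd.hm hd.hv hbx1 hb1 hx1 hx27 (y := y - 1) (by omega)
    rw [hkk] at d1 d2 d3 d4
    have hsr : ((srM k x y).testBit ℓ).toNat =
        if (27 * bx - 1 + x, 24 * b - 1 + y) = rT n m ℓ then 1 else 0 := by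
      refine toNat_ite ?_
      obtain ⟨g1, g2, g3⟩ := src_ok ℓ hℓ
      rw [srM_testBit hℓ hx1 hy1, ← hkk]
      exact (pt_iff hd.hn hd.hm hd.hv g1 g2 g3 hbx1 hb1 hx1 hx27 hy1 hy24).symm
    have hsk : ((skM k x y).testBit ℓ).toNat =
        if (27 * bx - 1 + x, 24 * b - 1 + y) = sT n m ℓ then 1 else 0 := by
      refine toNat_ite ?_
      obtain ⟨g1, g2, g3⟩ := snk_ok ℓ hℓ
      rw [skM_testBit hℓ hx1 hy1, ← hkk]
      exact (pt_iff hd.hn hd.hm hd.hv g1 g2 g3 hbx1 hb1 hx1 hx27 hy1 hy24).symm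
    rw [hsr, hsk] at h
    have hin : inS (hdir n m var) (vdir n m var) (GF n m var s r ℓ) (27 * bx - 1 + x)
        (24 * b - 1 + y) = inS (dir (DHt k)) (dir (DVt k))
        (fun o x y => (get (CTT.getD (idx k (s b) (r bx)) 0) (code o x y)).testBit
        (qq k (s b) (r bx) ℓ)) x y := by
      unfold inS
      rw [e1, e2, f1, f2, f3, f4, d1, d2, d3, d4]
      rfl
    have hout : outS (hdir n m var) (vdir n m var) (GF n m var s r ℓ) (27 * bx - 1 + x)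
        (24 * b - 1 + y) = outS (dir (DHt k)) (dir (DVt k))
        (fun o x y => (get (CTT.getD (idx k (s b) (r bx)) 0) (code o x y)).testBit
        (qq k (s b) (r bx) ℓ)) x y := by
      unfold outS
      rw [e1, e2, f1, f2, f3, f4, d1, d2, d3, d4]
      rfl
    rw [hin, hout]
    exact h

theorem gf_enChk (hd : Dat n m var s r) {o : ℕ} (ho : o = 0 ∨ o = 1) (X Y : ℕ) :
    enChk (KK n m var (X / 27) (Y / 24) - 22)
      (sm' (KK n m var (X / 27) (Y / 24)) (s (Y / 24)) (r (X / 27)) o (X % 27 + 1) (Y % 24 + 1)) =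
      true := by
  have := (tb_spec (KK_lt (n := n) (m := m) hd.hv (X / 27) (Y / 24)) (hd.hs (Y / 24))
    (hd.hr (X / 27)) (x := X % 27 + 1) (y := Y % 24 + 1) (by omega) (by omega) (by omega)
    (by omega)).2
  rcases ho with rfl | rfl
  · exact this.1
  · exact this.2

theorem gf_enm (hd : Dat n m var s r) {ℓ ℓ' o X Y : ℕ} (ho : o = 0 ∨ o = 1) (h : enB ℓ ℓ' = true)
    (h1 : GF n m var s r ℓ o X Y = true) : GF n m var s r ℓ' o X Y = false := by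
  have hc := gf_enChk hd ho X Y
  unfold GF at h1 ⊢
  rw [tm_testBit (hd.hs _) (hd.hr _) (enB_lt h)] at h1
  rw [tm_testBit (hd.hs _) (hd.hr _) (enB_lt' h)]
  exact en_spec hc h1 (qq_enB (hd.hs _) (hd.hr _) h)

theorem qi_28 : ∀ σ < 2, ∀ ρ < 3, (qi σ ρ 2 = 2 ∨ qi σ ρ 2 = 3) ∧
    (qi σ ρ 8 = 8 ∨ qi σ ρ 8 = 9 ∨ qi σ ρ 8 = 10) := by decide +kernel

theorem qq_28 {k σ ρ : ℕ} (hσ : σ < 2) (hρ : ρ < 3) : (qq k σ ρ 2 = 2 ∨ qq k σ ρ 2 = 3) ∧
    (qq k σ ρ 8 = 8 ∨ qq k σ ρ 8 = 9 ∨ qq k σ ρ 8 = 10) := by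
  unfold qq
  split_ifs
  · exact qi_28 σ hσ ρ hρ
  · exact qi_28 σ hσ 0 (by omega)
  · exact ⟨Or.inl rfl, Or.inl rfl⟩

theorem gf_pq (hd : Dat n m var s r) {o X Y : ℕ} (ho : o = 0 ∨ o = 1)
    (h1 : GF n m var s r 2 o X Y = true) : GF n m var s r 8 o X Y = false := by
  have hc := gf_enChk hd ho X Y
  by_contra hcon
  rw [Bool.not_eq_false] at hcon
  unfold GF at h1 hcon
  rw [tm_testBit (hd.hs _) (hd.hr _) (by omega)] at h1 hcon
  obtain ⟨q1, q2⟩ := qq_28 (k := KK n m var (X / 27) (Y / 24)) (hd.hs (Y / 24)) (hd.hr (X / 27))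
  obtain ⟨g1, g2, g3⟩ := pq_spec hc h1 hcon q1 q2
  have hk : 22 ≤ KK n m var (X / 27) (Y / 24) := by omega
  have e : KK n m var (X / 27) (Y / 24) = 22 + (KK n m var (X / 27) (Y / 24) - 22) := by omega
  have := hd.ok _ _ _ g1 e
  unfold qq at g2 g3
  rw [if_pos hk] at g2 g3
  exact this ⟨g2, g3⟩

end Pool.Agent.H603R2.EP
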