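import Pool.Agent.H673R2.PdpDefs

/-!
# The edge-disjoint partially disjoint paths problem: definitions
-/

namespace Pool.Agent.H603R2.EP

open Pool.Agent.H673R2.Pdp

/-- The arcs of the directed path with vertex sequence `P`. -/
def pathArcs (P : List ℕ) : List (ℕ × ℕ) := P.zip P.tail

/-- `P` is a solution of the edge-disjoint partially disjoint paths problem with arcs `A`, terminal
pairs `T = (r_1, s_1), …, (r_k, s_k)` and set of pairs `F`: `P` is a list of `k` directed paths, the
`i`-th one from `r_i` to `s_i`, and the `i`-th and the `j`-th have no common arc whenever `{i, j}` is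
in `F`. -/
def IsEdgeSolution (A T F : List (ℕ × ℕ)) (P : List (List ℕ)) : Prop :=
  P.length = T.length ∧
    (∀ i < T.length, IsDiPath A (T.getD i (0, 0)).1 (T.getD i (0, 0)).2 (P.getD i [])) ∧
    ∀ e ∈ F, ∀ a ∈ pathArcs (P.getD e.1 []), a ∉ pathArcs (P.getD e.2 [])

end Pool.Agent.H603R2.EP
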