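import Pool.Agent.H603R2.EP.Grid

/-!
# A propagation engine for labelled flows in tiles
-/

namespace Pool.Agent.H603R2.EP

/-- code of an edge of the frame -/
def code (o : ℕ) (x y : ℕ) : ℕ := (x * 32 + y) * 2 + o

/-- the mask stored at position `c` -/
def get (Y c : ℕ) : ℕ := (Y >>> (16 * c)) &&& 8191

/-- add a mask at position `c` -/
def put (Y c m : ℕ) : ℕ := Y ||| ((m &&& 8191) <<< (16 * c))

/-- look up a direction in a table -/
def dir (T x y : ℕ) : ℕ := (T >>> (2 * (x * 32 + y))) &&& 3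

/-- enemy masks -/
def enL : List ℕ := [126, 125, 107, 103, 8099, 31, 8079, 8016, 7888, 7632, 7120, 6096, 4048]

def enAux : List ℕ → ℕ → ℕ → ℕ
  | [], _, acc => acc
  | e :: es, m, acc => enAux es (m >>> 1) (bif Nat.beq (m &&& 1) 0 then acc else acc ||| e)

def EN (m : ℕ) : ℕ := bif Nat.beq m 0 then 0 else enAux enL m 0

/-- `ℓ` and `ℓ'` are enemies (as slots) -/
def enB (ℓ ℓ' : ℕ) : Bool := (enL.getD ℓ 0).testBit ℓ'

/-- the accumulated data (same side yes, same side no, other side yes, other side no) -/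
structure Acc where
  sY : ℕ
  sN : ℕ
  oY : ℕ
  oN : ℕ

def acc (Y N side c d : ℕ) (a : Acc) : Acc :=
  bif Nat.beq d side then ⟨a.sY ||| get Y c, a.sN &&& get N c, a.oY, a.oN⟩ else
  bif Nat.beq d (3 - side) then ⟨a.sY, a.sN, a.oY ||| get Y c, a.oN &&& get N c⟩ else a

def fin (Y N c side : ℕ) (a : Acc) : ℕ × ℕ :=
  bif Nat.beq side 1 || Nat.beq side 2 then
    (put Y c (a.oY &&& a.sN), put N c ((a.oN ||| a.sY) ||| EN (a.oY &&& a.sN)))
  else (Y, N)

def init (side sr sk : ℕ) : Acc :=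
  bif Nat.beq side 1 then ⟨sr, sr ^^^ 8191, sk, sk ^^^ 8191⟩ else ⟨sk, sk ^^^ 8191, sr, sr ^^^ 8191⟩

def stepE (dh dv : ℕ → ℕ → ℕ) (sr sk : ℕ → ℕ → ℕ) (x y e Y N : ℕ) : ℕ × ℕ :=
  match e with
  | 0 =>
    let s := sw (dh x y)
    fin Y N (code 0 x y) s (acc Y N s (code 0 (x-1) y) (dh (x-1) y) (acc Y N s (code 1 x y) (sw (dv x y))
      (acc Y N s (code 1 x (y-1)) (dv x (y-1)) (init s (sr x y) (sk x y)))))
  | 1 =>
    let s := dh (x-1) y
    fin Y N (code 0 (x-1) y) s (acc Y N s (code 0 x y) (sw (dh x y)) (acc Y N s (code 1 x y) (sw (dv x y))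
      (acc Y N s (code 1 x (y-1)) (dv x (y-1)) (init s (sr x y) (sk x y)))))
  | 2 =>
    let s := sw (dv x y)
    fin Y N (code 1 x y) s (acc Y N s (code 0 x y) (sw (dh x y)) (acc Y N s (code 0 (x-1) y) (dh (x-1) y)
      (acc Y N s (code 1 x (y-1)) (dv x (y-1)) (init s (sr x y) (sk x y)))))
  | _ =>
    let s := dv x (y-1)
    fin Y N (code 1 x (y-1)) s (acc Y N s (code 0 x y) (sw (dh x y)) (acc Y N s (code 0 (x-1) y) (dh (x-1) y)
      (acc Y N s (code 1 x y) (sw (dv x y)) (init s (sr x y) (sk x y)))))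

def run (w h : ℕ) (dh dv : ℕ → ℕ → ℕ) (sr sk : ℕ → ℕ → ℕ) : ℕ → ℕ → ℕ → ℕ → ℕ × ℕ
  | 0, _, Y, N => (Y, N)
  | k + 1, p, Y, N =>
    bif (Nat.ble 1 ((p >>> 7) &&& 63) && Nat.ble 1 ((p >>> 2) &&& 31)) &&
      (Nat.ble ((p >>> 7) &&& 63) w && Nat.ble ((p >>> 2) &&& 31) h) then
      run w h dh dv sr sk k (p >>> 13)
        (stepE dh dv sr sk ((p >>> 7) &&& 63) ((p >>> 2) &&& 31) (p &&& 3) Y N).1
        (stepE dh dv sr sk ((p >>> 7) &&& 63) ((p >>> 2) &&& 31) (p &&& 3) Y N).2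
    else (Y, N)

/-- a fact: orientation, position, mask of the labels that use the edge, mask of the labels that do
not -/
abbrev Fact : Type := ℕ × ℕ × ℕ × ℕ × ℕ

/-- the start state -/
def st0 (L : List Fact) : ℕ × ℕ :=
  L.foldl (fun s f => (put s.1 (code f.1 f.2.1 f.2.2.1) f.2.2.2.1,
    put s.2 (code f.1 f.2.1 f.2.2.1) (f.2.2.2.2 ||| EN f.2.2.2.1))) (0, 0)

def chk (L : List Fact) (r : ℕ × ℕ) : Bool :=
  L.all fun f => Nat.beq (get r.1 (code f.1 f.2.1 f.2.2.1) &&& f.2.2.2.1) f.2.2.2.1 &&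
    Nat.beq (get r.2 (code f.1 f.2.1 f.2.2.1) &&& f.2.2.2.2) f.2.2.2.2

/-! ### Soundness -/

/-- The fact `f` holds for the local flows `g`. -/
def Holds (g : ℕ → ℕ → ℕ → ℕ → Bool) (f : Fact) : Prop :=
  ∀ ℓ < 13, (f.2.2.2.1.testBit ℓ = true → g ℓ f.1 f.2.1 f.2.2.1 = true) ∧
    (f.2.2.2.2.testBit ℓ = true → g ℓ f.1 f.2.1 f.2.2.1 = false)

def Small (f : Fact) : Prop := f.1 < 2 ∧ f.2.2.1 < 32

instance (f : Fact) : Decidable (Small f) := by unfold Small; infer_instance

/-- The state is valid. -/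
def Valid (g : ℕ → ℕ → ℕ → ℕ → Bool) (Y N : ℕ) : Prop :=
  ∀ o < 2, ∀ x, ∀ y < 32, ∀ ℓ < 13,
    ((get Y (code o x y)).testBit ℓ = true → g ℓ o x y = true) ∧
      ((get N (code o x y)).testBit ℓ = true → g ℓ o x y = false)

theorem testBit_8191 (i : ℕ) : (8191 : ℕ).testBit i = decide (i < 13) := by
  have : (8191 : ℕ) = 2 ^ 13 - 1 := by norm_num
  rw [this, Nat.testBit_two_pow_sub_one]

theorem get_testBit (Y c i : ℕ) : (get Y c).testBit i = (Y.testBit (16 * c + i) && decide (i < 13)) := by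
  unfold get
  rw [Nat.testBit_and, Nat.testBit_shiftRight, testBit_8191]

theorem put_testBit (Y c m c' i : ℕ) (hi : i < 13) :
    (get (put Y c m) c').testBit i = ((get Y c').testBit i || (decide (c' = c) && m.testBit i)) := by
  rw [get_testBit, get_testBit]
  unfold put
  rw [Nat.testBit_or, Nat.testBit_shiftLeft, Nat.testBit_and, testBit_8191]
  have h1 : decide (i < 13) = true := decide_eq_true hi
  rw [h1, Bool.and_true, Bool.and_true]
  congr 1
  by_cases h : c' = c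
  · subst h
    have h2 : 16 * c' + i - 16 * c' = i := by omega
    rw [h2]
    simp [hi]
  · have h3 : decide (c' = c) = false := decide_eq_false h
    rw [h3, Bool.false_and]
    by_cases h4 : 16 * c' + i ≥ 16 * c
    · have h5 : ¬ (16 * c' + i - 16 * c < 13) := by omega
      simp [h5]
    · simp [h4]

theorem code_inj {o x y o' x' y' : ℕ} (ho : o < 2) (hy : y < 32) (ho' : o' < 2) (hy' : y' < 32)
    (h : code o x y = code o' x' y') : o = o' ∧ x = x' ∧ y = y' := by
  unfold code at h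
  omega

theorem enAux_spec (es : List ℕ) : ∀ (m a j : ℕ), (enAux es m a).testBit j = true →
    a.testBit j = true ∨ ∃ i, m.testBit i = true ∧ (es.getD i 0).testBit j = true := by
  induction es with
  | nil =>
    intro m a j h
    exact Or.inl h
  | cons e es ih =>
    intro m a j h
    rw [enAux] at h
    rcases ih _ _ _ h with h | ⟨i, h1, h2⟩
    · by_cases hm : Nat.beq (m &&& 1) 0 = true
      · rw [hm, cond_true] at h
        exact Or.inl h
      · rw [Bool.not_eq_true] at hm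
        rw [hm, cond_false, Nat.testBit_or, Bool.or_eq_true] at h
        rcases h with h | h
        · exact Or.inl h
        · refine Or.inr ⟨0, ?_, by simpa using h⟩
          rw [Nat.testBit_zero]
          have : m &&& 1 ≠ 0 := by
            intro h0
            rw [h0] at hm
            exact absurd hm (by decide)
          rw [Nat.and_one_is_mod] at this
          simp
          omega
    · refine Or.inr ⟨i + 1, ?_, ?_⟩
      · rw [Nat.testBit_shiftRight] at h1
        rw [add_comm]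
        exact h1
      · simpa using h2

theorem EN_spec {m j : ℕ} (h : (EN m).testBit j = true) : ∃ i, m.testBit i = true ∧
    enB i j = true := by
  unfold EN at h
  by_cases hm : Nat.beq m 0 = true
  · rw [hm, cond_true] at h
    simp at h
  · rw [Bool.not_eq_true] at hm
    rw [hm, cond_false] at h
    rcases enAux_spec _ _ _ _ h with h | ⟨i, h1, h2⟩
    · simp at h
    · exact ⟨i, h1, h2⟩

theorem enB_lt {i j : ℕ} (h : enB i j = true) : i < 13 := by
  unfold enB at h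
  by_contra hi
  have : enL.length ≤ i := by
    have : enL.length = 13 := rfl
    omega
  rw [List.getD_eq_default _ _ this] at h
  simp at h

/-- Enemies never share an edge. -/
def Enm (g : ℕ → ℕ → ℕ → ℕ → Bool) : Prop :=
  ∀ ℓ ℓ' o x y, enB ℓ ℓ' = true → g ℓ o x y = true → g ℓ' o x y = false

theorem valid_put {g : ℕ → ℕ → ℕ → ℕ → Bool} {Y N : ℕ} (hv : Valid g Y N) {o x y : ℕ} (ho : o < 2)
    (hy : y < 32) {m n : ℕ} (hm : ∀ ℓ < 13, m.testBit ℓ = true → g ℓ o x y = true)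
    (hn : ∀ ℓ < 13, n.testBit ℓ = true → g ℓ o x y = false) :
    Valid g (put Y (code o x y) m) (put N (code o x y) n) := by
  intro o' ho' x' y' hy' ℓ hℓ
  rw [put_testBit _ _ _ _ _ hℓ, put_testBit _ _ _ _ _ hℓ]
  obtain ⟨h1, h2⟩ := hv o' ho' x' y' hy' ℓ hℓ
  constructor
  · intro h
    rw [Bool.or_eq_true, Bool.and_eq_true, decide_eq_true_eq] at h
    rcases h with h | ⟨h, h'⟩
    · exact h1 h
    · obtain ⟨rfl, rfl, rfl⟩ := code_inj ho' hy' ho hy h
      exact hm ℓ hℓ h'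
  · intro h
    rw [Bool.or_eq_true, Bool.and_eq_true, decide_eq_true_eq] at h
    rcases h with h | ⟨h, h'⟩
    · exact h2 h
    · obtain ⟨rfl, rfl, rfl⟩ := code_inj ho' hy' ho hy h
      exact hn ℓ hℓ h'

theorem valid_st0 {g : ℕ → ℕ → ℕ → ℕ → Bool} (he : Enm g) {L : List Fact}
    (hs : ∀ f ∈ L, Small f) (hL : ∀ f ∈ L, Holds g f) : Valid g (st0 L).1 (st0 L).2 := by
  unfold st0
  have key : ∀ (L : List Fact) (s : ℕ × ℕ), (∀ f ∈ L, Small f) → (∀ f ∈ L, Holds g f) →
      Valid g s.1 s.2 → Valid g (L.foldl (fun s f => (put s.1 (code f.1 f.2.1 f.2.2.1) f.2.2.2.1,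
        put s.2 (code f.1 f.2.1 f.2.2.1) (f.2.2.2.2 ||| EN f.2.2.2.1))) s).1
        (L.foldl (fun s f => (put s.1 (code f.1 f.2.1 f.2.2.1) f.2.2.2.1,
        put s.2 (code f.1 f.2.1 f.2.2.1) (f.2.2.2.2 ||| EN f.2.2.2.1))) s).2 := by
    intro L
    induction L with
    | nil =>
      intro s _ _ h
      exact h
    | cons f L ih =>
      intro s h1 h2 h
      rw [List.foldl_cons]
      refine ih _ (fun f' hf' => h1 f' (List.mem_cons_of_mem _ hf'))
        (fun f' hf' => h2 f' (List.mem_cons_of_mem _ hf')) ?_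
      have hsm := h1 f List.mem_cons_self
      have hh := h2 f List.mem_cons_self
      refine valid_put h hsm.1 hsm.2 (fun ℓ hℓ hb => (hh ℓ hℓ).1 hb) ?_
      intro ℓ hℓ hb
      rw [Nat.testBit_or, Bool.or_eq_true] at hb
      rcases hb with hb | hb
      · exact (hh ℓ hℓ).2 hb
      · obtain ⟨i, hi, hi'⟩ := EN_spec hb
        exact he i ℓ _ _ _ hi' ((hh i (enB_lt hi')).1 hi)
  refine key L (0, 0) hs hL ?_
  intro o _ x y _ ℓ _
  rw [get_testBit]
  simp

theorem holds_of_chk {g : ℕ → ℕ → ℕ → ℕ → Bool} {r : ℕ × ℕ} (hv : Valid g r.1 r.2)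
    {L : List Fact} (hs : ∀ f ∈ L, Small f) (h : chk L r = true) : ∀ f ∈ L, Holds g f := by
  intro f hf ℓ hℓ
  unfold chk at h
  rw [List.all_eq_true] at h
  have h1 := h f hf
  rw [Bool.and_eq_true, Nat.beq_eq, Nat.beq_eq] at h1
  obtain ⟨h2, h3⟩ := h1
  have hsm := hs f hf
  obtain ⟨h4, h5⟩ := hv f.1 hsm.1 f.2.1 f.2.2.1 hsm.2 ℓ hℓ
  constructor
  · intro hb
    rw [← h2, Nat.testBit_and, Bool.and_eq_true] at hb
    exact h4 hb.1
  · intro hb
    rw [← h3, Nat.testBit_and, Bool.and_eq_true] at hb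
    exact h5 hb.1

/-- Conservation at the vertex `(x, y)`. -/
def Cons (g : ℕ → ℕ → ℕ → ℕ → Bool) (dh dv : ℕ → ℕ → ℕ) (a b : ℕ) (x y : ℕ) : Prop :=
  ∀ ℓ < 13, inS dh dv (g ℓ) x y + (a.testBit ℓ).toNat = outS dh dv (g ℓ) x y + (b.testBit ℓ).toNat ∧
    inS dh dv (g ℓ) x y + (a.testBit ℓ).toNat ≤ 1

def Inv (a : Acc) (ℓ p q : ℕ) : Prop :=
  (a.sY.testBit ℓ = true → 1 ≤ p) ∧ (a.sN.testBit ℓ = true → p = 0) ∧
    (a.oY.testBit ℓ = true → 1 ≤ q) ∧ (a.oN.testBit ℓ = true → q = 0)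

theorem acc_inv {g : ℕ → ℕ → ℕ → ℕ → Bool} {Y N : ℕ} (hv : Valid g Y N) {o x y ℓ : ℕ}
    (ho : o < 2) (hy : y < 32) (hℓ : ℓ < 13) {side d : ℕ} {a : Acc} {p q : ℕ} (h : Inv a ℓ p q) :
    Inv (acc Y N side (code o x y) d a) ℓ (p + if d = side then (g ℓ o x y).toNat else 0)
      (q + if d = side then 0 else if d = 3 - side then (g ℓ o x y).toNat else 0) := by
  obtain ⟨h1, h2, h3, h4⟩ := h
  obtain ⟨k1, k2⟩ := hv o ho x y hy ℓ hℓ
  unfold acc
  simp only [Bool.cond_eq_ite, Nat.beq_eq]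
  split_ifs with c1 c2
  · refine ⟨?_, ?_, ?_, ?_⟩
    · intro hb
      simp only [Nat.testBit_or, Bool.or_eq_true] at hb
      rcases hb with hb | hb
      · have := h1 hb
        omega
      · rw [k1 hb]
        simp
    · intro hb
      simp only [Nat.testBit_and, Bool.and_eq_true] at hb
      rw [h2 hb.1, k2 hb.2]
      simp
    · simpa using h3
    · simpa using h4
  · refine ⟨?_, ?_, ?_, ?_⟩
    · simpa using h1
    · simpa using h2
    · intro hb
      simp only [Nat.testBit_or, Bool.or_eq_true] at hb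
      rcases hb with hb | hb
      · have := h3 hb
        omega
      · rw [k1 hb]
        simp
    · intro hb
      simp only [Nat.testBit_and, Bool.and_eq_true] at hb
      rw [h4 hb.1, k2 hb.2]
      simp
  · exact ⟨h1, h2, h3, h4⟩

theorem init_inv {side sr sk ℓ : ℕ} (hℓ : ℓ < 13) :
    Inv (init side sr sk) ℓ (if side = 1 then (sr.testBit ℓ).toNat else (sk.testBit ℓ).toNat)
      (if side = 1 then (sk.testBit ℓ).toNat else (sr.testBit ℓ).toNat) := by
  unfold init Inv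
  simp only [Bool.cond_eq_ite, Nat.beq_eq]
  have h8 : (8191 : ℕ).testBit ℓ = true := by rw [testBit_8191]; exact decide_eq_true hℓ
  split_ifs with h
  · simp only [Nat.testBit_xor, h8, Bool.bne_true]
    cases sr.testBit ℓ <;> cases sk.testBit ℓ <;> simp
  · simp only [Nat.testBit_xor, h8, Bool.bne_true]
    cases sr.testBit ℓ <;> cases sk.testBit ℓ <;> simp

theorem fin_valid {g : ℕ → ℕ → ℕ → ℕ → Bool} (he : Enm g) {Y N : ℕ} (hv : Valid g Y N)
    {o x y : ℕ} (ho : o < 2) (hy : y < 32) {side : ℕ} {a : Acc}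
    (hi : (side = 1 ∨ side = 2) → ∀ ℓ < 13, ∃ p q, Inv a ℓ p q ∧
      p + (g ℓ o x y).toNat = q ∧ q ≤ 1) :
    Valid g (fin Y N (code o x y) side a).1 (fin Y N (code o x y) side a).2 := by
  unfold fin
  simp only [Bool.cond_eq_ite, Nat.beq_eq, Bool.or_eq_true]
  split_ifs with h
  · have hi' := hi h
    have hY : ∀ ℓ < 13, (a.oY &&& a.sN).testBit ℓ = true → g ℓ o x y = true := by
      intro ℓ hℓ hb
      rw [Nat.testBit_and, Bool.and_eq_true] at hb
      obtain ⟨p, q, ⟨h1, h2, h3, h4⟩, h5, h6⟩ := hi' ℓ hℓ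
      have := h3 hb.1
      have := h2 hb.2
      cases hg : g ℓ o x y
      · rw [hg] at h5
        simp at h5
        omega
      · rfl
    refine valid_put hv ho hy hY ?_
    intro ℓ hℓ hb
    simp only [Nat.testBit_or, Bool.or_eq_true] at hb
    obtain ⟨p, q, ⟨h1, h2, h3, h4⟩, h5, h6⟩ := hi' ℓ hℓ
    rcases hb with (hb | hb) | hb
    · have := h4 hb
      cases hg : g ℓ o x y
      · rfl
      · rw [hg] at h5
        simp at h5
        omega
    · have := h1 hb
      cases hg : g ℓ o x y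
      · rfl
      · rw [hg] at h5
        simp at h5
        omega
    · obtain ⟨i, hi1, hi2⟩ := EN_spec hb
      exact he i ℓ o x y hi2 (hY i (enB_lt hi2) hi1)
  · exact hv

theorem stepArith {s d1 d2 d3 b b1 b2 b3 a c : ℕ} (hs : s = 1 ∨ s = 2) {i o : ℕ}
    (hi : i = (if s = 1 then b else 0) + (if d1 = 1 then b1 else 0) + (if d2 = 1 then b2 else 0) +
      (if d3 = 1 then b3 else 0))
    (ho : o = (if s = 2 then b else 0) + (if d1 = 2 then b1 else 0) + (if d2 = 2 then b2 else 0) +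
      (if d3 = 2 then b3 else 0)) (h : i + a = o + c) (hle : i + a ≤ 1) :
    (((if s = 1 then a else c) + (if d3 = s then b3 else 0) + (if d2 = s then b2 else 0) +
      (if d1 = s then b1 else 0)) + b = ((if s = 1 then c else a) +
      (if d3 = s then 0 else if d3 = 3 - s then b3 else 0) +
      (if d2 = s then 0 else if d2 = 3 - s then b2 else 0) +
      (if d1 = s then 0 else if d1 = 3 - s then b1 else 0))) ∧
      ((if s = 1 then c else a) +
      (if d3 = s then 0 else if d3 = 3 - s then b3 else 0) +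
      (if d2 = s then 0 else if d2 = 3 - s then b2 else 0) +
      (if d1 = s then 0 else if d1 = 3 - s then b1 else 0)) ≤ 1 := by
  have key : ∀ (d x : ℕ), (if d = s then 0 else if d = 3 - s then x else 0) =
      if d = 3 - s then x else 0 := by
    intro d x
    split_ifs <;> omega
  rw [key, key, key]
  rcases hs with rfl | rfl
  · simp only [if_true, OfNat.one_ne_ofNat, if_false, Nat.reduceSub] at hi ho ⊢
    omega
  · simp only [if_true, OfNat.ofNat_ne_one, if_false, Nat.reduceSub] at hi ho ⊢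
    omega

theorem stepE_valid {g : ℕ → ℕ → ℕ → ℕ → Bool} (he : Enm g) {dh dv sr sk : ℕ → ℕ → ℕ} {Y N : ℕ}
    (hv : Valid g Y N) {x y : ℕ} (hy : y < 32) (hc : Cons g dh dv (sr x y) (sk x y) x y) (e : ℕ) :
    Valid g (stepE dh dv sr sk x y e Y N).1 (stepE dh dv sr sk x y e Y N).2 := by
  have hy1 : y - 1 < 32 := by omega
  unfold stepE
  split
  · dsimp only
    refine fin_valid he hv (by omega) hy ?_
    intro hs ℓ hℓ
    refine ⟨_, _, acc_inv hv (by omega) hy hℓ (acc_inv hv (by omega) hy hℓ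
      (acc_inv hv (by omega) hy1 hℓ (init_inv hℓ))), ?_⟩
    obtain ⟨h1, h2⟩ := hc ℓ hℓ
    refine stepArith hs ?_ ?_ h1 h2
    · simp only [inS, ci]
    · simp only [outS, co]
  · dsimp only
    refine fin_valid he hv (by omega) hy ?_
    intro hs ℓ hℓ
    refine ⟨_, _, acc_inv hv (by omega) hy hℓ (acc_inv hv (by omega) hy hℓ
      (acc_inv hv (by omega) hy1 hℓ (init_inv hℓ))), ?_⟩
    obtain ⟨h1, h2⟩ := hc ℓ hℓ
    refine stepArith hs ?_ ?_ h1 h2
    · simp only [inS, ci]; ring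
    · simp only [outS, co]; ring
  · dsimp only
    refine fin_valid he hv (by omega) hy ?_
    intro hs ℓ hℓ
    refine ⟨_, _, acc_inv hv (by omega) hy hℓ (acc_inv hv (by omega) hy hℓ
      (acc_inv hv (by omega) hy1 hℓ (init_inv hℓ))), ?_⟩
    obtain ⟨h1, h2⟩ := hc ℓ hℓ
    refine stepArith hs ?_ ?_ h1 h2
    · simp only [inS, ci]; ring
    · simp only [outS, co]; ring
  · dsimp only
    refine fin_valid he hv (by omega) hy1 ?_
    intro hs ℓ hℓ
    refine ⟨_, _, acc_inv hv (by omega) hy hℓ (acc_inv hv (by omega) hy hℓ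
      (acc_inv hv (by omega) hy hℓ (init_inv hℓ))), ?_⟩
    obtain ⟨h1, h2⟩ := hc ℓ hℓ
    refine stepArith hs ?_ ?_ h1 h2
    · simp only [inS, ci]; ring
    · simp only [outS, co]; ring

theorem run_valid {g : ℕ → ℕ → ℕ → ℕ → Bool} (he : Enm g) {w h : ℕ} {dh dv sr sk : ℕ → ℕ → ℕ}
    (hh : h < 32)
    (hc : ∀ x y, 1 ≤ x → x ≤ w → 1 ≤ y → y ≤ h → Cons g dh dv (sr x y) (sk x y) x y) (k : ℕ) :
    ∀ (p Y N : ℕ), Valid g Y N →
      Valid g (run w h dh dv sr sk k p Y N).1 (run w h dh dv sr sk k p Y N).2 := by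
  induction k with
  | zero =>
    intro p Y N hv
    exact hv
  | succ k ih =>
    intro p Y N hv
    rw [run]
    simp only [Bool.cond_eq_ite]
    split_ifs with hb
    · simp only [Bool.and_eq_true, Nat.ble_eq] at hb
      exact ih _ _ _ (stepE_valid he hv (by omega) (hc _ _ hb.1.1 hb.2.1 hb.1.2 hb.2.2) _)
    · exact hv

/-- The soundness theorem of the engine. -/
theorem engine {g : ℕ → ℕ → ℕ → ℕ → Bool} (he : Enm g) {w h : ℕ} {dh dv sr sk : ℕ → ℕ → ℕ}
    (hh : h < 32)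
    (hc : ∀ x y, 1 ≤ x → x ≤ w → 1 ≤ y → y ≤ h → Cons g dh dv (sr x y) (sk x y) x y)
    {L L' : List Fact} (k p : ℕ) (hs : ∀ f ∈ L, Small f) (hs' : ∀ f ∈ L', Small f)
    (hL : ∀ f ∈ L, Holds g f)
    (hk : chk L' (run w h dh dv sr sk k p (st0 L).1 (st0 L).2) = true) :
    ∀ f ∈ L', Holds g f :=
  holds_of_chk (run_valid he hh hc k p _ _ (valid_st0 he hs hL)) hs' hk

end Pool.Agent.H603R2.EP
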