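import Pool.Agent.H603R2.EP.Grid

/-!
# Grid digraphs are drawn in the plane
-/

namespace Pool.Agent.H603R2.EP

open Pool.Agent.H673R2.Pdp

variable {A B : ℕ} {hd vd : ℕ → ℕ → ℕ}

/-- the position of a vertex -/
noncomputable def gpos (B : ℕ) (v : ℕ) : ℝ × ℝ := (((v / B : ℕ) : ℝ), ((v % B : ℕ) : ℝ))

theorem gpos_pid {X Y : ℕ} (hY : Y < B) : gpos B (pid B X Y) = ((X : ℝ), (Y : ℝ)) := by
  unfold gpos pid
  have hB : 0 < B := by omega
  have h1 : (X * B + Y) / B = X := by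
    rw [mul_comm, Nat.mul_add_div hB, Nat.div_eq_of_lt hY, add_zero]
  have h2 : (X * B + Y) % B = Y := by
    rw [mul_comm, Nat.mul_add_mod, Nat.mod_eq_of_lt hY]
  rw [h1, h2]

theorem pid_div_mod (v : ℕ) : pid B (v / B) (v % B) = v := by
  unfold pid
  rw [mul_comm]
  exact Nat.div_add_mod v B

theorem seg_h {x y : ℝ} {z : ℝ × ℝ} (h : z ∈ openSegment ℝ (x, y) (x + 1, y)) :
    x < z.1 ∧ z.1 < x + 1 ∧ z.2 = y := by
  obtain ⟨a, b, ha, hb, hab, rfl⟩ := h
  simp only [Prod.smul_mk, smul_eq_mul, Prod.mk_add_mk]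
  refine ⟨?_, ?_, ?_⟩
  · have : a * x + b * (x + 1) = x + b := by rw [show a = 1 - b by linarith]; ring
    rw [this]; linarith
  · have : a * x + b * (x + 1) = x + b := by rw [show a = 1 - b by linarith]; ring
    rw [this]; linarith
  · rw [show a = 1 - b by linarith]; ring

theorem seg_v {x y : ℝ} {z : ℝ × ℝ} (h : z ∈ openSegment ℝ (x, y) (x, y + 1)) :
    z.1 = x ∧ y < z.2 ∧ z.2 < y + 1 := by
  obtain ⟨a, b, ha, hb, hab, rfl⟩ := h
  simp only [Prod.smul_mk, smul_eq_mul, Prod.mk_add_mk]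
  refine ⟨?_, ?_, ?_⟩
  · rw [show a = 1 - b by linarith]; ring
  · have : a * y + b * (y + 1) = y + b := by rw [show a = 1 - b by linarith]; ring
    rw [this]; linarith
  · have : a * y + b * (y + 1) = y + b := by rw [show a = 1 - b by linarith]; ring
    rw [this]; linarith

/-- where the points of an arc are -/
theorem arc_points (hb : Border A B hd vd) {a : ℕ × ℕ} (ha : a ∈ gArcs A B hd vd) :
    ∃ X Y : ℕ, (a ∈ hArc B hd X Y ∧ ∀ z ∈ openSegment ℝ (gpos B a.1) (gpos B a.2),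
        (X : ℝ) < z.1 ∧ z.1 < X + 1 ∧ z.2 = Y) ∨
      (a ∈ vArc B vd X Y ∧ ∀ z ∈ openSegment ℝ (gpos B a.1) (gpos B a.2),
        z.1 = X ∧ (Y : ℝ) < z.2 ∧ z.2 < Y + 1) := by
  obtain ⟨X, hX, Y, hY, h | h⟩ := mem_gArcs.1 ha
  · refine ⟨X, Y, Or.inl ⟨h, ?_⟩⟩
    rcases mem_hArc.1 h with ⟨h1, rfl⟩ | ⟨h1, rfl⟩
    · intro z hz
      simp only [gpos_pid hY] at hz
      push_cast at hz
      exact seg_h hz
    · intro z hz
      simp only [gpos_pid hY] at hz
      push_cast at hz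
      rw [openSegment_symm] at hz
      exact seg_h hz
  · refine ⟨X, Y, Or.inr ⟨h, ?_⟩⟩
    rcases mem_vArc.1 h with ⟨h1, rfl⟩ | ⟨h1, rfl⟩
    · have h2 : Y + 1 < B := (hb.2 X Y (Or.inl h1)).2.2.2
      intro z hz
      simp only [gpos_pid hY, gpos_pid h2] at hz
      push_cast at hz
      exact seg_v hz
    · have h2 : Y + 1 < B := (hb.2 X Y (Or.inr h1)).2.2.2
      intro z hz
      simp only [gpos_pid hY, gpos_pid h2] at hz
      push_cast at hz
      rw [openSegment_symm] at hz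
      exact seg_v hz

theorem not_between {m n : ℕ} (h1 : (m : ℝ) < n) (h2 : (n : ℝ) < m + 1) : False := by
  have h3 : m < n := by exact_mod_cast h1
  have h4 : n < m + 1 := by exact_mod_cast h2
  omega

theorem eq_of_between {m n : ℕ} {z : ℝ} (h1 : (m : ℝ) < z) (h2 : z < m + 1) (h3 : (n : ℝ) < z)
    (h4 : z < n + 1) : m = n := by
  have h5 : (m : ℝ) < n + 1 := by linarith
  have h6 : (n : ℝ) < m + 1 := by linarith
  have h7 : m < n + 1 := by exact_mod_cast h5
  have h8 : n < m + 1 := by exact_mod_cast h6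
  omega

theorem hArc_unique {X Y : ℕ} {a b : ℕ × ℕ} (ha : a ∈ hArc B hd X Y) (hb : b ∈ hArc B hd X Y) :
    a = b := by
  rcases mem_hArc.1 ha with ⟨h1, h2⟩ | ⟨h1, h2⟩ <;> rcases mem_hArc.1 hb with ⟨h3, h4⟩ | ⟨h3, h4⟩
  · rw [h2, h4]
  · omega
  · omega
  · rw [h2, h4]

theorem vArc_unique {X Y : ℕ} {a b : ℕ × ℕ} (ha : a ∈ vArc B vd X Y) (hb : b ∈ vArc B vd X Y) :
    a = b := by
  rcases mem_vArc.1 ha with ⟨h1, h2⟩ | ⟨h1, h2⟩ <;> rcases mem_vArc.1 hb with ⟨h3, h4⟩ | ⟨h3, h4⟩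
  · rw [h2, h4]
  · omega
  · omega
  · rw [h2, h4]

theorem isPlaneDrawing (hb : Border A B hd vd) :
    IsPlaneDrawing (A * B) (gArcs A B hd vd) (gpos B) := by
  refine ⟨?_, ?_, ?_⟩
  · intro u _ v _ h
    unfold gpos at h
    simp only [Prod.mk.injEq, Nat.cast_inj] at h
    rw [← pid_div_mod (B := B) u, ← pid_div_mod (B := B) v, h.1, h.2]
  · intro a ha w _ hw
    by_contra hne
    push Not at hne
    have hinj : ∀ u v : ℕ, gpos B u = gpos B v → u = v := by
      intro u v h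
      unfold gpos at h
      simp only [Prod.mk.injEq, Nat.cast_inj] at h
      rw [← pid_div_mod (B := B) u, ← pid_div_mod (B := B) v, h.1, h.2]
    have hop : gpos B w ∈ openSegment ℝ (gpos B a.1) (gpos B a.2) :=
      mem_openSegment_of_ne_left_right (fun h => hne.1 (hinj _ _ h).symm)
        (fun h => hne.2 (hinj _ _ h).symm) hw
    obtain ⟨X, Y, ⟨_, h⟩ | ⟨_, h⟩⟩ := arc_points hb ha
    · obtain ⟨h1, h2, -⟩ := h _ hop
      exact not_between h1 h2
    · obtain ⟨-, h1, h2⟩ := h _ hop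
      exact not_between h1 h2
  · intro a ha b hb' hab
    rw [Set.disjoint_left]
    intro z hza hzb
    obtain ⟨X, Y, ⟨h1, h⟩ | ⟨h1, h⟩⟩ := arc_points hb ha
    · obtain ⟨X', Y', ⟨h1', h'⟩ | ⟨h1', h'⟩⟩ := arc_points hb hb'
      · obtain ⟨k1, k2, k3⟩ := h z hza
        obtain ⟨l1, l2, l3⟩ := h' z hzb
        have e1 : X = X' := eq_of_between k1 k2 l1 l2
        have e2 : Y = Y' := by
          have : (Y : ℝ) = Y' := by rw [← k3, ← l3]
          exact_mod_cast this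
        subst e1 e2
        exact hab (hArc_unique h1 h1')
      · obtain ⟨k1, k2, k3⟩ := h z hza
        obtain ⟨l1, l2, l3⟩ := h' z hzb
        rw [l1] at k1 k2
        exact not_between k1 k2
    · obtain ⟨X', Y', ⟨h1', h'⟩ | ⟨h1', h'⟩⟩ := arc_points hb hb'
      · obtain ⟨k1, k2, k3⟩ := h z hza
        obtain ⟨l1, l2, l3⟩ := h' z hzb
        rw [k1] at l1 l2
        exact not_between l1 l2
      · obtain ⟨k1, k2, k3⟩ := h z hza
        obtain ⟨l1, l2, l3⟩ := h' z hzb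
        have e1 : X = X' := by
          have : (X : ℝ) = X' := by rw [← k1, ← l1]
          exact_mod_cast this
        have e2 : Y = Y' := eq_of_between k2 k3 l2 l3
        subst e1 e2
        exact hab (vArc_unique h1 h1')

end Pool.Agent.H603R2.EP
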