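import Pool.Agent.H603R2.EP.SoundV
import Pool.Agent.H603R2.EP.Complete
import Pool.Agent.H603R2.EP.GridPlane
import Pool.Agent.NPC.Sat2

/-!
# The instance of a formula
-/

namespace Pool.Agent.H603R2.EP

open Pool.Agent.H673R2.Pdp Pool.Agent.NPC

abbrev Cls : Type := Lit ℕ × Lit ℕ × Lit ℕ

/-- the variant of the tile in which the column of a clause crosses the row of a variable -/
def vC (c : Cls) (i : ℕ) : ℕ :=
  if c.1.2 = i then (if c.1.1 = true then 2 else 1) else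
  if c.2.1.2 = i then (if c.2.1.1 = true then 4 else 3) else
  if c.2.2.2 = i then (if c.2.2.1 = true then 6 else 5) else 0

def vO : Option Cls → ℕ → ℕ
  | none, _ => 0
  | some c, i => vC c i

def vr (n : ℕ) (φ : List Cls) (bx b : ℕ) : ℕ := vO (φ[(bx - n - 2) / 2]?) (b - n - 1)

theorem vC_lt (c : Cls) (i : ℕ) : vC c i < 7 := by
  unfold vC
  split_ifs <;> omega

theorem vr_lt (n : ℕ) (φ : List Cls) (bx b : ℕ) : vr n φ bx b < 7 := by
  unfold vr
  cases φ[(bx - n - 2) / 2]? with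
  | none => exact Nat.zero_lt_succ _
  | some c => exact vC_lt c _

/-- width and height -/
def AA (n m : ℕ) : ℕ := 27 * (2 * n + 2 * m + 4)
def BB (n : ℕ) : ℕ := 24 * (2 * n + 3)

/-- the arcs -/
def arcs (n m : ℕ) (var : ℕ → ℕ → ℕ) : List (ℕ × ℕ) :=
  gArcs (AA n m) (BB n) (hdir n m var) (vdir n m var)

/-- the terminals -/
def terms (n m k : ℕ) : List (ℕ × ℕ) :=
  ((List.range 13).map fun ℓ => (pid (BB n) (rT n m ℓ).1 (rT n m ℓ).2,
    pid (BB n) (sT n m ℓ).1 (sT n m ℓ).2)) ++ List.replicate (k - 13) (0, 0)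

/-- the pairs of paths that must be disjoint -/
def FF : List (ℕ × ℕ) :=
  ((List.range 13).flatMap fun i => (List.range 13).map fun j => (i, j)).filter fun e =>
    decide (e.1 < e.2) && (enB e.1 e.2 || (decide (e.1 = 2) && decide (e.2 = 8)))

theorem enB_symm : ∀ i < 13, ∀ j < 13, enB i j = enB j i := by decide +kernel
theorem enB_irr : ∀ i < 13, enB i i = false := by decide +kernel

theorem mem_FF {i j : ℕ} : (i, j) ∈ FF ↔ i < 13 ∧ j < 13 ∧ i < j ∧ (enB i j = true ∨ (i = 2 ∧ j = 8)) := by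
  unfold FF
  rw [List.mem_filter, List.mem_flatMap]
  simp only [List.mem_range, List.mem_map, Prod.mk.injEq, Bool.and_eq_true, decide_eq_true_eq,
    Bool.or_eq_true]
  constructor
  · rintro ⟨⟨a, ha, b, hb, rfl, rfl⟩, h1, h2⟩
    exact ⟨ha, hb, h1, h2⟩
  · rintro ⟨h1, h2, h3, h4⟩
    exact ⟨⟨i, h1, j, h2, rfl, rfl⟩, h3, h4⟩

theorem terms_length {n m k : ℕ} (hk : 13 ≤ k) : (terms n m k).length = k := by
  unfold terms
  simp
  omega

theorem terms_getD {n m k ℓ : ℕ} (hℓ : ℓ < 13) : (terms n m k).getD ℓ (0, 0) =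
    (pid (BB n) (rT n m ℓ).1 (rT n m ℓ).2, pid (BB n) (sT n m ℓ).1 (sT n m ℓ).2) := by
  unfold terms
  rw [List.getD_append _ _ _ _ (by simpa using hℓ), List.getD_eq_getElem _ _ (by simpa using hℓ),
    List.getElem_map, List.getElem_range]

theorem terms_getD' {n m k ℓ : ℕ} (hℓ : 13 ≤ ℓ) : (terms n m k).getD ℓ (0, 0) = (0, 0) := by
  unfold terms
  rw [List.getD_append_right _ _ _ _ (by simpa using hℓ)]
  by_cases h : ℓ - ((List.range 13).map fun ℓ => (pid (BB n) (rT n m ℓ).1 (rT n m ℓ).2,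
    pid (BB n) (sT n m ℓ).1 (sT n m ℓ).2)).length < (List.replicate (k - 13) ((0 : ℕ), (0 : ℕ))).length
  · rw [List.getD_eq_getElem _ _ h, List.getElem_replicate]
  · rw [List.getD_eq_default _ _ (by omega)]

theorem ptOf_lt {n m : ℕ} (hn : 1 ≤ n) (e : ℕ × ℕ × ℕ) (he1 : e.2.1 < 27)
    (he2 : e.2.2 < 24) : (ptOf n m e).1 < AA n m ∧ (ptOf n m e).2 < BB n := by
  have h : (tpos n m e.1).1 < 2 * n + 2 * m + 4 ∧ (tpos n m e.1).2 < 2 * n + 3 := by
    unfold tpos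
    split_ifs <;> simp only <;> omega
  unfold ptOf AA BB
  simp only
  omega

theorem rT_box {n m ℓ : ℕ} (hn : 1 ≤ n) (hℓ : ℓ < 13) : (1 ≤ (rT n m ℓ).1 ∧ 1 ≤ (rT n m ℓ).2) ∧
    ((rT n m ℓ).1 < AA n m ∧ (rT n m ℓ).2 < BB n) := by
  obtain ⟨h1, h2, h3⟩ := src_ok ℓ hℓ
  have h4 := ptOf_ge (m := m) hn (srcK.getD ℓ (0, 0, 0))
  have h5 := ptOf_lt (m := m) hn (srcK.getD ℓ (0, 0, 0)) h2 h3
  unfold rT
  omega

theorem sT_box {n m ℓ : ℕ} (hn : 1 ≤ n) (hℓ : ℓ < 13) : (1 ≤ (sT n m ℓ).1 ∧ 1 ≤ (sT n m ℓ).2) ∧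
    ((sT n m ℓ).1 < AA n m ∧ (sT n m ℓ).2 < BB n) := by
  obtain ⟨h1, h2, h3⟩ := snk_ok ℓ hℓ
  have h4 := ptOf_ge (m := m) hn (snkK.getD ℓ (0, 0, 0))
  have h5 := ptOf_lt (m := m) hn (snkK.getD ℓ (0, 0, 0)) h2 h3
  unfold sT
  omega

theorem bord {n m : ℕ} {var : ℕ → ℕ → ℕ} (hn : 1 ≤ n) :
    Border (AA n m) (BB n) (hdir n m var) (vdir n m var) := border hn

/-! ### From a solution to an assignment -/

theorem ctx_of {n m k : ℕ} {var : ℕ → ℕ → ℕ} (hn : 1 ≤ n) (hm : 1 ≤ m)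
    (hv : ∀ bx b, var bx b < 7) (hk : 13 ≤ k) {P : List (List ℕ)}
    (hP : IsEdgeSolution (arcs n m var) (terms n m k) FF P) :
    Ctx n m var (fun ℓ => if ℓ < 13 then pF (BB n) (hdir n m var) (vdir n m var) (P.getD ℓ [])
      else fun _ _ _ => false) := by
  obtain ⟨_, h2, h3⟩ := hP
  have dis : ∀ i j, (i, j) ∈ FF → ∀ o X Y,
      pF (BB n) (hdir n m var) (vdir n m var) (P.getD i []) o X Y = true →
      pF (BB n) (hdir n m var) (vdir n m var) (P.getD j []) o X Y = true → False := by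
    intro i j hij o X Y hi hj
    have h4 := h3 (i, j) hij
    unfold pF at hi hj
    by_cases ho : o = 0
    · rw [if_pos ho, decide_eq_true_eq] at hi hj
      rcases hi with ⟨hi1, hi2⟩ | ⟨hi1, hi2⟩ <;> rcases hj with ⟨hj1, hj2⟩ | ⟨hj1, hj2⟩
      · exact h4 _ hi2 hj2
      · omega
      · omega
      · exact h4 _ hi2 hj2
    · rw [if_neg ho, decide_eq_true_eq] at hi hj
      rcases hi with ⟨hi1, hi2⟩ | ⟨hi1, hi2⟩ <;> rcases hj with ⟨hj1, hj2⟩ | ⟨hj1, hj2⟩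
      · exact h4 _ hi2 hj2
      · omega
      · omega
      · exact h4 _ hi2 hj2
  refine ⟨hn, hm, hv, ?_, ?_, ?_⟩
  · intro ℓ hℓ
    rw [if_pos hℓ]
    have h4 := h2 ℓ (by rw [terms_length hk]; omega)
    rw [terms_getD hℓ] at h4
    exact isFlow_pF (bord hn) (rT_box hn hℓ).2.2 (sT_box hn hℓ).2.2 h4
  · intro ℓ ℓ' o X Y hen h
    have l1 := enB_lt hen
    have l2 := enB_lt' hen
    rw [if_pos l1] at h
    rw [if_pos l2]
    rw [← Bool.not_eq_true]
    intro h'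
    rcases Nat.lt_trichotomy ℓ ℓ' with hlt | heq | hlt
    · exact dis ℓ ℓ' (mem_FF.2 ⟨l1, l2, hlt, Or.inl hen⟩) o X Y h h'
    · subst heq
      rw [enB_irr ℓ l1] at hen
      exact absurd hen (by decide)
    · refine dis ℓ' ℓ (mem_FF.2 ⟨l2, l1, hlt, Or.inl ?_⟩) o X Y h' h
      rw [enB_symm ℓ' l2 ℓ l1]
      exact hen
  · intro o X Y h
    rw [if_pos (by omega)] at h ⊢
    rw [← Bool.not_eq_true]
    intro h'
    exact dis 2 8 (mem_FF.2 ⟨by omega, by omega, by omega, Or.inr ⟨rfl, rfl⟩⟩) o X Y h h'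

theorem sat_of_sol {φ : List Cls} (hd : Distinct3 φ) (hb : Bounded3 φ) (hne : φ ≠ []) {k : ℕ}
    (hk : 13 ≤ k) {P : List (List ℕ)}
    (hP : IsEdgeSolution (arcs (3 * φ.length) φ.length (vr (3 * φ.length) φ))
      (terms (3 * φ.length) φ.length k) FF P) : SAT3 φ := by
  have hlen : 1 ≤ φ.length := List.length_pos_iff.2 hne
  obtain ⟨n, hn⟩ : ∃ n, 3 * φ.length = n := ⟨_, rfl⟩
  unfold Bounded3 at hb
  rw [hn] at hP hb
  obtain ⟨σ, hσ, h⟩ := sound (ctx_of (by omega) hlen (vr_lt n φ) hk hP)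
  refine ⟨fun i => decide (σ (n + 1 + i) = 0), ?_⟩
  intro c hc
  obtain ⟨j, hj, hjc⟩ := List.getElem_of_mem hc
  obtain ⟨t, ht, h1⟩ := h j hj
  obtain ⟨d1, d2, d3⟩ := hd c hc
  obtain ⟨b1, b2, b3⟩ := hb c hc
  have hvr : ∀ i, vr n φ (n + 2 + 2 * j) (n + 1 + i) = vC c i := by
    intro i
    unfold vr
    have e1 : (n + 2 + 2 * j - n - 2) / 2 = j := by omega
    have e2 : n + 1 + i - n - 1 = i := by omega
    rw [e1, e2, List.getElem?_eq_getElem hj, hjc]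
    rfl
  have key : ∀ i < n, ∀ sg : Bool, vC c i = (if sg = true then 2 else 1) + 2 * t →
      decide (σ (n + 1 + i) = 0) = sg := by
    intro i hi sg hs
    obtain ⟨h2, h3⟩ := h1 (n + 1 + i) (by omega) (by omega)
    rw [hvr i] at h2 h3
    cases sg
    · rw [if_neg (by decide)] at hs
      rw [h2 hs]
      rfl
    · rw [if_pos rfl] at hs
      rw [h3 hs]
      rfl
  interval_cases t
  · left
    refine key c.1.2 b1 c.1.1 ?_
    unfold vC
    rw [if_pos rfl, mul_zero, add_zero]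
  · right; left
    refine key c.2.1.2 b2 c.2.1.1 ?_
    unfold vC
    rw [if_neg d1, if_pos rfl]
    split_ifs <;> rfl
  · right; right
    refine key c.2.2.2 b3 c.2.2.1 ?_
    unfold vC
    rw [if_neg d2, if_neg d3, if_pos rfl]
    split_ifs <;> rfl

/-! ### From an assignment to a solution -/

/-- the track of the clause of a column that is satisfied -/
def rC (τ : ℕ → Bool) (c : Cls) : ℕ :=
  if τ c.1.2 = c.1.1 then 0 else if τ c.2.1.2 = c.2.1.1 then 1 else 2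

def rO (τ : ℕ → Bool) : Option Cls → ℕ
  | none => 0
  | some c => rC τ c

theorem rO_lt (τ : ℕ → Bool) (c : Option Cls) : rO τ c < 3 := by
  cases c with
  | none => exact Nat.zero_lt_succ _
  | some c =>
    unfold rO rC
    dsimp only
    split_ifs <;> omega

theorem qi_8 : ∀ σ < 2, ∀ ρ < 3, qi σ ρ 8 = 8 + ρ ∧ (qi σ ρ 2 = if σ = 0 then 2 else 3) := by
  decide +kernel

theorem bool1 : ∀ g1 t1 t2 g2 : Bool,
    (if ((if g1 = true then 2 else 1) - 1) % 2 = 0 then 2 else 3) = (if t1 = true then 2 else 3) →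
    (if t1 = g1 then 0 else if t2 = g2 then 1 else 2) = ((if g1 = true then 2 else 1) - 1) / 2 →
    False := by decide +kernel

theorem bool2 : ∀ g1 t1 t2 g2 : Bool,
    (if ((if g2 = true then 4 else 3) - 1) % 2 = 0 then 2 else 3) = (if t2 = true then 2 else 3) →
    (if t1 = g1 then 0 else if t2 = g2 then 1 else 2) = ((if g2 = true then 4 else 3) - 1) / 2 →
    False := by decide +kernel

theorem bool3 : ∀ g1 t1 t2 g2 t3 g3 : Bool, (t1 = g1 ∨ t2 = g2 ∨ t3 = g3) →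
    (if ((if g3 = true then 6 else 5) - 1) % 2 = 0 then 2 else 3) = (if t3 = true then 2 else 3) →
    (if t1 = g1 then 0 else if t2 = g2 then 1 else 2) = ((if g3 = true then 6 else 5) - 1) / 2 →
    False := by decide +kernel

theorem key_cl {τ : ℕ → Bool} {c : Cls}
    (hcl : τ c.1.2 = c.1.1 ∨ τ c.2.1.2 = c.2.1.1 ∨ τ c.2.2.2 = c.2.2.1) (i : ℕ)
    (h1 : (if (vC c i - 1) % 2 = 0 then 2 else 3) = (if τ i = true then 2 else 3))
    (h2 : rC τ c = (vC c i - 1) / 2) (h3 : vC c i ≠ 0) : False := by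
  obtain ⟨⟨g1, x1⟩, ⟨g2, x2⟩, ⟨g3, x3⟩⟩ := c
  unfold rC at h2
  unfold vC at h1 h2 h3
  dsimp only at *
  by_cases e1 : x1 = i
  · subst e1
    rw [if_pos rfl] at h1 h2
    exact bool1 _ _ _ _ h1 h2
  · by_cases e2 : x2 = i
    · subst e2
      rw [if_neg e1, if_pos rfl] at h1 h2
      exact bool2 _ _ _ _ h1 h2
    · by_cases e3 : x3 = i
      · subst e3
        rw [if_neg e1, if_neg e2, if_pos rfl] at h1 h2
        exact bool3 _ _ _ _ _ _ hcl h1 h2
      · rw [if_neg e1, if_neg e2, if_neg e3] at h3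
        exact h3 rfl

theorem dat_of {φ : List Cls} (hne : φ ≠ []) {τ : ℕ → Bool}
    (hτ : ∀ c ∈ φ, τ c.1.2 = c.1.1 ∨ τ c.2.1.2 = c.2.1.1 ∨ τ c.2.2.2 = c.2.2.1) {n : ℕ} (hn : 1 ≤ n) :
    Dat n φ.length (vr n φ) (fun b => if τ (b - n - 1) = true then 0 else 1)
      (fun bx => rO τ (φ[(bx - n - 2) / 2]?)) := by
  have hlen : 1 ≤ φ.length := List.length_pos_iff.2 hne
  refine ⟨hn, hlen, vr_lt n φ, ?_, fun bx => rO_lt _ _, ?_⟩
  · intro b
    split_ifs <;> omega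
  · intro bx b v hv hk
    have hv' : vr n φ bx b = v := by
      unfold KK at hk
      have := tileOf_lt (quad n φ.length bx b)
      split_ifs at hk with h1
      · omega
      · omega
    rintro ⟨h1, h2⟩
    have hs : (if τ (b - n - 1) = true then 0 else 1) < 2 := by split_ifs <;> omega
    obtain ⟨q1, q2⟩ := qi_8 _ hs _ (rO_lt τ (φ[(bx - n - 2) / 2]?))
    rw [q1] at h2
    rw [q2] at h1
    unfold vr at hv'
    revert hv' h2
    cases hc : φ[(bx - n - 2) / 2]? with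
    | none =>
      intro h4 _
      exact hv h4.symm
    | some c =>
      intro h4 h3
      have hcm : c ∈ φ := List.mem_of_getElem? hc
      have hcl := hτ c hcm
      change 8 + rC τ c = 8 + (v - 1) / 2 at h3
      change vC c (b - n - 1) = v at h4
      have h5 : rC τ c = (v - 1) / 2 := by omega
      subst h4
      refine key_cl hcl (b - n - 1) ?_ h5 hv
      rw [← h1]
      split_ifs <;> simp_all

theorem us_clash {hd vd : ℕ → ℕ → ℕ} {F F' : ℕ → ℕ → ℕ → Bool} {p q : ℕ × ℕ}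
    (h : Us hd vd F p q) (h' : Us hd vd F' p q) : ∃ o X Y, (o = 0 ∨ o = 1) ∧ F o X Y = true ∧
      F' o X Y = true := by
  obtain ⟨p1, p2⟩ := p
  obtain ⟨q1, q2⟩ := q
  unfold Us at h h'
  simp only [Prod.mk.injEq] at h h'
  rcases h with ⟨h1, _, h2⟩ | ⟨h1, _, h2⟩ | ⟨h1, _, h2⟩ | ⟨h1, _, h2⟩ <;>
    rcases h' with ⟨h3, _, h4⟩ | ⟨h3, _, h4⟩ | ⟨h3, _, h4⟩ | ⟨h3, _, h4⟩
  all_goals first | (exfalso; omega) | skip
  · exact ⟨0, p1, p2, Or.inl rfl, h2, h4⟩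
  · exact ⟨0, q1, q2, Or.inl rfl, h2, h4⟩
  · exact ⟨1, p1, p2, Or.inr rfl, h2, h4⟩
  · exact ⟨1, q1, q2, Or.inr rfl, h2, h4⟩

theorem sol_of_dat {n m : ℕ} {var : ℕ → ℕ → ℕ} {s r : ℕ → ℕ} (hd : Dat n m var s r) {k : ℕ}
    (hk : 13 ≤ k) : ∃ P, IsEdgeSolution (arcs n m var) (terms n m k) FF P := by
  have hb := bord (m := m) (var := var) hd.hn
  have hex : ∀ ℓ : ℕ, ∃ P : List ℕ, ℓ < 13 →
      IsDiPath (arcs n m var) (pid (BB n) (rT n m ℓ).1 (rT n m ℓ).2)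
        (pid (BB n) (sT n m ℓ).1 (sT n m ℓ).2) P ∧
      ∀ a ∈ pathArcs P, ∃ p q : ℕ × ℕ, Us (hdir n m var) (vdir n m var) (GF n m var s r ℓ) p q ∧
        a = (pid (BB n) p.1 p.2, pid (BB n) q.1 q.2) := by
    intro ℓ
    by_cases hℓ : ℓ < 13
    · obtain ⟨h1, h2⟩ := rT_box (m := m) hd.hn hℓ
      obtain ⟨P, hP⟩ := exists_path hb h1 h2 (gf_flow hd hℓ)
      exact ⟨P, fun _ => hP⟩
    · exact ⟨[], fun h => absurd h hℓ⟩
  choose Q hQ using hex
  have hget : ∀ ℓ < k, ((List.range k).map fun ℓ => if ℓ < 13 then Q ℓ else [0]).getD ℓ [] =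
      if ℓ < 13 then Q ℓ else [0] := by
    intro ℓ hℓ
    rw [List.getD_eq_getElem _ _ (by simpa using hℓ), List.getElem_map, List.getElem_range]
  refine ⟨(List.range k).map fun ℓ => if ℓ < 13 then Q ℓ else [0], ?_, ?_, ?_⟩
  · rw [terms_length hk]
    simp
  · intro ℓ hℓ
    rw [terms_length hk] at hℓ
    rw [hget ℓ hℓ]
    by_cases h : ℓ < 13
    · rw [if_pos h, terms_getD h]
      exact (hQ ℓ h).1
    · rw [if_neg h, terms_getD' (not_lt.1 h)]
      exact ⟨by simp, rfl, rfl, by simp⟩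
  · rintro ⟨i, j⟩ he a ha ha'
    obtain ⟨h1, h2, h3, h4⟩ := mem_FF.1 he
    rw [hget i (by omega), if_pos h1] at ha
    rw [hget j (by omega), if_pos h2] at ha'
    obtain ⟨p, q, hu, e1⟩ := (hQ i h1).2 a ha
    obtain ⟨p', q', hu', e2⟩ := (hQ j h2).2 a ha'
    obtain ⟨b1, b2, _⟩ := hu.ar.box hb
    obtain ⟨c1, c2, _⟩ := hu'.ar.box hb
    rw [e1, Prod.mk.injEq] at e2
    obtain ⟨g1, g2⟩ := pid_inj b1.2.2.2 c1.2.2.2 e2.1
    obtain ⟨g3, g4⟩ := pid_inj b2.2.2.2 c2.2.2.2 e2.2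
    have ep : p = p' := Prod.ext g1 g2
    have eq : q = q' := Prod.ext g3 g4
    subst ep eq
    obtain ⟨o, X, Y, ho, hF, hF'⟩ := us_clash hu hu'
    rcases h4 with h4 | ⟨rfl, rfl⟩
    · rw [gf_enm hd ho h4 hF] at hF'
      exact absurd hF' (by decide)
    · rw [gf_pq hd ho hF] at hF'
      exact absurd hF' (by decide)

/-- The reduction is correct. -/
theorem sol_iff {φ : List Cls} (hd : Distinct3 φ) (hb : Bounded3 φ) (hne : φ ≠ []) {k : ℕ}
    (hk : 13 ≤ k) : SAT3 φ ↔ ∃ P, IsEdgeSolution (arcs (3 * φ.length) φ.length (vr (3 * φ.length) φ))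
      (terms (3 * φ.length) φ.length k) FF P := by
  have hlen : 1 ≤ φ.length := List.length_pos_iff.2 hne
  constructor
  · rintro ⟨τ, hτ⟩
    exact sol_of_dat (dat_of hne hτ (by omega)) hk
  · rintro ⟨P, hP⟩
    exact sat_of_sol hd hb hne hk hP

end Pool.Agent.H603R2.EP
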