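import Pool.Agent.H603R2.EP.Red

/-!
# Hardness of the edge-disjoint partially disjoint paths problem
-/

namespace Pool.Agent.H603R2.EP

open Pool.Agent.NPC Pool.Agent.H673R2 Pool.Agent.H673R2.Pdp

theorem pid_lt {A B X Y : ℕ} (hX : X < A) (hY : Y < B) : pid B X Y < A * B := by
  unfold pid
  have h1 : X * B + B ≤ A * B := by
    have : (X + 1) * B ≤ A * B := Nat.mul_le_mul_right B hX
    linarith
  omega

theorem arcs_ok {n m : ℕ} {var : ℕ → ℕ → ℕ} (hn : 1 ≤ n) :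
    ∀ a ∈ arcs n m var, a.1 < AA n m * BB n ∧ a.2 < AA n m * BB n ∧ a.1 ≠ a.2 := by
  intro a ha
  obtain ⟨p, q, h1, h2, h3, h4, _, _, _, _, h, rfl⟩ := (mem_gArcs_iff (bord hn)).1 ha
  refine ⟨pid_lt h1 h2, pid_lt h3 h4, ?_⟩
  intro he
  obtain ⟨e1, e2⟩ := pid_inj h2 h4 he
  exact (h.box (bord hn)).2.2 (Prod.ext e1 e2)

theorem terms_ok {n m k : ℕ} (hn : 1 ≤ n) :
    ∀ t ∈ terms n m k, t.1 < AA n m * BB n ∧ t.2 < AA n m * BB n := by
  intro t ht
  unfold terms at ht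
  rw [List.mem_append] at ht
  rcases ht with ht | ht
  · rw [List.mem_map] at ht
    obtain ⟨ℓ, hℓ, rfl⟩ := ht
    rw [List.mem_range] at hℓ
    obtain ⟨_, h1, h2⟩ := rT_box (m := m) hn hℓ
    obtain ⟨_, h3, h4⟩ := sT_box (m := m) hn hℓ
    exact ⟨pid_lt h1 h2, pid_lt h3 h4⟩
  · rw [List.mem_replicate] at ht
    rw [ht.2]
    have h1 : 0 < AA n m * BB n := by
      unfold AA BB
      positivity
    exact ⟨h1, h1⟩

theorem FF_ok {k : ℕ} (hk : 13 ≤ k) : ∀ e ∈ FF, e.1 < k ∧ e.2 < k ∧ e.1 ≠ e.2 := by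
  rintro ⟨i, j⟩ he
  obtain ⟨h1, h2, h3, _⟩ := mem_FF.1 he
  exact ⟨by simp only; omega, by simp only; omega, by simp only; omega⟩

/-- If a problem is `NP`-hard and `P ≠ NP`, then no polynomial-time function decides it. -/
theorem no_decide {α : Type} [TEnc α] {Pr Q : α → Prop} (h : NPHardOn Pr Q) (hne : PneNP) :
    ¬ ∃ f : List Bool → List Bool, PolyTime f ∧ ∀ a, Pr a → (Q a ↔ f (bits a) = [true]) := by
  rintro ⟨f, hf, hs⟩
  obtain ⟨L, hL, hL'⟩ := hne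
  apply hL'
  obtain ⟨g, hg, hgp, hgL⟩ := h L hL
  exact ⟨fun x => f (bits (g x)),
    H642R2.TMSim.polyTime_comp (g := f) (f := fun x => bits (g x)) hf hg,
    fun x => (hgL x).trans (hs _ (hgp x))⟩

end Pool.Agent.H603R2.EP
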