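import Pool.Agent.H603R2.EP.GridFlow

/-!
# Paths and flows in grid digraphs, continued
-/

namespace Pool.Agent.H603R2.EP

open Pool.Agent.H673R2.Pdp

variable {A B : ℕ} {hd vd : ℕ → ℕ → ℕ}

theorem ci_zero {d : ℕ} {b : Bool} (h : d ≠ 1) : ci d b = 0 := by simp [ci, h]
theorem co_zero {d : ℕ} {b : Bool} (h : d ≠ 2) : co d b = 0 := by simp [co, h]

theorem ind_arith {p q : Prop} [Decidable p] [Decidable q] {a b : Prop} [Decidable a] [Decidable b]
    (hp : p ↔ b ∧ ¬ q) (hq : q ↔ a) (hab : a → b) :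
    (if p then 1 else 0) + (if a then 1 else 0) = if b then 1 else 0 := by
  by_cases a <;> by_cases b <;> simp_all

open Classical in
theorem isFlow_pF (hb : Border A B hd vd) {r s : ℕ × ℕ} (hr : r.2 < B) (hs : s.2 < B) {P : List ℕ}
    (hP : IsDiPath (gArcs A B hd vd) (pid B r.1 r.2) (pid B s.1 s.2) P) :
    IsFlow hd vd (pF B hd vd P) r s := by
  obtain ⟨hn, hh, hl, hc⟩ := hP
  have hPa := chain_arcs hc
  intro X Y hX hY
  by_cases hYB : Y < B
  · have key1 : inS hd vd (pF B hd vd P) X Y + (if (X, Y) = r then 1 else 0) =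
        if pid B X Y ∈ P then 1 else 0 := by
      rw [inS_pF hb hn hPa hX hY hYB]
      refine ind_arith (q := pid B X Y = pid B r.1 r.2) ?_ ?_ ?_
      · rw [pred_exists hn hh]
      · constructor
        · intro h
          obtain ⟨h1, h2⟩ := pid_inj hYB hr h
          rw [h1, h2]
        · intro h
          rw [← h]
      · intro h
        rw [show X = r.1 by rw [← h], show Y = r.2 by rw [← h]]
        exact List.mem_of_mem_head? hh
    have key2 : outS hd vd (pF B hd vd P) X Y + (if (X, Y) = s then 1 else 0) =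
        if pid B X Y ∈ P then 1 else 0 := by
      rw [outS_pF hb hn hPa hX hY hYB]
      refine ind_arith (q := pid B X Y = pid B s.1 s.2) ?_ ?_ ?_
      · rw [succ_exists hn hl]
      · constructor
        · intro h
          obtain ⟨h1, h2⟩ := pid_inj hYB hs h
          rw [h1, h2]
        · intro h
          rw [← h]
      · intro h
        rw [show X = s.1 by rw [← h], show Y = s.2 by rw [← h]]
        exact List.mem_of_mem_getLast? hl
    refine ⟨key1.trans key2.symm, ?_⟩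
    rw [key1]
    split_ifs <;> omega
  · have e1 : (X, Y) ≠ r := by
      rintro rfl
      exact hYB hr
    have e2 : (X, Y) ≠ s := by
      rintro rfl
      exact hYB hs
    have h1 : hd X Y ≠ 1 ∧ hd X Y ≠ 2 := by
      constructor <;> intro h
      · exact hYB (hb.1 X Y (Or.inl h)).2.2.2
      · exact hYB (hb.1 X Y (Or.inr h)).2.2.2
    have h2 : hd (X - 1) Y ≠ 1 ∧ hd (X - 1) Y ≠ 2 := by
      constructor <;> intro h
      · exact hYB (hb.1 _ Y (Or.inl h)).2.2.2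
      · exact hYB (hb.1 _ Y (Or.inr h)).2.2.2
    have h3 : vd X Y ≠ 1 ∧ vd X Y ≠ 2 := by
      constructor <;> intro h
      · have := (hb.2 X Y (Or.inl h)).2.2.2
        omega
      · have := (hb.2 X Y (Or.inr h)).2.2.2
        omega
    have h4 : vd X (Y - 1) ≠ 1 ∧ vd X (Y - 1) ≠ 2 := by
      constructor <;> intro h
      · have := (hb.2 X _ (Or.inl h)).2.2.2
        omega
      · have := (hb.2 X _ (Or.inr h)).2.2.2
        omega
    have h5 : inS hd vd (pF B hd vd P) X Y = 0 := by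
      unfold inS
      rw [ci_zero (by rw [Ne, sw_eq_one]; exact h1.2), ci_zero h2.1,
        ci_zero (by rw [Ne, sw_eq_one]; exact h3.2), ci_zero h4.1]
    have h6 : outS hd vd (pF B hd vd P) X Y = 0 := by
      unfold outS
      rw [co_zero (by rw [Ne, sw_eq_two]; exact h1.1), co_zero h2.2,
        co_zero (by rw [Ne, sw_eq_two]; exact h3.1), co_zero h4.2]
    rw [h5, h6, if_neg e1, if_neg e2]
    omega

/-- the arc `p → q` is used by the flow -/
def Us (hd vd : ℕ → ℕ → ℕ) (F : ℕ → ℕ → ℕ → Bool) (p q : ℕ × ℕ) : Prop :=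
  (q = (p.1 + 1, p.2) ∧ hd p.1 p.2 = 1 ∧ F 0 p.1 p.2 = true) ∨
  (p = (q.1 + 1, q.2) ∧ hd q.1 q.2 = 2 ∧ F 0 q.1 q.2 = true) ∨
  (q = (p.1, p.2 + 1) ∧ vd p.1 p.2 = 1 ∧ F 1 p.1 p.2 = true) ∨
  (p = (q.1, q.2 + 1) ∧ vd q.1 q.2 = 2 ∧ F 1 q.1 q.2 = true)

theorem Us.ar {F : ℕ → ℕ → ℕ → Bool} {p q : ℕ × ℕ} (h : Us hd vd F p q) : Ar hd vd p q := by
  rcases h with ⟨h, h1, _⟩ | ⟨h, h1, _⟩ | ⟨h, h1, _⟩ | ⟨h, h1, _⟩
  · exact Or.inl ⟨h, h1⟩
  · exact Or.inr (Or.inl ⟨h, h1⟩)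
  · exact Or.inr (Or.inr (Or.inl ⟨h, h1⟩))
  · exact Or.inr (Or.inr (Or.inr ⟨h, h1⟩))

theorem Ar.box (hb : Border A B hd vd) {p q : ℕ × ℕ} (h : Ar hd vd p q) :
    (1 ≤ p.1 ∧ 1 ≤ p.2 ∧ p.1 < A ∧ p.2 < B) ∧ (1 ≤ q.1 ∧ 1 ≤ q.2 ∧ q.1 < A ∧ q.2 < B) ∧ p ≠ q := by
  obtain ⟨p1, p2⟩ := p
  obtain ⟨q1, q2⟩ := q
  rcases h with ⟨h, h1⟩ | ⟨h, h1⟩ | ⟨h, h1⟩ | ⟨h, h1⟩
  · have := hb.1 _ _ (Or.inl h1)
    simp only [Prod.mk.injEq] at h this ⊢
    simp only [Ne, Prod.mk.injEq]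
    omega
  · have := hb.1 _ _ (Or.inr h1)
    simp only [Prod.mk.injEq] at h this ⊢
    simp only [Ne, Prod.mk.injEq]
    omega
  · have := hb.2 _ _ (Or.inl h1)
    simp only [Prod.mk.injEq] at h this ⊢
    simp only [Ne, Prod.mk.injEq]
    omega
  · have := hb.2 _ _ (Or.inr h1)
    simp only [Prod.mk.injEq] at h this ⊢
    simp only [Ne, Prod.mk.injEq]
    omega

variable {F : ℕ → ℕ → ℕ → Bool}

/-- the four possible used arcs into a vertex -/
theorem us_in {p : ℕ × ℕ} {X Y : ℕ} (h : Us hd vd F p (X, Y)) :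
    (p = (X - 1, Y) ∧ 1 ≤ X ∧ ci (hd (X - 1) Y) (F 0 (X - 1) Y) = 1) ∨
    (p = (X + 1, Y) ∧ ci (sw (hd X Y)) (F 0 X Y) = 1) ∨
    (p = (X, Y - 1) ∧ 1 ≤ Y ∧ ci (vd X (Y - 1)) (F 1 X (Y - 1)) = 1) ∨
    (p = (X, Y + 1) ∧ ci (sw (vd X Y)) (F 1 X Y) = 1) := by
  obtain ⟨p1, p2⟩ := p
  rcases h with ⟨h, h1, h2⟩ | ⟨h, h1, h2⟩ | ⟨h, h1, h2⟩ | ⟨h, h1, h2⟩
  · simp only [Prod.mk.injEq] at h h1 h2
    obtain ⟨rfl, rfl⟩ := h
    left
    simp [ci, h1, h2]
  · simp only [Prod.mk.injEq] at h h1 h2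
    obtain ⟨rfl, rfl⟩ := h
    right; left
    have : sw (hd X p2) = 1 := sw_eq_one.2 h1
    simp [ci, this, h2]
  · simp only [Prod.mk.injEq] at h h1 h2
    obtain ⟨rfl, rfl⟩ := h
    right; right; left
    simp [ci, h1, h2]
  · simp only [Prod.mk.injEq] at h h1 h2
    obtain ⟨rfl, rfl⟩ := h
    right; right; right
    have : sw (vd p1 Y) = 1 := sw_eq_one.2 h1
    simp [ci, this, h2]

theorem us_in_pos {p : ℕ × ℕ} {X Y : ℕ} (h : Us hd vd F p (X, Y)) : 1 ≤ inS hd vd F X Y := by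
  unfold inS
  rcases us_in h with h | h | h | h <;> omega

theorem us_in_unique {p q : ℕ × ℕ} {X Y : ℕ} (h : Us hd vd F p (X, Y)) (h' : Us hd vd F q (X, Y))
    (hle : inS hd vd F X Y ≤ 1) : p = q := by
  unfold inS at hle
  rcases us_in h with h | h | h | h <;> rcases us_in h' with h' | h' | h' | h' <;>
    first
    | exact h.1.trans h'.1.symm
    | omega

theorem us_out {X Y : ℕ} (hX : 1 ≤ X) (hY : 1 ≤ Y) (h : 1 ≤ outS hd vd F X Y) :
    ∃ q, Us hd vd F (X, Y) q := by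
  unfold outS at h
  have hco : ∀ {d : ℕ} {b : Bool}, co d b ≠ 0 → d = 2 ∧ b = true := by
    intro d b h
    unfold co at h
    split_ifs at h with h1
    · refine ⟨h1, ?_⟩
      cases b
      · simp at h
      · rfl
    · exact absurd rfl h
  by_cases h1 : co (sw (hd X Y)) (F 0 X Y) ≠ 0
  · obtain ⟨h1, h2⟩ := hco h1
    exact ⟨(X + 1, Y), Or.inl ⟨rfl, sw_eq_two.1 h1, h2⟩⟩
  by_cases h2 : co (hd (X - 1) Y) (F 0 (X - 1) Y) ≠ 0
  · obtain ⟨h1, h2⟩ := hco h2
    refine ⟨(X - 1, Y), Or.inr (Or.inl ⟨?_, h1, h2⟩)⟩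
    simp only [Prod.mk.injEq, and_true]
    omega
  by_cases h3 : co (sw (vd X Y)) (F 1 X Y) ≠ 0
  · obtain ⟨h1, h2⟩ := hco h3
    exact ⟨(X, Y + 1), Or.inr (Or.inr (Or.inl ⟨rfl, sw_eq_two.1 h1, h2⟩))⟩
  by_cases h4 : co (vd X (Y - 1)) (F 1 X (Y - 1)) ≠ 0
  · obtain ⟨h1, h2⟩ := hco h4
    refine ⟨(X, Y - 1), Or.inr (Or.inr (Or.inr ⟨?_, h1, h2⟩))⟩
    simp only [Prod.mk.injEq, true_and]
    omega
  omega

/-- one step of the walk: a reversed path that has not reached `s` can be prolonged -/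
theorem extend (hb : Border A B hd vd) {r s : ℕ × ℕ} (hr : 1 ≤ r.1 ∧ 1 ≤ r.2)
    (hF : IsFlow hd vd F r s) {L : List (ℕ × ℕ)} {v : ℕ × ℕ} (hn : (v :: L).Nodup)
    (hl : (v :: L).getLast? = some r) (hc : (v :: L).IsChain (fun a b => Us hd vd F b a))
    (hv : v ≠ s) : ∃ w, w ∉ v :: L ∧ Us hd vd F v w := by
  have hbox : 1 ≤ v.1 ∧ 1 ≤ v.2 := by
    rcases L with _ | ⟨w, L⟩
    · simp only [List.getLast?_singleton, Option.some.injEq] at hl
      rw [hl]
      exact hr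
    · rw [List.isChain_cons_cons] at hc
      have := (hc.1.ar.box hb).2.1
      exact ⟨this.1, this.2.1⟩
  obtain ⟨h1, h2⟩ := hF v.1 v.2 hbox.1 hbox.2
  have hvs : (v.1, v.2) ≠ s := hv
  rw [if_neg hvs] at h1
  have hout : 1 ≤ outS hd vd F v.1 v.2 := by
    rcases L with _ | ⟨w, L⟩
    · simp only [List.getLast?_singleton, Option.some.injEq] at hl
      have : (v.1, v.2) = r := hl
      rw [if_pos this] at h1
      omega
    · rw [List.isChain_cons_cons] at hc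
      have := us_in_pos (X := v.1) (Y := v.2) hc.1
      omega
  obtain ⟨w, hw⟩ := us_out hbox.1 hbox.2 hout
  refine ⟨w, ?_, hw⟩
  intro hmem
  have hwb := (hw.ar.box hb).2.1
  obtain ⟨h3, h4⟩ := hF w.1 w.2 hwb.1 hwb.2.1
  have hne : v ≠ w := (hw.ar.box hb).2.2
  rw [List.mem_iff_getElem] at hmem
  obtain ⟨i, hi, hiw⟩ := hmem
  by_cases hlast : i + 1 < (v :: L).length
  · have := (List.isChain_iff_getElem.1 hc) i hlast
    rw [hiw] at this
    have h5 := us_in_unique (X := w.1) (Y := w.2) this hw (by omega)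
    have h6 : (v :: L)[i + 1] = (v :: L)[0] := h5
    have := (List.Nodup.getElem_inj_iff hn).1 h6
    omega
  · have h7 : (v :: L).getLast? = some w := by
      rw [List.getLast?_eq_getElem?, ← hiw, ← List.getElem?_eq_getElem hi]
      congr 1
      omega
    rw [hl] at h7
    have h8 : r = w := Option.some.inj h7
    have : (w.1, w.2) = r := h8.symm
    rw [if_pos this] at h4
    have := us_in_pos (X := w.1) (Y := w.2) hw
    omega

theorem exists_rev_path (hb : Border A B hd vd) {r s : ℕ × ℕ} (hr : 1 ≤ r.1 ∧ 1 ≤ r.2)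
    (hrb : r.1 < A ∧ r.2 < B)
    (hF : IsFlow hd vd F r s) : ∃ L : List (ℕ × ℕ), L.Nodup ∧ L.getLast? = some r ∧
      L.head? = some s ∧ L.IsChain (fun a b => Us hd vd F b a) ∧ ∀ p ∈ L, p.1 < A ∧ p.2 < B := by
  by_contra hcon
  have key : ∀ n : ℕ, ∃ (L : List (ℕ × ℕ)) (v : ℕ × ℕ), L.length = n ∧ (v :: L).Nodup ∧
      (v :: L).getLast? = some r ∧ (v :: L).IsChain (fun a b => Us hd vd F b a) ∧
      ∀ p ∈ v :: L, p.1 < A ∧ p.2 < B := by
    intro n
    induction n with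
    | zero =>
      refine ⟨[], r, rfl, by simp, by simp, by simp, ?_⟩
      intro p hp
      simp only [List.mem_singleton] at hp
      rw [hp]
      exact hrb
    | succ n ih =>
      obtain ⟨L, v, h1, h2, h3, h4, h5⟩ := ih
      have hv : v ≠ s := by
        rintro rfl
        exact hcon ⟨v :: L, h2, h3, rfl, h4, h5⟩
      obtain ⟨w, hw, hU⟩ := extend hb hr hF h2 h3 h4 hv
      refine ⟨v :: L, w, by simp [h1], List.nodup_cons.2 ⟨hw, h2⟩, ?_, ?_, ?_⟩
      · rw [List.getLast?_cons_cons]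
        exact h3
      · rw [List.isChain_cons_cons]
        exact ⟨hU, h4⟩
      · intro p hp
        rcases List.mem_cons.1 hp with rfl | hp
        · have := (hU.ar.box hb).2.1
          exact ⟨this.2.2.1, this.2.2.2⟩
        · exact h5 p hp
  obtain ⟨L, v, h1, h2, -, -, h5⟩ := key (A * B)
  have h6 : ((v :: L).map fun p => pid B p.1 p.2).Nodup := by
    refine List.Nodup.map_on ?_ h2
    intro p hp q hq hpq
    have := pid_inj (h5 p hp).2 (h5 q hq).2 hpq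
    exact Prod.ext this.1 this.2
  have h7 : ∀ a ∈ ((v :: L).map fun p => pid B p.1 p.2), a < A * B := by
    intro a ha
    rw [List.mem_map] at ha
    obtain ⟨p, hp, rfl⟩ := ha
    obtain ⟨h8, h9⟩ := h5 p hp
    unfold pid
    have : (p.1 + 1) * B ≤ A * B := Nat.mul_le_mul_right B h8
    have h10 : (p.1 + 1) * B = p.1 * B + B := by ring
    omega
  have h8 : ((v :: L).map fun p => pid B p.1 p.2).length ≤ A * B := by
    have := List.Subperm.length_le
      (List.subperm_of_subset h6 (l₂ := List.range (A * B)) fun a ha => List.mem_range.2 (h7 a ha))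
    simpa using this
  simp only [List.length_map, List.length_cons] at h8
  omega

theorem Us.mem (hb : Border A B hd vd) {p q : ℕ × ℕ} (h : Us hd vd F p q) :
    (pid B p.1 p.2, pid B q.1 q.2) ∈ gArcs A B hd vd := by
  obtain ⟨h1, h2, _⟩ := h.ar.box hb
  exact (mem_gArcs_iff hb).2 ⟨p, q, h1.2.2.1, h1.2.2.2, h2.2.2.1, h2.2.2.2, h1.1, h1.2.1, h2.1,
    h2.2.1, h.ar, rfl⟩

/-- a flow contains a path -/
theorem exists_path (hb : Border A B hd vd) {r s : ℕ × ℕ} (hr : 1 ≤ r.1 ∧ 1 ≤ r.2)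
    (hrb : r.1 < A ∧ r.2 < B) (hF : IsFlow hd vd F r s) :
    ∃ P : List ℕ, IsDiPath (gArcs A B hd vd) (pid B r.1 r.2) (pid B s.1 s.2) P ∧
      ∀ a ∈ pathArcs P, ∃ p q : ℕ × ℕ, Us hd vd F p q ∧ a = (pid B p.1 p.2, pid B q.1 q.2) := by
  obtain ⟨L, h1, h2, h3, h4, h5⟩ := exists_rev_path hb hr hrb hF
  have hch : (L.reverse.map fun p => pid B p.1 p.2).IsChain
      (fun a b => ∃ p q : ℕ × ℕ, Us hd vd F p q ∧ a = pid B p.1 p.2 ∧ b = pid B q.1 q.2) := by
    rw [List.isChain_map, List.isChain_reverse]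
    exact h4.imp fun a b h => ⟨b, a, h, rfl, rfl⟩
  refine ⟨L.reverse.map fun p => pid B p.1 p.2, ⟨?_, ?_, ?_, ?_⟩, ?_⟩
  · refine List.Nodup.map_on ?_ (List.nodup_reverse.2 h1)
    intro p hp q hq hpq
    have := pid_inj (h5 p (List.mem_reverse.1 hp)).2 (h5 q (List.mem_reverse.1 hq)).2 hpq
    exact Prod.ext this.1 this.2
  · rw [List.head?_map, List.head?_reverse, h2]
    rfl
  · rw [List.getLast?_map, List.getLast?_reverse, h3]
    rfl
  · refine hch.imp ?_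
    rintro a b ⟨p, q, h, rfl, rfl⟩
    exact h.mem hb
  · rintro ⟨a, b⟩ hab
    obtain ⟨i, hi, hi'⟩ := mem_pathArcs.1 hab
    obtain ⟨h6, h6'⟩ := List.getElem?_eq_some_iff.1 hi
    obtain ⟨h7, h7'⟩ := List.getElem?_eq_some_iff.1 hi'
    obtain ⟨p, q, h, e1, e2⟩ := (List.isChain_iff_getElem.1 hch) i h7
    refine ⟨p, q, h, ?_⟩
    rw [h6'] at e1
    rw [h7'] at e2
    rw [e1, e2]

end Pool.Agent.H603R2.EP
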