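import Pool.Agent.H603R2.EP.Layout
import Pool.Agent.H603R2.EP.GridPath

/-!
# The digraph of the layout, and its restriction to a tile
-/

namespace Pool.Agent.H603R2.EP

/-- the tile at `(bx, b)` -/
def KK (n m : ℕ) (var : ℕ → ℕ → ℕ) (bx b : ℕ) : ℕ :=
  if tileOf (quad n m bx b) = 22 then 22 + var bx b else tileOf (quad n m bx b)

def hdir (n m : ℕ) (var : ℕ → ℕ → ℕ) (X Y : ℕ) : ℕ :=
  dir (DHt (KK n m var (X / 27) (Y / 24))) (X % 27 + 1) (Y % 24 + 1)

def vdir (n m : ℕ) (var : ℕ → ℕ → ℕ) (X Y : ℕ) : ℕ :=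
  dir (DVt (KK n m var (X / 27) (Y / 24))) (X % 27 + 1) (Y % 24 + 1)

def sigChk (k : ℕ) : Bool :=
  ((List.range 24).all fun y => Nat.beq (dir (DHt k) 0 (y + 1)) (dir COLT (sig k).1 (y + 1)) &&
    Nat.beq (dir (DHt k) 27 (y + 1)) (dir COLT (sig k).2.1 (y + 1))) &&
  ((List.range 27).all fun x => Nat.beq (dir (DVt k) (x + 1) 0) (dir ROWT (sig k).2.2.1 (x + 1)) &&
    Nat.beq (dir (DVt k) (x + 1) 24) (dir ROWT (sig k).2.2.2 (x + 1)))

theorem sigChk_all : ((List.range 29).all sigChk) = true := by decide +kernel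

theorem sigChk_spec {k : ℕ} (hk : k < 29) :
    (∀ y, 1 ≤ y → y ≤ 24 → dir (DHt k) 0 y = dir COLT (sig k).1 y ∧
      dir (DHt k) 27 y = dir COLT (sig k).2.1 y) ∧
    (∀ x, 1 ≤ x → x ≤ 27 → dir (DVt k) x 0 = dir ROWT (sig k).2.2.1 x ∧
      dir (DVt k) x 24 = dir ROWT (sig k).2.2.2 x) := by
  have h := List.all_eq_true.1 sigChk_all k (List.mem_range.2 hk)
  unfold sigChk at h
  rw [Bool.and_eq_true, List.all_eq_true, List.all_eq_true] at h
  constructor
  · intro y h1 h2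
    have := h.1 (y - 1) (List.mem_range.2 (by omega))
    rw [Bool.and_eq_true, Nat.beq_eq, Nat.beq_eq, Nat.sub_add_cancel h1] at this
    exact this
  · intro x h1 h2
    have := h.2 (x - 1) (List.mem_range.2 (by omega))
    rw [Bool.and_eq_true, Nat.beq_eq, Nat.beq_eq, Nat.sub_add_cancel h1] at this
    exact this

theorem tileOf_lt (q : ℕ × ℕ × ℕ × ℕ) : tileOf q < 23 := by
  unfold tileOf
  split
  · omega
  · rename_i s hs
    have h1 := List.mem_of_mem_head? hs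
    rw [List.mem_filter] at h1
    have h2 : ∀ s ∈ SIGI, s.2 < 23 := by decide +kernel
    exact h2 s h1.1

theorem sig_var : ∀ v < 7, sig (22 + v) = sig 22 := by decide +kernel

theorem KK_lt {n m : ℕ} {var : ℕ → ℕ → ℕ} (hv : ∀ bx b, var bx b < 7) (bx b : ℕ) :
    KK n m var bx b < 29 := by
  unfold KK
  have := tileOf_lt (quad n m bx b)
  have := hv bx b
  split_ifs <;> omega

theorem sig_KK {n m : ℕ} {var : ℕ → ℕ → ℕ} (hn : 1 ≤ n) (hm : 1 ≤ m) (hv : ∀ bx b, var bx b < 7)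
    (bx b : ℕ) : sig (KK n m var bx b) = quad n m bx b := by
  have h := quad_valid hn hm bx b
  unfold KK
  split_ifs with h1
  · rw [sig_var _ (hv bx b), ← h1]
    exact h
  · exact h

/-- `KK` in terms of the boundary types -/
theorem KK_of_quad {n m : ℕ} {var : ℕ → ℕ → ℕ} {bx b k : ℕ} (hk : k < 22)
    (h : tileOf (quad n m bx b) = k) : KK n m var bx b = k := by
  unfold KK
  rw [if_neg (by omega)]
  exact h

theorem quad_zero {n m bx b : ℕ} (hn : 1 ≤ n)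
    (h : bx = 0 ∨ 2 * n + 2 * m + 3 ≤ bx ∨ b = 0 ∨ 2 * n + 2 ≤ b) :
    quad n m bx b = (0, 0, 0, 0) := by
  have h1 : sL n m bx b = 0 := by
    unfold sL
    rcases h with h | h | h | h <;> split_ifs <;> omega
  have h2 : sL n m (bx + 1) b = 0 := by
    unfold sL
    rcases h with h | h | h | h <;> split_ifs <;> omega
  have h3 : sB n m bx b = 0 := by
    unfold sB
    rcases h with h | h | h | h <;> split_ifs <;> omega
  have h4 : sB n m bx (b + 1) = 0 := by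
    unfold sB
    rcases h with h | h | h | h <;> split_ifs <;> omega
  unfold quad
  rw [h1, h2, h3, h4]

theorem KK_zero {n m bx b : ℕ} {var : ℕ → ℕ → ℕ} (hn : 1 ≤ n)
    (h : bx = 0 ∨ 2 * n + 2 * m + 3 ≤ bx ∨ b = 0 ∨ 2 * n + 2 ≤ b) : KK n m var bx b = 0 := by
  have h1 : tileOf (quad n m bx b) = 0 := by
    rw [quad_zero hn h]
    decide +kernel
  exact KK_of_quad (by omega) h1

theorem dir_zero (x y : ℕ) : dir 0 x y = 0 := by
  unfold dir
  simp

theorem DH0 : DHt 0 = 0 := by decide +kernel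
theorem DV0 : DVt 0 = 0 := by decide +kernel

theorem border {n m : ℕ} {var : ℕ → ℕ → ℕ} (hn : 1 ≤ n) :
    Border (27 * (2 * n + 2 * m + 4)) (24 * (2 * n + 3)) (hdir n m var) (vdir n m var) := by
  constructor
  · intro X Y h
    have h1 : ¬ (X / 27 = 0 ∨ 2 * n + 2 * m + 3 ≤ X / 27 ∨ Y / 24 = 0 ∨ 2 * n + 2 ≤ Y / 24) := by
      intro h2
      unfold hdir at h
      rw [KK_zero hn h2, DH0, dir_zero] at h
      omega
    omega
  · intro X Y h
    have h1 : ¬ (X / 27 = 0 ∨ 2 * n + 2 * m + 3 ≤ X / 27 ∨ Y / 24 = 0 ∨ 2 * n + 2 ≤ Y / 24) := by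
      intro h2
      unfold vdir at h
      rw [KK_zero hn h2, DV0, dir_zero] at h
      omega
    omega

theorem frame_h {n m : ℕ} {var : ℕ → ℕ → ℕ} (hn : 1 ≤ n) (hm : 1 ≤ m) (hv : ∀ bx b, var bx b < 7)
    {bx b : ℕ} (hbx : 1 ≤ bx) (hb : 1 ≤ b) {x y : ℕ} (hx : x ≤ 27) (hy1 : 1 ≤ y) (hy : y ≤ 24) :
    hdir n m var (27 * bx - 1 + x) (24 * b - 1 + y) = dir (DHt (KK n m var bx b)) x y := by
  unfold hdir
  have e1 : (24 * b - 1 + y) / 24 = b := by omega
  have e2 : (24 * b - 1 + y) % 24 + 1 = y := by omega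
  rw [e1, e2]
  rcases Nat.eq_zero_or_pos x with h0 | h0
  · subst h0
    have e3 : (27 * bx - 1 + 0) / 27 = bx - 1 := by omega
    have e4 : (27 * bx - 1 + 0) % 27 + 1 = 27 := by omega
    rw [e3, e4, ((sigChk_spec (KK_lt hv (bx - 1) b)).1 y hy1 hy).2,
      ((sigChk_spec (KK_lt hv bx b)).1 y hy1 hy).1, sig_KK hn hm hv, sig_KK hn hm hv]
    unfold quad
    rw [Nat.sub_add_cancel hbx]
  · have e3 : (27 * bx - 1 + x) / 27 = bx := by omega
    have e4 : (27 * bx - 1 + x) % 27 + 1 = x := by omega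
    rw [e3, e4]

theorem frame_v {n m : ℕ} {var : ℕ → ℕ → ℕ} (hn : 1 ≤ n) (hm : 1 ≤ m) (hv : ∀ bx b, var bx b < 7)
    {bx b : ℕ} (hbx : 1 ≤ bx) (hb : 1 ≤ b) {x y : ℕ} (hx1 : 1 ≤ x) (hx : x ≤ 27) (hy : y ≤ 24) :
    vdir n m var (27 * bx - 1 + x) (24 * b - 1 + y) = dir (DVt (KK n m var bx b)) x y := by
  unfold vdir
  have e1 : (27 * bx - 1 + x) / 27 = bx := by omega
  have e2 : (27 * bx - 1 + x) % 27 + 1 = x := by omega
  rw [e1, e2]
  rcases Nat.eq_zero_or_pos y with h0 | h0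
  · subst h0
    have e3 : (24 * b - 1 + 0) / 24 = b - 1 := by omega
    have e4 : (24 * b - 1 + 0) % 24 + 1 = 24 := by omega
    rw [e3, e4, ((sigChk_spec (KK_lt hv bx (b - 1))).2 x hx1 hx).2,
      ((sigChk_spec (KK_lt hv bx b)).2 x hx1 hx).1, sig_KK hn hm hv, sig_KK hn hm hv]
    unfold quad
    rw [Nat.sub_add_cancel hb]
  · have e3 : (24 * b - 1 + y) / 24 = b := by omega
    have e4 : (24 * b - 1 + y) % 24 + 1 = y := by omega
    rw [e3, e4]

end Pool.Agent.H603R2.EP
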