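import Pool.Agent.H603R2.EP.Defs

/-!
# Digraphs drawn in the grid
-/

namespace Pool.Agent.H603R2.EP

open Pool.Agent.H673R2.Pdp

/-- number of a grid point -/
def pid (B X Y : ℕ) : ℕ := X * B + Y

/-- swap the direction codes 1 and 2 -/
def sw (d : ℕ) : ℕ := bif Nat.beq d 1 then 2 else (bif Nat.beq d 2 then 1 else 0)

theorem sw_def (d : ℕ) : sw d = if d = 1 then 2 else if d = 2 then 1 else 0 := by
  unfold sw
  simp only [Bool.cond_eq_ite, Nat.beq_eq]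

theorem sw_eq_one {d : ℕ} : sw d = 1 ↔ d = 2 := by
  rw [sw_def]; split_ifs <;> simp_all

theorem sw_eq_two {d : ℕ} : sw d = 2 ↔ d = 1 := by
  rw [sw_def]; split_ifs <;> simp_all

def hArc (B : ℕ) (hd : ℕ → ℕ → ℕ) (X Y : ℕ) : List (ℕ × ℕ) :=
  if hd X Y = 1 then [(pid B X Y, pid B (X + 1) Y)]
  else if hd X Y = 2 then [(pid B (X + 1) Y, pid B X Y)] else []

def vArc (B : ℕ) (vd : ℕ → ℕ → ℕ) (X Y : ℕ) : List (ℕ × ℕ) :=
  if vd X Y = 1 then [(pid B X Y, pid B X (Y + 1))]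
  else if vd X Y = 2 then [(pid B X (Y + 1), pid B X Y)] else []

/-- the arcs of the grid digraph given by the directions `hd`, `vd` -/
def gArcs (A B : ℕ) (hd vd : ℕ → ℕ → ℕ) : List (ℕ × ℕ) :=
  (List.range A).flatMap fun X => (List.range B).flatMap fun Y => hArc B hd X Y ++ vArc B vd X Y

/-- the arc `p → q` is present -/
def Ar (hd vd : ℕ → ℕ → ℕ) (p q : ℕ × ℕ) : Prop :=
  (q = (p.1 + 1, p.2) ∧ hd p.1 p.2 = 1) ∨ (p = (q.1 + 1, q.2) ∧ hd q.1 q.2 = 2) ∨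
  (q = (p.1, p.2 + 1) ∧ vd p.1 p.2 = 1) ∨ (p = (q.1, q.2 + 1) ∧ vd q.1 q.2 = 2)

/-- no arcs leave the box -/
def Border (A B : ℕ) (hd vd : ℕ → ℕ → ℕ) : Prop :=
  (∀ X Y, (hd X Y = 1 ∨ hd X Y = 2) → 1 ≤ X ∧ 1 ≤ Y ∧ X + 1 < A ∧ Y < B) ∧
  (∀ X Y, (vd X Y = 1 ∨ vd X Y = 2) → 1 ≤ X ∧ 1 ≤ Y ∧ X < A ∧ Y + 1 < B)

theorem pid_inj {B X Y X' Y' : ℕ} (hY : Y < B) (hY' : Y' < B) (h : pid B X Y = pid B X' Y') :
    X = X' ∧ Y = Y' := by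
  unfold pid at h
  have hB : 0 < B := by omega
  have h1 : (X * B + Y) / B = X := by
    rw [mul_comm, Nat.mul_add_div hB, Nat.div_eq_of_lt hY, add_zero]
  have h2 : (X' * B + Y') / B = X' := by
    rw [mul_comm, Nat.mul_add_div hB, Nat.div_eq_of_lt hY', add_zero]
  have h3 : X = X' := by rw [← h1, ← h2, h]
  subst h3
  exact ⟨rfl, by omega⟩

theorem mem_gArcs {A B : ℕ} {hd vd : ℕ → ℕ → ℕ} {a : ℕ × ℕ} :
    a ∈ gArcs A B hd vd ↔ ∃ X < A, ∃ Y < B, a ∈ hArc B hd X Y ∨ a ∈ vArc B vd X Y := by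
  unfold gArcs
  simp only [List.mem_flatMap, List.mem_range, List.mem_append]

theorem mem_hArc {B : ℕ} {hd : ℕ → ℕ → ℕ} {X Y : ℕ} {a : ℕ × ℕ} : a ∈ hArc B hd X Y ↔
    (hd X Y = 1 ∧ a = (pid B X Y, pid B (X + 1) Y)) ∨
      (hd X Y = 2 ∧ a = (pid B (X + 1) Y, pid B X Y)) := by
  unfold hArc
  split_ifs with h1 h2
  · simp [h1]
  · simp [h2]
  · simp [h1, h2]

theorem mem_vArc {B : ℕ} {vd : ℕ → ℕ → ℕ} {X Y : ℕ} {a : ℕ × ℕ} : a ∈ vArc B vd X Y ↔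
    (vd X Y = 1 ∧ a = (pid B X Y, pid B X (Y + 1))) ∨
      (vd X Y = 2 ∧ a = (pid B X (Y + 1), pid B X Y)) := by
  unfold vArc
  split_ifs with h1 h2
  · simp [h1]
  · simp [h2]
  · simp [h1, h2]

variable {A B : ℕ} {hd vd : ℕ → ℕ → ℕ}

/-- arcs in terms of points -/
theorem mem_gArcs_iff (hb : Border A B hd vd) {a : ℕ × ℕ} :
    a ∈ gArcs A B hd vd ↔ ∃ p q : ℕ × ℕ, p.1 < A ∧ p.2 < B ∧ q.1 < A ∧ q.2 < B ∧
      1 ≤ p.1 ∧ 1 ≤ p.2 ∧ 1 ≤ q.1 ∧ 1 ≤ q.2 ∧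
      Ar hd vd p q ∧ a = (pid B p.1 p.2, pid B q.1 q.2) := by
  rw [mem_gArcs]
  constructor
  · rintro ⟨X, hX, Y, hY, h | h⟩
    · rw [mem_hArc] at h
      rcases h with ⟨h1, h2⟩ | ⟨h1, h2⟩
      · have := hb.1 X Y (Or.inl h1)
        exact ⟨(X, Y), (X + 1, Y), by simp; omega, by simp; omega, by simp; omega, by simp; omega,
          by simp; omega, by simp; omega, by simp, by simp; omega,
          Or.inl ⟨rfl, h1⟩, h2⟩
      · have := hb.1 X Y (Or.inr h1)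
        exact ⟨(X + 1, Y), (X, Y), by simp; omega, by simp; omega, by simp; omega, by simp; omega,
          by simp, by simp; omega, by simp; omega, by simp; omega,
          Or.inr (Or.inl ⟨rfl, h1⟩), h2⟩
    · rw [mem_vArc] at h
      rcases h with ⟨h1, h2⟩ | ⟨h1, h2⟩
      · have := hb.2 X Y (Or.inl h1)
        exact ⟨(X, Y), (X, Y + 1), by simp; omega, by simp; omega, by simp; omega, by simp; omega,
          by simp; omega, by simp; omega, by simp; omega, by simp,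
          Or.inr (Or.inr (Or.inl ⟨rfl, h1⟩)), h2⟩
      · have := hb.2 X Y (Or.inr h1)
        exact ⟨(X, Y + 1), (X, Y), by simp; omega, by simp; omega, by simp; omega, by simp; omega,
          by simp; omega, by simp, by simp; omega, by simp; omega,
          Or.inr (Or.inr (Or.inr ⟨rfl, h1⟩)), h2⟩
  · rintro ⟨⟨X, Y⟩, ⟨X', Y'⟩, h1, h2, h3, h4, _, _, _, _, h, rfl⟩
    simp only at h1 h2 h3 h4
    rcases h with ⟨h, hh⟩ | ⟨h, hh⟩ | ⟨h, hh⟩ | ⟨h, hh⟩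
    · simp only [Prod.mk.injEq] at h
      obtain ⟨rfl, rfl⟩ := h
      exact ⟨X, h1, Y', h2, Or.inl (mem_hArc.2 (Or.inl ⟨hh, rfl⟩))⟩
    · simp only [Prod.mk.injEq] at h
      obtain ⟨rfl, rfl⟩ := h
      exact ⟨X', h3, Y, h2, Or.inl (mem_hArc.2 (Or.inr ⟨hh, rfl⟩))⟩
    · simp only [Prod.mk.injEq] at h
      obtain ⟨rfl, rfl⟩ := h
      exact ⟨X', h1, Y, h2, Or.inr (mem_vArc.2 (Or.inl ⟨hh, rfl⟩))⟩
    · simp only [Prod.mk.injEq] at h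
      obtain ⟨rfl, rfl⟩ := h
      exact ⟨X, h3, Y', h4, Or.inr (mem_vArc.2 (Or.inr ⟨hh, rfl⟩))⟩

/-! ### Flows -/

def ci (d : ℕ) (b : Bool) : ℕ := if d = 1 then b.toNat else 0
def co (d : ℕ) (b : Bool) : ℕ := if d = 2 then b.toNat else 0

/-- flow into a vertex -/
def inS (hd vd : ℕ → ℕ → ℕ) (F : ℕ → ℕ → ℕ → Bool) (X Y : ℕ) : ℕ :=
  ci (sw (hd X Y)) (F 0 X Y) + ci (hd (X - 1) Y) (F 0 (X - 1) Y) + ci (sw (vd X Y)) (F 1 X Y) +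
    ci (vd X (Y - 1)) (F 1 X (Y - 1))

/-- flow out of a vertex -/
def outS (hd vd : ℕ → ℕ → ℕ) (F : ℕ → ℕ → ℕ → Bool) (X Y : ℕ) : ℕ :=
  co (sw (hd X Y)) (F 0 X Y) + co (hd (X - 1) Y) (F 0 (X - 1) Y) + co (sw (vd X Y)) (F 1 X Y) +
    co (vd X (Y - 1)) (F 1 X (Y - 1))

open Classical in
/-- `F` is a flow from `r` to `s` -/
def IsFlow (hd vd : ℕ → ℕ → ℕ) (F : ℕ → ℕ → ℕ → Bool) (r s : ℕ × ℕ) : Prop :=
  ∀ X Y, 1 ≤ X → 1 ≤ Y →
    inS hd vd F X Y + (if (X, Y) = r then 1 else 0) = outS hd vd F X Y + (if (X, Y) = s then 1 else 0) ∧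
    inS hd vd F X Y + (if (X, Y) = r then 1 else 0) ≤ 1

end Pool.Agent.H603R2.EP
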