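import Pool.Agent.H603R2.EP.Grid

/-!
# Paths and flows in grid digraphs
-/

namespace Pool.Agent.H603R2.EP

open Pool.Agent.H673R2.Pdp

/-! ### Lists -/

theorem mem_pathArcs {P : List ℕ} {a b : ℕ} :
    (a, b) ∈ pathArcs P ↔ ∃ i, P[i]? = some a ∧ P[i + 1]? = some b := by
  unfold pathArcs
  rw [List.mem_iff_getElem?]
  simp only [List.getElem?_zip_eq_some, List.getElem?_tail]

theorem idx_unique {P : List ℕ} (h : P.Nodup) {i j a : ℕ} (hi : P[i]? = some a)
    (hj : P[j]? = some a) : i = j := by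
  obtain ⟨h1, h1'⟩ := List.getElem?_eq_some_iff.1 hi
  obtain ⟨h2, h2'⟩ := List.getElem?_eq_some_iff.1 hj
  exact (List.Nodup.getElem_inj_iff h).1 (h1'.trans h2'.symm)

theorem pred_unique {P : List ℕ} (h : P.Nodup) {v w w' : ℕ} (h1 : (w, v) ∈ pathArcs P)
    (h2 : (w', v) ∈ pathArcs P) : w = w' := by
  obtain ⟨i, hi, hi'⟩ := mem_pathArcs.1 h1
  obtain ⟨j, hj, hj'⟩ := mem_pathArcs.1 h2
  have := idx_unique h hi' hj'
  have hij : i = j := by omega
  subst hij
  rw [hi] at hj
  exact Option.some.inj hj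

theorem succ_unique {P : List ℕ} (h : P.Nodup) {v w w' : ℕ} (h1 : (v, w) ∈ pathArcs P)
    (h2 : (v, w') ∈ pathArcs P) : w = w' := by
  obtain ⟨i, hi, hi'⟩ := mem_pathArcs.1 h1
  obtain ⟨j, hj, hj'⟩ := mem_pathArcs.1 h2
  have := idx_unique h hi hj
  subst this
  rw [hi'] at hj'
  exact Option.some.inj hj'

theorem pred_exists {P : List ℕ} (h : P.Nodup) {r v : ℕ} (hr : P.head? = some r) :
    (∃ w, (w, v) ∈ pathArcs P) ↔ v ∈ P ∧ v ≠ r := by
  have hr' : P[0]? = some r := by rw [← List.head?_eq_getElem?]; exact hr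
  constructor
  · rintro ⟨w, hw⟩
    obtain ⟨i, _, hi'⟩ := mem_pathArcs.1 hw
    refine ⟨List.mem_of_getElem? hi', ?_⟩
    rintro rfl
    have := idx_unique h hi' hr'
    omega
  · rintro ⟨hv, hne⟩
    obtain ⟨i, hi⟩ := List.mem_iff_getElem?.1 hv
    cases i with
    | zero =>
      rw [hr'] at hi
      exact absurd (Option.some.inj hi).symm hne
    | succ i =>
      have hlt : i + 1 < P.length := (List.getElem?_eq_some_iff.1 hi).1
      exact ⟨P[i], mem_pathArcs.2 ⟨i, List.getElem?_eq_getElem (by omega), hi⟩⟩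

theorem succ_exists {P : List ℕ} (h : P.Nodup) {s v : ℕ} (hs : P.getLast? = some s) :
    (∃ w, (v, w) ∈ pathArcs P) ↔ v ∈ P ∧ v ≠ s := by
  have hs' : P[P.length - 1]? = some s := by rw [← List.getLast?_eq_getElem?]; exact hs
  have hl : 0 < P.length := by
    rcases P with _ | ⟨a, P⟩
    · simp at hs
    · simp
  constructor
  · rintro ⟨w, hw⟩
    obtain ⟨i, hi, hi'⟩ := mem_pathArcs.1 hw
    refine ⟨List.mem_of_getElem? hi, ?_⟩
    rintro rfl
    have := idx_unique h hi hs'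
    have := (List.getElem?_eq_some_iff.1 hi').1
    omega
  · rintro ⟨hv, hne⟩
    obtain ⟨i, hi⟩ := List.mem_iff_getElem?.1 hv
    have hlt : i < P.length := (List.getElem?_eq_some_iff.1 hi).1
    by_cases hi2 : i + 1 < P.length
    · exact ⟨P[i + 1], mem_pathArcs.2 ⟨i, hi, List.getElem?_eq_getElem hi2⟩⟩
    · have : i = P.length - 1 := by omega
      rw [this, hs'] at hi
      exact absurd (Option.some.inj hi).symm hne

theorem chain_arcs {A : List (ℕ × ℕ)} {P : List ℕ} (h : P.IsChain (fun u v => (u, v) ∈ A)) :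
    ∀ a ∈ pathArcs P, a ∈ A := by
  rintro ⟨a, b⟩ hab
  obtain ⟨i, hi, hi'⟩ := mem_pathArcs.1 hab
  obtain ⟨h1, h1'⟩ := List.getElem?_eq_some_iff.1 hi
  obtain ⟨h2, h2'⟩ := List.getElem?_eq_some_iff.1 hi'
  have := (List.isChain_iff_getElem.1 h) i h2
  rw [h1', h2'] at this
  exact this

/-! ### From paths to flows -/

/-- the flow of a path -/
def pF (B : ℕ) (hd vd : ℕ → ℕ → ℕ) (P : List ℕ) : ℕ → ℕ → ℕ → Bool := fun o X Y =>
  if o = 0 then decide ((hd X Y = 1 ∧ (pid B X Y, pid B (X + 1) Y) ∈ pathArcs P) ∨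
    (hd X Y = 2 ∧ (pid B (X + 1) Y, pid B X Y) ∈ pathArcs P))
  else decide ((vd X Y = 1 ∧ (pid B X Y, pid B X (Y + 1)) ∈ pathArcs P) ∨
    (vd X Y = 2 ∧ (pid B X (Y + 1), pid B X Y) ∈ pathArcs P))

variable {A B : ℕ} {hd vd : ℕ → ℕ → ℕ}

theorem ind_ci {d : ℕ} {b : Bool} {p : Prop} [Decidable p] (h : d = 1 → (b = true ↔ p)) :
    ci d b = if d = 1 ∧ p then 1 else 0 := by
  unfold ci
  by_cases h1 : d = 1
  · have := h h1
    by_cases hp : p
    · simp [h1, hp, this.2 hp]
    · have hb : b = false := by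
        cases b
        · rfl
        · exact absurd (this.1 rfl) hp
      simp [h1, hp, hb]
  · simp [h1]

theorem ind_co {d : ℕ} {b : Bool} {p : Prop} [Decidable p] (h : d = 2 → (b = true ↔ p)) :
    co d b = if d = 2 ∧ p then 1 else 0 := by
  unfold co
  by_cases h1 : d = 2
  · have := h h1
    by_cases hp : p
    · simp [h1, hp, this.2 hp]
    · have hb : b = false := by
        cases b
        · rfl
        · exact absurd (this.1 rfl) hp
      simp [h1, hp, hb]
  · simp [h1]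

theorem sum4 {p1 p2 p3 p4 q : Prop} [Decidable p1] [Decidable p2] [Decidable p3] [Decidable p4]
    [Decidable q] (h12 : ¬ (p1 ∧ p2)) (h13 : ¬ (p1 ∧ p3)) (h14 : ¬ (p1 ∧ p4)) (h23 : ¬ (p2 ∧ p3))
    (h24 : ¬ (p2 ∧ p4)) (h34 : ¬ (p3 ∧ p4)) (h : q ↔ p1 ∨ p2 ∨ p3 ∨ p4) :
    (if p1 then 1 else 0) + (if p2 then 1 else 0) + (if p3 then 1 else 0) + (if p4 then 1 else 0) =
      (if q then 1 else 0) := by
  by_cases a1 : p1 <;> by_cases a2 : p2 <;> by_cases a3 : p3 <;> by_cases a4 : p4 <;>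
    simp_all

open Classical in
theorem inS_pF (hb : Border A B hd vd) {P : List ℕ} (hn : P.Nodup)
    (hP : ∀ a ∈ pathArcs P, a ∈ gArcs A B hd vd) {X Y : ℕ} (hX : 1 ≤ X) (hY : 1 ≤ Y)
    (hYB : Y < B) :
    inS hd vd (pF B hd vd P) X Y = if ∃ w, (w, pid B X Y) ∈ pathArcs P then 1 else 0 := by
  unfold inS
  rw [ind_ci (d := sw (hd X Y)) (p := (pid B (X + 1) Y, pid B X Y) ∈ pathArcs P),
    ind_ci (d := hd (X - 1) Y) (p := (pid B (X - 1) Y, pid B X Y) ∈ pathArcs P),
    ind_ci (d := sw (vd X Y)) (p := (pid B X (Y + 1), pid B X Y) ∈ pathArcs P),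
    ind_ci (d := vd X (Y - 1)) (p := (pid B X (Y - 1), pid B X Y) ∈ pathArcs P)]
  · simp only [sw_eq_one]
    have hne : ∀ {a b c d : ℕ}, b < B → d < B → (pid B a b, pid B X Y) ∈ pathArcs P →
        (pid B c d, pid B X Y) ∈ pathArcs P → a = c ∧ b = d := by
      intro a b c d h1 h2 h3 h4
      exact pid_inj h1 h2 (pred_unique hn h3 h4)
    apply sum4
    · rintro ⟨⟨_, h1⟩, ⟨_, h2⟩⟩
      have := hne (by omega) (by omega) h1 h2
      omega
    · rintro ⟨⟨_, h1⟩, ⟨h3, h2⟩⟩
      have := hb.2 X Y (Or.inr h3)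
      have := hne (by omega) (by omega) h1 h2
      omega
    · rintro ⟨⟨_, h1⟩, ⟨_, h2⟩⟩
      have := hne (by omega) (by omega) h1 h2
      omega
    · rintro ⟨⟨_, h1⟩, ⟨h3, h2⟩⟩
      have := hb.2 X Y (Or.inr h3)
      have := hne (by omega) (by omega) h1 h2
      omega
    · rintro ⟨⟨_, h1⟩, ⟨_, h2⟩⟩
      have := hne (by omega) (by omega) h1 h2
      omega
    · rintro ⟨⟨h3, h1⟩, ⟨_, h2⟩⟩
      have := hb.2 X Y (Or.inr h3)
      have := hne (by omega) (by omega) h1 h2
      omega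
    · constructor
      · rintro ⟨w, hw⟩
        obtain ⟨p, q, h1, h2, h3, h4, h5, h6, h7, h8, har, he⟩ := (mem_gArcs_iff hb).1 (hP _ hw)
        simp only [Prod.mk.injEq] at he
        obtain ⟨he1, he2⟩ := he
        obtain ⟨hq1, hq2⟩ := pid_inj hYB h4 he2
        rw [he1] at hw
        subst hq1 hq2
        rcases har with ⟨h, hh⟩ | ⟨h, hh⟩ | ⟨h, hh⟩ | ⟨h, hh⟩
        · have e1 : q.1 = p.1 + 1 := by rw [h]
          have e2 : q.2 = p.2 := by rw [h]
          right; left
          have e3 : q.1 - 1 = p.1 := by omega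
          rw [e3, e2]
          rw [e2] at hw
          exact ⟨hh, hw⟩
        · have e1 : p.1 = q.1 + 1 := by rw [h]
          have e2 : p.2 = q.2 := by rw [h]
          left
          rw [← e1]
          rw [e2] at hw
          exact ⟨hh, hw⟩
        · have e1 : q.2 = p.2 + 1 := by rw [h]
          have e2 : q.1 = p.1 := by rw [h]
          right; right; right
          have e3 : q.2 - 1 = p.2 := by omega
          rw [e3, e2]
          rw [e2] at hw
          exact ⟨hh, hw⟩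
        · have e1 : p.2 = q.2 + 1 := by rw [h]
          have e2 : p.1 = q.1 := by rw [h]
          right; right; left
          rw [← e1]
          rw [e2] at hw
          exact ⟨hh, hw⟩
      · rintro (h | h | h | h)
        · exact ⟨_, h.2⟩
        · exact ⟨_, h.2⟩
        · exact ⟨_, h.2⟩
        · exact ⟨_, h.2⟩
  · intro h
    have e : Y - 1 + 1 = Y := by omega
    simp [pF, h, e]
  · intro h
    rw [sw_eq_one] at h
    simp [pF, h]
  · intro h
    have e : X - 1 + 1 = X := by omega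
    simp [pF, h, e]
  · intro h
    rw [sw_eq_one] at h
    simp [pF, h]

open Classical in
theorem outS_pF (hb : Border A B hd vd) {P : List ℕ} (hn : P.Nodup)
    (hP : ∀ a ∈ pathArcs P, a ∈ gArcs A B hd vd) {X Y : ℕ} (hX : 1 ≤ X) (hY : 1 ≤ Y)
    (hYB : Y < B) :
    outS hd vd (pF B hd vd P) X Y = if ∃ w, (pid B X Y, w) ∈ pathArcs P then 1 else 0 := by
  unfold outS
  rw [ind_co (d := sw (hd X Y)) (p := (pid B X Y, pid B (X + 1) Y) ∈ pathArcs P),
    ind_co (d := hd (X - 1) Y) (p := (pid B X Y, pid B (X - 1) Y) ∈ pathArcs P),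
    ind_co (d := sw (vd X Y)) (p := (pid B X Y, pid B X (Y + 1)) ∈ pathArcs P),
    ind_co (d := vd X (Y - 1)) (p := (pid B X Y, pid B X (Y - 1)) ∈ pathArcs P)]
  · simp only [sw_eq_two]
    have hne : ∀ {a b c d : ℕ}, b < B → d < B → (pid B X Y, pid B a b) ∈ pathArcs P →
        (pid B X Y, pid B c d) ∈ pathArcs P → a = c ∧ b = d := by
      intro a b c d h1 h2 h3 h4
      exact pid_inj h1 h2 (succ_unique hn h3 h4)
    apply sum4
    · rintro ⟨⟨_, h1⟩, ⟨_, h2⟩⟩
      have := hne (by omega) (by omega) h1 h2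
      omega
    · rintro ⟨⟨_, h1⟩, ⟨h3, h2⟩⟩
      have := hb.2 X Y (Or.inl h3)
      have := hne (by omega) (by omega) h1 h2
      omega
    · rintro ⟨⟨_, h1⟩, ⟨_, h2⟩⟩
      have := hne (by omega) (by omega) h1 h2
      omega
    · rintro ⟨⟨_, h1⟩, ⟨h3, h2⟩⟩
      have := hb.2 X Y (Or.inl h3)
      have := hne (by omega) (by omega) h1 h2
      omega
    · rintro ⟨⟨_, h1⟩, ⟨_, h2⟩⟩
      have := hne (by omega) (by omega) h1 h2
      omega
    · rintro ⟨⟨h3, h1⟩, ⟨_, h2⟩⟩
      have := hb.2 X Y (Or.inl h3)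
      have := hne (by omega) (by omega) h1 h2
      omega
    · constructor
      · rintro ⟨w, hw⟩
        obtain ⟨p, q, h1, h2, h3, h4, h5, h6, h7, h8, har, he⟩ := (mem_gArcs_iff hb).1 (hP _ hw)
        simp only [Prod.mk.injEq] at he
        obtain ⟨he1, he2⟩ := he
        obtain ⟨hq1, hq2⟩ := pid_inj hYB h2 he1
        rw [he2] at hw
        subst hq1 hq2
        rcases har with ⟨h, hh⟩ | ⟨h, hh⟩ | ⟨h, hh⟩ | ⟨h, hh⟩
        · have e1 : q.1 = p.1 + 1 := by rw [h]
          have e2 : q.2 = p.2 := by rw [h]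
          left
          rw [← e1]
          rw [e2] at hw
          exact ⟨hh, hw⟩
        · have e1 : p.1 = q.1 + 1 := by rw [h]
          have e2 : p.2 = q.2 := by rw [h]
          right; left
          have e3 : p.1 - 1 = q.1 := by omega
          rw [e3, e2]
          rw [e2] at hw
          exact ⟨hh, hw⟩
        · have e1 : q.2 = p.2 + 1 := by rw [h]
          have e2 : q.1 = p.1 := by rw [h]
          right; right; left
          rw [← e1]
          rw [e2] at hw
          exact ⟨hh, hw⟩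
        · have e1 : p.2 = q.2 + 1 := by rw [h]
          have e2 : p.1 = q.1 := by rw [h]
          right; right; right
          have e3 : p.2 - 1 = q.2 := by omega
          rw [e3, e2]
          rw [e2] at hw
          exact ⟨hh, hw⟩
      · rintro (h | h | h | h)
        · exact ⟨_, h.2⟩
        · exact ⟨_, h.2⟩
        · exact ⟨_, h.2⟩
        · exact ⟨_, h.2⟩
  · intro h
    have e : Y - 1 + 1 = Y := by omega
    simp [pF, h, e]
  · intro h
    rw [sw_eq_two] at h
    simp [pF, h]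
  · intro h
    have e : X - 1 + 1 = X := by omega
    simp [pF, h, e]
  · intro h
    rw [sw_eq_two] at h
    simp [pF, h]

end Pool.Agent.H603R2.EP
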