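import Pool.Agent.H603R2.EP.Term

/-!
# The kinds of the tiles
-/

namespace Pool.Agent.H603R2.EP

variable {n m : ℕ} {var : ℕ → ℕ → ℕ}

theorem KK_HBs (hm : 1 ≤ m) {b : ℕ} (h1 : n + 1 ≤ b) (h2 : b ≤ 2 * n) : KK n m var (n + 1) b = 2 := by
  refine KK_mk (c1 := 1) (c2 := 2) (c3 := 0) (c4 := 0) (by omega) ?_ ?_ ?_ ?_ (by decide +kernel)
  · (first | unfold sL | unfold sB) <;>
      (repeat (first | rw [if_pos (by omega)] | rw [if_neg (by omega)])) <;>
      (try (split_ifs <;> first | rfl | (exfalso; omega)))
  · (first | unfold sL | unfold sB) <;>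
      (repeat (first | rw [if_pos (by omega)] | rw [if_neg (by omega)])) <;>
      (try (split_ifs <;> first | rfl | (exfalso; omega)))
  · (first | unfold sL | unfold sB) <;>
      (repeat (first | rw [if_pos (by omega)] | rw [if_neg (by omega)])) <;>
      (try (split_ifs <;> first | rfl | (exfalso; omega)))
  · (first | unfold sL | unfold sB) <;>
      (repeat (first | rw [if_pos (by omega)] | rw [if_neg (by omega)])) <;>
      (try (split_ifs <;> first | rfl | (exfalso; omega)))

theorem KK_HBe (hm : 1 ≤ m) {b : ℕ} (h1 : n + 1 ≤ b) (h2 : b ≤ 2 * n) :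
    KK n m var (n + 2 * m + 2) b = 3 := by
  refine KK_mk (c1 := 2) (c2 := 1) (c3 := 0) (c4 := 0) (by omega) ?_ ?_ ?_ ?_ (by decide +kernel)
  · (first | unfold sL | unfold sB) <;>
      (repeat (first | rw [if_pos (by omega)] | rw [if_neg (by omega)])) <;>
      (try (split_ifs <;> first | rfl | (exfalso; omega)))
  · (first | unfold sL | unfold sB) <;>
      (repeat (first | rw [if_pos (by omega)] | rw [if_neg (by omega)])) <;>
      (try (split_ifs <;> first | rfl | (exfalso; omega)))
  · (first | unfold sL | unfold sB) <;>
      (repeat (first | rw [if_pos (by omega)] | rw [if_neg (by omega)])) <;>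
      (try (split_ifs <;> first | rfl | (exfalso; omega)))
  · (first | unfold sL | unfold sB) <;>
      (repeat (first | rw [if_pos (by omega)] | rw [if_neg (by omega)])) <;>
      (try (split_ifs <;> first | rfl | (exfalso; omega)))

theorem KK_D {b j : ℕ} (hj : j < m) (h1 : n + 1 ≤ b) (h2 : b ≤ 2 * n) :
    KK n m var (n + 2 + 2 * j) b = 22 + var (n + 2 + 2 * j) b := by
  have h3 : tileOf (quad n m (n + 2 + 2 * j) b) = 22 := by
    have e1 : sL n m (n + 2 + 2 * j) b = 2 := by
      (first | unfold sL | unfold sB) <;>
        (repeat (first | rw [if_pos (by omega)] | rw [if_neg (by omega)])) <;>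
        (try (split_ifs <;> first | rfl | (exfalso; omega)))
    have e2 : sL n m (n + 2 + 2 * j + 1) b = 3 := by
      (first | unfold sL | unfold sB) <;>
        (repeat (first | rw [if_pos (by omega)] | rw [if_neg (by omega)])) <;>
        (try (split_ifs <;> first | rfl | (exfalso; omega)))
    have e3 : sB n m (n + 2 + 2 * j) b = 3 := by
      (first | unfold sL | unfold sB) <;>
        (repeat (first | rw [if_pos (by omega)] | rw [if_neg (by omega)])) <;>
        (try (split_ifs <;> first | rfl | (exfalso; omega)))
    have e4 : sB n m (n + 2 + 2 * j) (b + 1) = 3 := by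
      (first | unfold sL | unfold sB) <;>
        (repeat (first | rw [if_pos (by omega)] | rw [if_neg (by omega)])) <;>
        (try (split_ifs <;> first | rfl | (exfalso; omega)))
    unfold quad
    rw [e1, e2, e3, e4]
    decide +kernel
  unfold KK
  rw [if_pos h3]

theorem KK_U {b j : ℕ} (hj : j + 1 < m) (h1 : n + 1 ≤ b) (h2 : b ≤ 2 * n) :
    KK n m var (n + 3 + 2 * j) b = 13 := by
  refine KK_mk (c1 := 3) (c2 := 2) (c3 := 4) (c4 := 4) (by omega) ?_ ?_ ?_ ?_ (by decide +kernel)
  · (first | unfold sL | unfold sB) <;>
      (repeat (first | rw [if_pos (by omega)] | rw [if_neg (by omega)])) <;>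
      (try (split_ifs <;> first | rfl | (exfalso; omega)))
  · (first | unfold sL | unfold sB) <;>
      (repeat (first | rw [if_pos (by omega)] | rw [if_neg (by omega)])) <;>
      (try (split_ifs <;> first | rfl | (exfalso; omega)))
  · (first | unfold sL | unfold sB) <;>
      (repeat (first | rw [if_pos (by omega)] | rw [if_neg (by omega)])) <;>
      (try (split_ifs <;> first | rfl | (exfalso; omega)))
  · (first | unfold sL | unfold sB) <;>
      (repeat (first | rw [if_pos (by omega)] | rw [if_neg (by omega)])) <;>
      (try (split_ifs <;> first | rfl | (exfalso; omega)))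

theorem KK_W (hm : 1 ≤ m) {b : ℕ} (h1 : n + 1 ≤ b) (h2 : b ≤ 2 * n) :
    KK n m var (n + 2 * m + 1) b = 14 := by
  refine KK_mk (c1 := 3) (c2 := 2) (c3 := 5) (c4 := 5) (by omega) ?_ ?_ ?_ ?_ (by decide +kernel)
  · (first | unfold sL | unfold sB) <;>
      (repeat (first | rw [if_pos (by omega)] | rw [if_neg (by omega)])) <;>
      (try (split_ifs <;> first | rfl | (exfalso; omega)))
  · (first | unfold sL | unfold sB) <;>
      (repeat (first | rw [if_pos (by omega)] | rw [if_neg (by omega)])) <;>
      (try (split_ifs <;> first | rfl | (exfalso; omega)))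
  · (first | unfold sL | unfold sB) <;>
      (repeat (first | rw [if_pos (by omega)] | rw [if_neg (by omega)])) <;>
      (try (split_ifs <;> first | rfl | (exfalso; omega)))
  · (first | unfold sL | unfold sB) <;>
      (repeat (first | rw [if_pos (by omega)] | rw [if_neg (by omega)])) <;>
      (try (split_ifs <;> first | rfl | (exfalso; omega)))

/-- right part of a core row -/
theorem KK_HBr {i t : ℕ} (hi : i < n) (ht : t < i) :
    KK n m var (n + 2 * m + 3 + t) (n + 1 + i) = 1 := by
  refine KK_mk (c1 := 1) (c2 := 1) (c3 := 0) (c4 := 0) (by omega) ?_ ?_ ?_ ?_ (by decide +kernel)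
  · (first | unfold sL | unfold sB) <;>
      (repeat (first | rw [if_pos (by omega)] | rw [if_neg (by omega)])) <;>
      (try (split_ifs <;> first | rfl | (exfalso; omega)))
  · (first | unfold sL | unfold sB) <;>
      (repeat (first | rw [if_pos (by omega)] | rw [if_neg (by omega)])) <;>
      (try (split_ifs <;> first | rfl | (exfalso; omega)))
  · (first | unfold sL | unfold sB) <;>
      (repeat (first | rw [if_pos (by omega)] | rw [if_neg (by omega)])) <;>
      (try (split_ifs <;> first | rfl | (exfalso; omega)))
  · (first | unfold sL | unfold sB) <;>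
      (repeat (first | rw [if_pos (by omega)] | rw [if_neg (by omega)])) <;>
      (try (split_ifs <;> first | rfl | (exfalso; omega)))

theorem KK_C1 {i : ℕ} (hi : i + 2 ≤ n) : KK n m var (n + 2 * m + 3 + i) (n + 1 + i) = 4 := by
  refine KK_mk (c1 := 1) (c2 := 0) (c3 := 1) (c4 := 0) (by omega) ?_ ?_ ?_ ?_ (by decide +kernel)
  · (first | unfold sL | unfold sB) <;>
      (repeat (first | rw [if_pos (by omega)] | rw [if_neg (by omega)])) <;>
      (try (split_ifs <;> first | rfl | (exfalso; omega)))
  · (first | unfold sL | unfold sB) <;>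
      (repeat (first | rw [if_pos (by omega)] | rw [if_neg (by omega)])) <;>
      (try (split_ifs <;> first | rfl | (exfalso; omega)))
  · (first | unfold sL | unfold sB) <;>
      (repeat (first | rw [if_pos (by omega)] | rw [if_neg (by omega)])) <;>
      (try (split_ifs <;> first | rfl | (exfalso; omega)))
  · (first | unfold sL | unfold sB) <;>
      (repeat (first | rw [if_pos (by omega)] | rw [if_neg (by omega)])) <;>
      (try (split_ifs <;> first | rfl | (exfalso; omega)))

theorem KK_VBr {i b : ℕ} (hi : i + 2 ≤ n) (h1 : n ≤ b + i) (h2 : b ≤ n + i) :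
    KK n m var (n + 2 * m + 3 + i) b = 5 := by
  refine KK_mk (c1 := 0) (c2 := 0) (c3 := 1) (c4 := 1) (by omega) ?_ ?_ ?_ ?_ (by decide +kernel)
  · (first | unfold sL | unfold sB) <;>
      (repeat (first | rw [if_pos (by omega)] | rw [if_neg (by omega)])) <;>
      (try (split_ifs <;> first | rfl | (exfalso; omega)))
  · (first | unfold sL | unfold sB) <;>
      (repeat (first | rw [if_pos (by omega)] | rw [if_neg (by omega)])) <;>
      (try (split_ifs <;> first | rfl | (exfalso; omega)))
  · (first | unfold sL | unfold sB) <;>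
      (repeat (first | rw [if_pos (by omega)] | rw [if_neg (by omega)])) <;>
      (try (split_ifs <;> first | rfl | (exfalso; omega)))
  · (first | unfold sL | unfold sB) <;>
      (repeat (first | rw [if_pos (by omega)] | rw [if_neg (by omega)])) <;>
      (try (split_ifs <;> first | rfl | (exfalso; omega)))

theorem KK_C2 {i : ℕ} (hi : i + 2 ≤ n) : KK n m var (n + 2 * m + 3 + i) (n - 1 - i) = 6 := by
  refine KK_mk (c1 := 4) (c2 := 0) (c3 := 0) (c4 := 1) (by omega) ?_ ?_ ?_ ?_ (by decide +kernel)
  · (first | unfold sL | unfold sB) <;>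
      (repeat (first | rw [if_pos (by omega)] | rw [if_neg (by omega)])) <;>
      (try (split_ifs <;> first | rfl | (exfalso; omega)))
  · (first | unfold sL | unfold sB) <;>
      (repeat (first | rw [if_pos (by omega)] | rw [if_neg (by omega)])) <;>
      (try (split_ifs <;> first | rfl | (exfalso; omega)))
  · (first | unfold sL | unfold sB) <;>
      (repeat (first | rw [if_pos (by omega)] | rw [if_neg (by omega)])) <;>
      (try (split_ifs <;> first | rfl | (exfalso; omega)))
  · (first | unfold sL | unfold sB) <;>
      (repeat (first | rw [if_pos (by omega)] | rw [if_neg (by omega)])) <;>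
      (try (split_ifs <;> first | rfl | (exfalso; omega)))

theorem KK_HBb {i bx : ℕ} (hi : i + 2 ≤ n) (h1 : n ≤ bx + i) (h2 : bx ≤ n + 2 * m + 2 + i) :
    KK n m var bx (n - 1 - i) = 7 := by
  refine KK_mk (c1 := 4) (c2 := 4) (c3 := 0) (c4 := 0) (by omega) ?_ ?_ ?_ ?_ (by decide +kernel)
  · (first | unfold sL | unfold sB) <;>
      (repeat (first | rw [if_pos (by omega)] | rw [if_neg (by omega)])) <;>
      (try (split_ifs <;> first | rfl | (exfalso; omega)))
  · (first | unfold sL | unfold sB) <;>
      (repeat (first | rw [if_pos (by omega)] | rw [if_neg (by omega)])) <;>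
      (try (split_ifs <;> first | rfl | (exfalso; omega)))
  · (first | unfold sL | unfold sB) <;>
      (repeat (first | rw [if_pos (by omega)] | rw [if_neg (by omega)])) <;>
      (try (split_ifs <;> first | rfl | (exfalso; omega)))
  · (first | unfold sL | unfold sB) <;>
      (repeat (first | rw [if_pos (by omega)] | rw [if_neg (by omega)])) <;>
      (try (split_ifs <;> first | rfl | (exfalso; omega)))

theorem KK_C3 {i : ℕ} (hi : i + 2 ≤ n) : KK n m var (n - 1 - i) (n - 1 - i) = 8 := by
  refine KK_mk (c1 := 0) (c2 := 4) (c3 := 0) (c4 := 2) (by omega) ?_ ?_ ?_ ?_ (by decide +kernel)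
  · (first | unfold sL | unfold sB) <;>
      (repeat (first | rw [if_pos (by omega)] | rw [if_neg (by omega)])) <;>
      (try (split_ifs <;> first | rfl | (exfalso; omega)))
  · (first | unfold sL | unfold sB) <;>
      (repeat (first | rw [if_pos (by omega)] | rw [if_neg (by omega)])) <;>
      (try (split_ifs <;> first | rfl | (exfalso; omega)))
  · (first | unfold sL | unfold sB) <;>
      (repeat (first | rw [if_pos (by omega)] | rw [if_neg (by omega)])) <;>
      (try (split_ifs <;> first | rfl | (exfalso; omega)))
  · (first | unfold sL | unfold sB) <;>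
      (repeat (first | rw [if_pos (by omega)] | rw [if_neg (by omega)])) <;>
      (try (split_ifs <;> first | rfl | (exfalso; omega)))

theorem KK_VBl {i b : ℕ} (hi : i + 2 ≤ n) (h1 : n ≤ b + i) (h2 : b ≤ n + 1 + i) :
    KK n m var (n - 1 - i) b = 9 := by
  refine KK_mk (c1 := 0) (c2 := 0) (c3 := 2) (c4 := 2) (by omega) ?_ ?_ ?_ ?_ (by decide +kernel)
  · (first | unfold sL | unfold sB) <;>
      (repeat (first | rw [if_pos (by omega)] | rw [if_neg (by omega)])) <;>
      (try (split_ifs <;> first | rfl | (exfalso; omega)))
  · (first | unfold sL | unfold sB) <;>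
      (repeat (first | rw [if_pos (by omega)] | rw [if_neg (by omega)])) <;>
      (try (split_ifs <;> first | rfl | (exfalso; omega)))
  · (first | unfold sL | unfold sB) <;>
      (repeat (first | rw [if_pos (by omega)] | rw [if_neg (by omega)])) <;>
      (try (split_ifs <;> first | rfl | (exfalso; omega)))
  · (first | unfold sL | unfold sB) <;>
      (repeat (first | rw [if_pos (by omega)] | rw [if_neg (by omega)])) <;>
      (try (split_ifs <;> first | rfl | (exfalso; omega)))

theorem KK_C4 {i : ℕ} (hi : i + 2 ≤ n) : KK n m var (n - 1 - i) (n + 2 + i) = 10 := by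
  refine KK_mk (c1 := 0) (c2 := 1) (c3 := 2) (c4 := 0) (by omega) ?_ ?_ ?_ ?_ (by decide +kernel)
  · (first | unfold sL | unfold sB) <;>
      (repeat (first | rw [if_pos (by omega)] | rw [if_neg (by omega)])) <;>
      (try (split_ifs <;> first | rfl | (exfalso; omega)))
  · (first | unfold sL | unfold sB) <;>
      (repeat (first | rw [if_pos (by omega)] | rw [if_neg (by omega)])) <;>
      (try (split_ifs <;> first | rfl | (exfalso; omega)))
  · (first | unfold sL | unfold sB) <;>
      (repeat (first | rw [if_pos (by omega)] | rw [if_neg (by omega)])) <;>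
      (try (split_ifs <;> first | rfl | (exfalso; omega)))
  · (first | unfold sL | unfold sB) <;>
      (repeat (first | rw [if_pos (by omega)] | rw [if_neg (by omega)])) <;>
      (try (split_ifs <;> first | rfl | (exfalso; omega)))

/-- left part of a core row -/
theorem KK_HBl {i bx : ℕ} (hi : i + 2 ≤ n) (h1 : n ≤ bx + i) (h2 : bx ≤ n) :
    KK n m var bx (n + 2 + i) = 1 := by
  refine KK_mk (c1 := 1) (c2 := 1) (c3 := 0) (c4 := 0) (by omega) ?_ ?_ ?_ ?_ (by decide +kernel)
  · (first | unfold sL | unfold sB) <;>
      (repeat (first | rw [if_pos (by omega)] | rw [if_neg (by omega)])) <;>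
      (try (split_ifs <;> first | rfl | (exfalso; omega)))
  · (first | unfold sL | unfold sB) <;>
      (repeat (first | rw [if_pos (by omega)] | rw [if_neg (by omega)])) <;>
      (try (split_ifs <;> first | rfl | (exfalso; omega)))
  · (first | unfold sL | unfold sB) <;>
      (repeat (first | rw [if_pos (by omega)] | rw [if_neg (by omega)])) <;>
      (try (split_ifs <;> first | rfl | (exfalso; omega)))
  · (first | unfold sL | unfold sB) <;>
      (repeat (first | rw [if_pos (by omega)] | rw [if_neg (by omega)])) <;>
      (try (split_ifs <;> first | rfl | (exfalso; omega)))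

theorem KK_TZD (hn : 1 ≤ n) {j : ℕ} (hj : j < m) : KK n m var (n + 2 + 2 * j) (2 * n + 1) = 15 := by
  refine KK_mk (c1 := 0) (c2 := 5) (c3 := 3) (c4 := 0) (by omega) ?_ ?_ ?_ ?_ (by decide +kernel)
  · (first | unfold sL | unfold sB) <;>
      (repeat (first | rw [if_pos (by omega)] | rw [if_neg (by omega)])) <;>
      (try (split_ifs <;> first | rfl | (exfalso; omega)))
  · (first | unfold sL | unfold sB) <;>
      (repeat (first | rw [if_pos (by omega)] | rw [if_neg (by omega)])) <;>
      (try (split_ifs <;> first | rfl | (exfalso; omega)))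
  · (first | unfold sL | unfold sB) <;>
      (repeat (first | rw [if_pos (by omega)] | rw [if_neg (by omega)])) <;>
      (try (split_ifs <;> first | rfl | (exfalso; omega)))
  · (first | unfold sL | unfold sB) <;>
      (repeat (first | rw [if_pos (by omega)] | rw [if_neg (by omega)])) <;>
      (try (split_ifs <;> first | rfl | (exfalso; omega)))

theorem KK_TZU (hn : 1 ≤ n) {j : ℕ} (hj : j + 1 < m) :
    KK n m var (n + 3 + 2 * j) (2 * n + 1) = 16 := by
  refine KK_mk (c1 := 5) (c2 := 0) (c3 := 4) (c4 := 0) (by omega) ?_ ?_ ?_ ?_ (by decide +kernel)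
  · (first | unfold sL | unfold sB) <;>
      (repeat (first | rw [if_pos (by omega)] | rw [if_neg (by omega)])) <;>
      (try (split_ifs <;> first | rfl | (exfalso; omega)))
  · (first | unfold sL | unfold sB) <;>
      (repeat (first | rw [if_pos (by omega)] | rw [if_neg (by omega)])) <;>
      (try (split_ifs <;> first | rfl | (exfalso; omega)))
  · (first | unfold sL | unfold sB) <;>
      (repeat (first | rw [if_pos (by omega)] | rw [if_neg (by omega)])) <;>
      (try (split_ifs <;> first | rfl | (exfalso; omega)))
  · (first | unfold sL | unfold sB) <;>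
      (repeat (first | rw [if_pos (by omega)] | rw [if_neg (by omega)])) <;>
      (try (split_ifs <;> first | rfl | (exfalso; omega)))

theorem KK_BZD (hn : 1 ≤ n) {j : ℕ} (hj : j + 1 < m) : KK n m var (n + 4 + 2 * j) n = 18 := by
  refine KK_mk (c1 := 6) (c2 := 0) (c3 := 0) (c4 := 3) (by omega) ?_ ?_ ?_ ?_ (by decide +kernel)
  · (first | unfold sL | unfold sB) <;>
      (repeat (first | rw [if_pos (by omega)] | rw [if_neg (by omega)])) <;>
      (try (split_ifs <;> first | rfl | (exfalso; omega)))
  · (first | unfold sL | unfold sB) <;>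
      (repeat (first | rw [if_pos (by omega)] | rw [if_neg (by omega)])) <;>
      (try (split_ifs <;> first | rfl | (exfalso; omega)))
  · (first | unfold sL | unfold sB) <;>
      (repeat (first | rw [if_pos (by omega)] | rw [if_neg (by omega)])) <;>
      (try (split_ifs <;> first | rfl | (exfalso; omega)))
  · (first | unfold sL | unfold sB) <;>
      (repeat (first | rw [if_pos (by omega)] | rw [if_neg (by omega)])) <;>
      (try (split_ifs <;> first | rfl | (exfalso; omega)))

theorem KK_BZU (hn : 1 ≤ n) {j : ℕ} (hj : j + 1 < m) : KK n m var (n + 3 + 2 * j) n = 19 := by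
  refine KK_mk (c1 := 0) (c2 := 6) (c3 := 0) (c4 := 4) (by omega) ?_ ?_ ?_ ?_ (by decide +kernel)
  · (first | unfold sL | unfold sB) <;>
      (repeat (first | rw [if_pos (by omega)] | rw [if_neg (by omega)])) <;>
      (try (split_ifs <;> first | rfl | (exfalso; omega)))
  · (first | unfold sL | unfold sB) <;>
      (repeat (first | rw [if_pos (by omega)] | rw [if_neg (by omega)])) <;>
      (try (split_ifs <;> first | rfl | (exfalso; omega)))
  · (first | unfold sL | unfold sB) <;>
      (repeat (first | rw [if_pos (by omega)] | rw [if_neg (by omega)])) <;>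
      (try (split_ifs <;> first | rfl | (exfalso; omega)))
  · (first | unfold sL | unfold sB) <;>
      (repeat (first | rw [if_pos (by omega)] | rw [if_neg (by omega)])) <;>
      (try (split_ifs <;> first | rfl | (exfalso; omega)))

end Pool.Agent.H603R2.EP
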