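import Pool.Agent.H603R2.EP.Data

/-!
# The layout of the tiles
-/

namespace Pool.Agent.H603R2.EP

def DHt (k : ℕ) : ℕ := DHT.getD k 0
def DVt (k : ℕ) : ℕ := DVT.getD k 0
def sig (k : ℕ) : ℕ × ℕ × ℕ × ℕ := SIGT.getD k (0, 0, 0, 0)

/-- type of the left boundary of the tile `(bx, b)` -/
def sL (n m bx b : ℕ) : ℕ :=
  if b < n then (if 1 ≤ b ∧ b + 1 ≤ bx ∧ bx + b ≤ 2 * n + 2 * m + 2 then 4 else 0)
  else if b = n then (if (bx + n) % 2 = 0 ∧ n + 4 ≤ bx ∧ bx ≤ n + 2 * m then 6 else 0)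
  else if b ≤ 2 * n then
    (if bx ≤ n + 1 then (if 2 * n + 2 ≤ bx + b then 1 else 0)
     else if bx ≤ n + 2 * m + 2 then (if (bx + n) % 2 = 0 then 2 else 3)
     else if bx ≤ 2 * m + 2 + b then 1 else 0)
  else if b = 2 * n + 1 then
    (if (bx + n) % 2 = 1 ∧ n + 3 ≤ bx ∧ bx ≤ n + 2 * m + 1 then 5 else 0)
  else 0

/-- type of the bottom boundary of the tile `(bx, b)` -/
def sB (n m bx b : ℕ) : ℕ :=
  if bx < n then (if 1 ≤ bx ∧ bx + 1 ≤ b ∧ bx + b ≤ 2 * n + 1 then 2 else 0)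
  else if bx ≤ n + 1 then 0
  else if bx ≤ n + 2 * m + 1 then
    (if n + 1 ≤ b ∧ b ≤ 2 * n + 1 then
      (if bx = n + 2 * m + 1 then 5 else if (bx + n) % 2 = 0 then 3 else 4) else 0)
  else if bx ≤ n + 2 * m + 2 then 0
  else if bx ≤ 2 * n + 2 * m + 1 ∧ 2 * n + 2 * m + 3 ≤ bx + b ∧ b + 2 * m + 2 ≤ bx then 1 else 0

def SIGI : List ((ℕ × ℕ × ℕ × ℕ) × ℕ) := (SIGT.take 23).zipIdx

/-- the tile with given boundary types -/
def tileOf (q : ℕ × ℕ × ℕ × ℕ) : ℕ :=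
  match (SIGI.filter fun s => decide (s.1 = q)).head? with
  | none => 0
  | some s => s.2

def quad (n m bx b : ℕ) : ℕ × ℕ × ℕ × ℕ := (sL n m bx b, sL n m (bx + 1) b, sB n m bx b, sB n m bx (b + 1))

theorem quad_valid {n m : ℕ} (hn : 1 ≤ n) (hm : 1 ≤ m) (bx b : ℕ) :
    sig (tileOf (quad n m bx b)) = quad n m bx b := by
  unfold quad
  rcases Nat.lt_or_ge b n with h1 | h1
  · unfold sL sB
    split_ifs <;> first | rfl | (exfalso; omega)
  rcases Nat.eq_or_lt_of_le h1 with h2 | h2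
  · subst h2
    unfold sL sB
    rw [if_neg (lt_irrefl n), if_neg (lt_irrefl n), if_pos rfl, if_pos rfl]
    split_ifs <;> first | rfl | (exfalso; omega)
  rcases Nat.lt_or_ge (2 * n) b with h3 | h3
  · unfold sL sB
    rw [if_neg (by omega : ¬ b < n), if_neg (by omega : ¬ b < n), if_neg (by omega : ¬ b = n),
      if_neg (by omega : ¬ b = n), if_neg (by omega : ¬ b ≤ 2 * n), if_neg (by omega : ¬ b ≤ 2 * n)]
    split_ifs <;> first | rfl | (exfalso; omega)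
  · unfold sL sB
    rw [if_neg (by omega : ¬ b < n), if_neg (by omega : ¬ b < n), if_neg (by omega : ¬ b = n),
      if_neg (by omega : ¬ b = n), if_pos (by omega : b ≤ 2 * n), if_pos (by omega : b ≤ 2 * n)]
    split_ifs <;> first | rfl | (exfalso; omega)

end Pool.Agent.H603R2.EP
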