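import Pool.Agent.H603R2.EP.Local

/-!
# Propagation through tiles: kernel checks
-/

namespace Pool.Agent.H603R2.EP

abbrev LF : Type := List (ℕ × ℕ × ℕ)

def lanN : LF := [(17, 1, 0), (14, 4, 16), (11, 8, 16), (8, 2, 0), (5, 16, 76), (2, 96, 0)]
def lanP : LF := [(17, 1, 0), (14, 4, 16), (11, 8, 16), (8, 2, 0), (20, 16, 76), (23, 96, 0)]
def lanB : LF := [(2, 1, 0), (5, 4, 16), (8, 8, 16), (11, 2, 0), (14, 16, 76), (17, 96, 0)]
def lanX : LF := [(17, 1, 0), (14, 0, 16), (11, 0, 16), (8, 2, 0), (5, 16, 76), (2, 96, 0)]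
/-- `lanP` and `lanN` without the label 6 -/
def lanP' : LF := [(17, 1, 0), (14, 4, 16), (11, 8, 16), (8, 2, 0), (20, 16, 76), (23, 32, 0)]
def lanN' : LF := [(17, 1, 0), (14, 4, 16), (11, 8, 16), (8, 2, 0), (5, 16, 76), (2, 32, 0)]
def vdl : LF := [(5, 128, 0), (8, 256, 0), (11, 512, 0), (14, 1024, 0), (17, 2048, 0)]
def vul : LF := [(5, 2048, 0), (8, 1024, 0), (11, 512, 0), (14, 256, 0), (17, 128, 0)]
def zl : LF := [(20, 128, 0), (17, 256, 0), (14, 512, 0), (11, 1024, 0), (8, 2048, 0)]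
def ngl : LF := [(17, 0, 8064), (14, 0, 8064), (11, 0, 8064), (8, 0, 8064)]

def hF (x : ℕ) (l : LF) : List Fact := l.map fun f => (0, x, f.1, f.2.1, f.2.2)
def vF (y : ℕ) (l : LF) : List Fact := l.map fun f => (1, f.1, y, f.2.1, f.2.2)

def smallL (L : List Fact) : Bool := L.all fun f => Nat.blt f.1 2 && Nat.blt f.2.2.1 32

def runT (k : ℕ) (pr : ℕ × ℕ) (L : List Fact) : ℕ × ℕ :=
  run 27 24 (dir (DHt k)) (dir (DVt k)) (fun _ _ => 0) (fun _ _ => 0) pr.1 pr.2 (st0 L).1 (st0 L).2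

def runS (k : ℕ) (pr : ℕ × ℕ) (L : List Fact) : ℕ × ℕ :=
  run 27 24 (dir (DHt k)) (dir (DVt k)) (srM k) (skM k) pr.1 pr.2 (st0 L).1 (st0 L).2

def okT (k : ℕ) (pr : ℕ × ℕ) (L L' : List Fact) : Bool :=
  smallL L && (smallL L' && chk L' (runT k pr L))

def okS (k : ℕ) (pr : ℕ × ℕ) (L L' : List Fact) : Bool :=
  smallL L && (smallL L' && chk L' (runS k pr L))

def hp (k : ℕ) : ℕ × ℕ := HPL.getD k (0, 0)
def vp (k : ℕ) : ℕ × ℕ := VPL.getD k (0, 0)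

def BIk (k : ℕ) : List (ℕ × ℕ × ℕ) := BI 27 24 (dir (DHt k)) (dir (DVt k))
def BOk (k : ℕ) : List (ℕ × ℕ × ℕ) := BO 27 24 (dir (DHt k)) (dir (DVt k))

/-- region check, the label leaves the tile at a known edge -/
def rgO (k : ℕ) (pr : ℕ × ℕ) (L : List Fact) (ℓ : ℕ) (Os : List (ℕ × ℕ × ℕ)) : Bool :=
  smallL L && rchk (runT k pr L).1 (runT k pr L).2 ℓ (BOk k) (BIk k) Os

/-- region check, the label enters the tile at a known edge -/
def rgI (k : ℕ) (pr : ℕ × ℕ) (L : List Fact) (ℓ : ℕ) (Os : List (ℕ × ℕ × ℕ)) : Bool :=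
  smallL L && rchk (runT k pr L).1 (runT k pr L).2 ℓ (BIk k) (BOk k) Os

theorem small_of {L : List Fact} (h : smallL L = true) : ∀ f ∈ L, Small f := by
  intro f hf
  unfold smallL at h
  have := List.all_eq_true.1 h f hf
  rw [Bool.and_eq_true, Nat.blt_eq, Nat.blt_eq] at this
  exact this

variable {n m : ℕ} {var : ℕ → ℕ → ℕ} {Fl : ℕ → ℕ → ℕ → ℕ → Bool}

theorem run_tile (hc : Ctx n m var Fl) {σ ρ : ℕ} (hσ : σ < 2) (hρ : ρ < 6) {bx b k : ℕ}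
    (hbx : 1 ≤ bx) (hb : 1 ≤ b) (hk : KK n m var bx b = k) (hT : ¬ isT k) {L L' : List Fact}
    {pr : ℕ × ℕ} (hok : okT k pr L L' = true) (h : ∀ f ∈ L, Holds (loc Fl σ ρ bx b) f) :
    ∀ f ∈ L', Holds (loc Fl σ ρ bx b) f := by
  unfold okT at hok
  rw [Bool.and_eq_true, Bool.and_eq_true] at hok
  exact engine (loc_enm hc hσ hρ bx b) (by omega) (tile_cons0 hc hσ hρ hbx hb hk hT) _ _
    (small_of hok.1) (small_of hok.2.1) h hok.2.2

theorem run_tileS (hc : Ctx n m var Fl) {bx b k : ℕ}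
    (hbx : 1 ≤ bx) (hb : 1 ≤ b) (hk : KK n m var bx b = k) {L L' : List Fact}
    {pr : ℕ × ℕ} (hok : okS k pr L L' = true) (h : ∀ f ∈ L, Holds (loc Fl 0 0 bx b) f) :
    ∀ f ∈ L', Holds (loc Fl 0 0 bx b) f := by
  unfold okS at hok
  rw [Bool.and_eq_true, Bool.and_eq_true] at hok
  exact engine (loc_enm hc (by omega) (by omega) bx b) (by omega) (tile_cons1 hc hbx hb hk) _ _
    (small_of hok.1) (small_of hok.2.1) h hok.2.2

theorem reg_O (hc : Ctx n m var Fl) {σ ρ : ℕ} (hσ : σ < 2) (hρ : ρ < 6) {bx b k : ℕ}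
    (hbx : 1 ≤ bx) (hb : 1 ≤ b) (hk : KK n m var bx b = k) (hT : ¬ isT k) {L : List Fact}
    {pr : ℕ × ℕ} {ℓ : ℕ} {Os : List (ℕ × ℕ × ℕ)} (hℓ : ℓ < 13) (hok : rgO k pr L ℓ Os = true)
    (h : ∀ f ∈ L, Holds (loc Fl σ ρ bx b) f) :
    ∃ e ∈ Os, loc Fl σ ρ bx b ℓ e.1 e.2.1 e.2.2 = true := by
  unfold rgO at hok
  rw [Bool.and_eq_true] at hok
  have hcons := tile_cons0 hc hσ hρ hbx hb hk hT
  have hv := run_valid (loc_enm hc hσ hρ bx b) (h := 24) (by omega) hcons pr.1 pr.2 _ _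
    (valid_st0 (loc_enm hc hσ hρ bx b) (small_of hok.1) h)
  exact rchk_spec hℓ hv (region_sum' hcons hℓ).symm hok.2

theorem reg_I (hc : Ctx n m var Fl) {σ ρ : ℕ} (hσ : σ < 2) (hρ : ρ < 6) {bx b k : ℕ}
    (hbx : 1 ≤ bx) (hb : 1 ≤ b) (hk : KK n m var bx b = k) (hT : ¬ isT k) {L : List Fact}
    {pr : ℕ × ℕ} {ℓ : ℕ} {Os : List (ℕ × ℕ × ℕ)} (hℓ : ℓ < 13) (hok : rgI k pr L ℓ Os = true)
    (h : ∀ f ∈ L, Holds (loc Fl σ ρ bx b) f) :
    ∃ e ∈ Os, loc Fl σ ρ bx b ℓ e.1 e.2.1 e.2.2 = true := by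
  unfold rgI at hok
  rw [Bool.and_eq_true] at hok
  have hcons := tile_cons0 hc hσ hρ hbx hb hk hT
  have hv := run_valid (loc_enm hc hσ hρ bx b) (h := 24) (by omega) hcons pr.1 pr.2 _ _
    (valid_st0 (loc_enm hc hσ hρ bx b) (small_of hok.1) h)
  exact rchk_spec hℓ hv (region_sum' hcons hℓ) hok.2

/-! ### Checks for the horizontal lanes -/

theorem ck_HB : okT 1 (hp 1) (hF 0 lanN) (hF 27 lanN) = true := by decide +kernel
theorem ck_HBs : ∀ k, k = 2 ∨ k = 3 → okT k (hp k) (hF 0 lanN) (hF 27 lanX) = true ∧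
    rgI k (hp k) (hF 0 lanN) 2 [(0, 27, 14), (0, 27, 11)] = true ∧
    rgI k (hp k) (hF 0 lanN) 3 [(0, 27, 14), (0, 27, 11)] = true := by
  rintro k (rfl | rfl)
  · decide +kernel
  · decide +kernel
theorem ck_C1 : okT 4 (hp 4) (hF 0 lanN) (vF 0 lanN) = true := by decide +kernel
theorem ck_VBr : okT 5 (hp 5) (vF 24 lanN) (vF 0 lanN) = true := by decide +kernel
theorem ck_C2 : okT 6 (hp 6) (vF 24 lanN) (hF 0 lanB) = true := by decide +kernel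
theorem ck_HBb : okT 7 (hp 7) (hF 27 lanB) (hF 0 lanB) = true := by decide +kernel
theorem ck_C3 : okT 8 (hp 8) (hF 27 lanB) (vF 24 lanB) = true := by decide +kernel
theorem ck_VBl : okT 9 (hp 9) (vF 0 lanB) (vF 24 lanB) = true := by decide +kernel
theorem ck_C4 : okT 10 (hp 10) (vF 0 lanB) (hF 27 lanN) = true := by decide +kernel
theorem ck_HS : okS 11 (hp 11) [] (hF 27 lanN) = true := by decide +kernel

end Pool.Agent.H603R2.EP
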