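import Pool.Agent.H603R2.EP.Prop

/-!
# Kernel checks for the tiles in which the two bundles cross
-/

namespace Pool.Agent.H603R2.EP

def ckDH (k : ℕ) : Bool := okT k (hp k) (hF 0 lanN) (hF 27 lanP') &&
  rgO k (hp k) (hF 0 lanN) 6 [(0, 27, 23)]

def ckUH (k : ℕ) : Bool := okT k (hp k) (hF 0 lanP) (hF 27 lanN') &&
  rgO k (hp k) (hF 0 lanP) 6 [(0, 27, 2)]

/-- the fact found at a test -/
def tst (v : ℕ) : List Fact :=
  if v = 0 then [] else
    [(0, 8 + 3 * ((v - 1) / 2), if (v - 1) % 2 = 0 then 14 else 11,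
      (if (v - 1) % 2 = 0 then 4 else 8) ||| (256 <<< ((v - 1) / 2)), 0)]

def ckDV (v : ℕ) : Bool := okT (22 + v) (vp (22 + v))
  (hF 0 lanN ++ (hF 27 lanP ++ (vF 24 vdl ++ hF 27 ngl))) (vF 0 vdl ++ (hF 0 ngl ++ tst v))

theorem ckDH_all : ∀ v < 7, ckDH (22 + v) = true := by
  intro v hv
  interval_cases v
  · decide +kernel
  · decide +kernel
  · decide +kernel
  · decide +kernel
  · decide +kernel
  · decide +kernel
  · decide +kernel

theorem ckUH_U : ckUH 13 = true := by decide +kernel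
theorem ckUH_W : ckUH 14 = true := by decide +kernel

theorem ckDV_all : ∀ v < 7, ckDV v = true := by
  intro v hv
  interval_cases v
  · decide +kernel
  · decide +kernel
  · decide +kernel
  · decide +kernel
  · decide +kernel
  · decide +kernel
  · decide +kernel

theorem ck_UV : okT 13 (vp 13) (hF 0 lanP ++ (hF 27 lanN ++ (vF 0 vul ++ hF 27 ngl)))
    (vF 24 vul ++ hF 0 ngl) = true := by decide +kernel

theorem ck_TZU : okT 16 (vp 16) (vF 0 vul) (hF 0 zl) = true := by decide +kernel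
theorem ck_BZU : okT 19 (vp 19) (hF 27 zl) (vF 24 vul) = true := by decide +kernel
theorem ck_TZW : okS 17 (vp 17) [] (hF 0 zl ++ vF 0 [(11, 4096, 0)]) = true := by decide +kernel

theorem ck_TZD : okT 15 (vp 15) (hF 27 zl) (vF 0 [(5, 128, 0), (17, 2048, 0)]) = true ∧
    ∀ ℓ, 8 ≤ ℓ → ℓ < 11 → rgI 15 (vp 15) (hF 27 zl) ℓ [(1, 8, 0), (1, 11, 0), (1, 14, 0)] = true := by
  refine ⟨by decide +kernel, ?_⟩
  intro ℓ h1 h2
  interval_cases ℓ
  · decide +kernel
  · decide +kernel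
  · decide +kernel

theorem ck_BZD : okT 18 (vp 18) (vF 24 vdl) (hF 0 [(20, 128, 0), (8, 2048, 0)]) = true ∧
    ∀ ℓ, 8 ≤ ℓ → ℓ < 11 → rgI 18 (vp 18) (vF 24 vdl) ℓ [(0, 0, 17), (0, 0, 14), (0, 0, 11)] = true := by
  refine ⟨by decide +kernel, ?_⟩
  intro ℓ h1 h2
  interval_cases ℓ
  · decide +kernel
  · decide +kernel
  · decide +kernel

/-! ### The joint frame of the last downward column and the wall -/

def dhJ (k x y : ℕ) : ℕ := bif Nat.ble x 27 then dir (DHt k) x y else dir (DHt 14) (x - 27) y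
def dvJ (k x y : ℕ) : ℕ := bif Nat.ble x 27 then dir (DVt k) x y else dir (DVt 14) (x - 27) y

def runJ (k : ℕ) (pr : ℕ × ℕ) (L : List Fact) : ℕ × ℕ :=
  run 54 24 (dhJ k) (dvJ k) (fun _ _ => 0) (fun _ _ => 0) pr.1 pr.2 (st0 L).1 (st0 L).2

def okJ (k : ℕ) (pr : ℕ × ℕ) (L L' : List Fact) : Bool :=
  smallL L && (smallL L' && chk L' (runJ k pr L))

def ckJ (v : ℕ) : Bool := okJ (22 + v) (WPL.getD v (0, 0))
  (hF 0 lanN ++ (hF 27 lanP ++ (hF 54 lanN ++ (vF 24 vdl ++ vF 24 [(38, 4096, 0)]))))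
  (vF 0 vdl ++ (vF 0 [(38, 4096, 0)] ++ (hF 0 ngl ++ tst v)))

theorem ckJ_all : ∀ v < 7, ckJ v = true := by
  intro v hv
  interval_cases v
  · decide +kernel
  · decide +kernel
  · decide +kernel
  · decide +kernel
  · decide +kernel
  · decide +kernel
  · decide +kernel

end Pool.Agent.H603R2.EP
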