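import Pool.Agent.H603R2.EP.Equiv
import Pool.Agent.H673R2.Search

/-!
# The reduction is computable in polynomial time
-/

namespace Pool.Agent.H603R2.EP

open Pool.Agent.NPC

variable {α : Type} [TEnc α]

theorem p_sL {n m bx b : α → ℕ} (hn : NPC.Poly n) (hm : NPC.Poly m) (hbx : NPC.Poly bx)
    (hb : NPC.Poly b) : NPC.Poly (fun a => sL (n a) (m a) (bx a) (b a)) := by
  unfold sL
  repeat (first
    | with_reducible assumption | with_reducible exact NPC.Poly.const _
    | with_reducible apply NPC.Poly.ite | with_reducible apply NPC.Poly.decide_and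
    | with_reducible apply NPC.Poly.decide_lt | with_reducible apply NPC.Poly.decide_le
    | with_reducible apply NPC.Poly.decide_eq | with_reducible apply NPC.Poly.add
    | with_reducible apply NPC.Poly.sub | with_reducible apply NPC.Poly.mul
    | with_reducible apply NPC.Poly.div | with_reducible apply NPC.Poly.mod)

theorem p_sB {n m bx b : α → ℕ} (hn : NPC.Poly n) (hm : NPC.Poly m) (hbx : NPC.Poly bx)
    (hb : NPC.Poly b) : NPC.Poly (fun a => sB (n a) (m a) (bx a) (b a)) := by
  unfold sB
  repeat (first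
    | with_reducible assumption | with_reducible exact NPC.Poly.const _
    | with_reducible apply NPC.Poly.ite | with_reducible apply NPC.Poly.decide_and
    | with_reducible apply NPC.Poly.decide_lt | with_reducible apply NPC.Poly.decide_le
    | with_reducible apply NPC.Poly.decide_eq | with_reducible apply NPC.Poly.add
    | with_reducible apply NPC.Poly.sub | with_reducible apply NPC.Poly.mul
    | with_reducible apply NPC.Poly.div | with_reducible apply NPC.Poly.mod)

theorem p_quad {n m bx b : α → ℕ} (hn : NPC.Poly n) (hm : NPC.Poly m) (hbx : NPC.Poly bx)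
    (hb : NPC.Poly b) : NPC.Poly (fun a => quad (n a) (m a) (bx a) (b a)) := by
  have h1 := NPC.Poly.add hbx (NPC.Poly.const 1)
  have h2 := NPC.Poly.add hb (NPC.Poly.const 1)
  exact NPC.Poly.pair (p_sL hn hm hbx hb) (NPC.Poly.pair (p_sL hn hm h1 hb)
    (NPC.Poly.pair (p_sB hn hm hbx hb) (p_sB hn hm hbx h2)))

theorem p_tileOf {q : α → ℕ × ℕ × ℕ × ℕ} (hq : NPC.Poly q) : NPC.Poly (fun a => tileOf (q a)) := by
  refine (NPC.Poly.optCases (o := fun a => (SIGI.filter fun s => decide (s.1 = q a)).head?)
    (g := fun _ => (0 : ℕ)) (h := fun _ (s : (ℕ × ℕ × ℕ × ℕ) × ℕ) => s.2) ?_ (NPC.Poly.const 0)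
    (NPC.Poly.snd (NPC.Poly.snd NPC.Poly.id))).congr fun a => by
      unfold tileOf
      cases (SIGI.filter fun s => decide (s.1 = q a)).head? <;> rfl
  refine NPC.Poly.head? (NPC.Poly.filter (l := fun _ => SIGI)
    (p := fun a (s : (ℕ × ℕ × ℕ × ℕ) × ℕ) => decide (s.1 = q a)) (NPC.Poly.const SIGI) ?_)
  exact NPC.Poly.decide_eq (NPC.Poly.fst (NPC.Poly.snd NPC.Poly.id))
    (hq.comp (NPC.Poly.fst NPC.Poly.id))

theorem p_vC {c : α → Cls} {i : α → ℕ} (hc : NPC.Poly c) (hi : NPC.Poly i) :
    NPC.Poly (fun a => vC (c a) (i a)) := by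
  have h1 := NPC.Poly.fst (NPC.Poly.fst hc) (β := Bool)
  have h2 := NPC.Poly.snd (NPC.Poly.fst hc) (β := Bool)
  have h3 := NPC.Poly.fst (NPC.Poly.fst (NPC.Poly.snd hc)) (β := Bool)
  have h4 := NPC.Poly.snd (NPC.Poly.fst (NPC.Poly.snd hc)) (β := Bool)
  have h5 := NPC.Poly.fst (NPC.Poly.snd (NPC.Poly.snd hc)) (β := Bool)
  have h6 := NPC.Poly.snd (NPC.Poly.snd (NPC.Poly.snd hc)) (β := Bool)
  unfold vC
  refine NPC.Poly.ite (NPC.Poly.decide_eq h2 hi) (NPC.Poly.ite (NPC.Poly.decide_bool h1)
    (NPC.Poly.const 2) (NPC.Poly.const 1)) (NPC.Poly.ite (NPC.Poly.decide_eq h4 hi)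
    (NPC.Poly.ite (NPC.Poly.decide_bool h3) (NPC.Poly.const 4) (NPC.Poly.const 3))
    (NPC.Poly.ite (NPC.Poly.decide_eq h6 hi) (NPC.Poly.ite (NPC.Poly.decide_bool h5)
    (NPC.Poly.const 6) (NPC.Poly.const 5)) (NPC.Poly.const 0)))

theorem p_vr {n bx b : α → ℕ} {φ : α → List Cls} (hn : NPC.Poly n) (hφ : NPC.Poly φ)
    (hbx : NPC.Poly bx) (hb : NPC.Poly b) : NPC.Poly (fun a => vr (n a) (φ a) (bx a) (b a)) := by
  have h1 : NPC.Poly (fun a => (bx a - n a - 2) / 2) := by
    repeat (first
      | with_reducible assumption | with_reducible exact NPC.Poly.const _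
      | with_reducible apply NPC.Poly.ite | with_reducible apply NPC.Poly.decide_and
      | with_reducible apply NPC.Poly.decide_lt | with_reducible apply NPC.Poly.decide_le
      | with_reducible apply NPC.Poly.decide_eq | with_reducible apply NPC.Poly.add
      | with_reducible apply NPC.Poly.sub | with_reducible apply NPC.Poly.mul
      | with_reducible apply NPC.Poly.div | with_reducible apply NPC.Poly.mod)
  have h2 : NPC.Poly (fun a => b a - n a - 1) := by
    repeat (first
      | with_reducible assumption | with_reducible exact NPC.Poly.const _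
      | with_reducible apply NPC.Poly.ite | with_reducible apply NPC.Poly.decide_and
      | with_reducible apply NPC.Poly.decide_lt | with_reducible apply NPC.Poly.decide_le
      | with_reducible apply NPC.Poly.decide_eq | with_reducible apply NPC.Poly.add
      | with_reducible apply NPC.Poly.sub | with_reducible apply NPC.Poly.mul
      | with_reducible apply NPC.Poly.div | with_reducible apply NPC.Poly.mod)
  refine (NPC.Poly.optCases (o := fun a => (φ a)[(bx a - n a - 2) / 2]?) (g := fun _ => 0)
    (h := fun a c => vC c (b a - n a - 1)) (NPC.Poly.getElem? hφ h1) (NPC.Poly.const 0)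
    (p_vC (NPC.Poly.snd NPC.Poly.id) (h2.comp (NPC.Poly.fst NPC.Poly.id)))).congr fun a => ?_
  unfold vr
  cases (φ a)[(bx a - n a - 2) / 2]? <;> rfl

theorem p_KK {n m bx b : α → ℕ} {φ : α → List Cls} (hn : NPC.Poly n) (hm : NPC.Poly m)
    (hφ : NPC.Poly φ) (hbx : NPC.Poly bx) (hb : NPC.Poly b) :
    NPC.Poly (fun a => KK (n a) (m a) (vr (n a) (φ a)) (bx a) (b a)) := by
  have h1 := p_tileOf (p_quad hn hm hbx hb)
  exact NPC.Poly.ite (NPC.Poly.decide_eq h1 (NPC.Poly.const 22))
    (NPC.Poly.add (NPC.Poly.const 22) (p_vr hn hφ hbx hb)) h1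

/-- the directions as a table -/
def dirL (T : List ℕ) : List (List ℕ) :=
  T.map fun t => (List.range 900).map fun i => (t >>> (2 * i)) &&& 3

theorem dir_eq {T : List ℕ} {k x y : ℕ} (hk : k < T.length) (hx : x ≤ 27) (hy : y ≤ 24) :
    dir (T.getD k 0) x y = ((dirL T).getD k []).getD (x * 32 + y) 0 := by
  have h2 : (dirL T).getD k [] = (List.range 900).map fun i => (T[k] >>> (2 * i)) &&& 3 := by
    unfold dirL
    rw [List.getD_eq_getElem _ _ (by simpa using hk), List.getElem_map]
  have h3 : x * 32 + y < ((List.range 900).map fun i => (T[k] >>> (2 * i)) &&& 3).length := by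
    simp
    omega
  rw [h2, List.getD_eq_getElem _ _ h3, List.getElem_map, List.getElem_range,
    List.getD_eq_getElem _ _ hk]
  rfl

theorem p_hdir {n m X Y : α → ℕ} {φ : α → List Cls} (hn : NPC.Poly n) (hm : NPC.Poly m)
    (hφ : NPC.Poly φ) (hX : NPC.Poly X) (hY : NPC.Poly Y) :
    NPC.Poly (fun a => hdir (n a) (m a) (vr (n a) (φ a)) (X a) (Y a)) := by
  have h1 : NPC.Poly (fun a => X a / 27) := by
    repeat (first
      | with_reducible assumption | with_reducible exact NPC.Poly.const _
      | with_reducible apply NPC.Poly.ite | with_reducible apply NPC.Poly.decide_and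
      | with_reducible apply NPC.Poly.decide_lt | with_reducible apply NPC.Poly.decide_le
      | with_reducible apply NPC.Poly.decide_eq | with_reducible apply NPC.Poly.add
      | with_reducible apply NPC.Poly.sub | with_reducible apply NPC.Poly.mul
      | with_reducible apply NPC.Poly.div | with_reducible apply NPC.Poly.mod)
  have h2 : NPC.Poly (fun a => Y a / 24) := by
    repeat (first
      | with_reducible assumption | with_reducible exact NPC.Poly.const _
      | with_reducible apply NPC.Poly.ite | with_reducible apply NPC.Poly.decide_and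
      | with_reducible apply NPC.Poly.decide_lt | with_reducible apply NPC.Poly.decide_le
      | with_reducible apply NPC.Poly.decide_eq | with_reducible apply NPC.Poly.add
      | with_reducible apply NPC.Poly.sub | with_reducible apply NPC.Poly.mul
      | with_reducible apply NPC.Poly.div | with_reducible apply NPC.Poly.mod)
  have h3 : NPC.Poly (fun a => (X a % 27 + 1) * 32 + (Y a % 24 + 1)) := by
    repeat (first
      | with_reducible assumption | with_reducible exact NPC.Poly.const _
      | with_reducible apply NPC.Poly.ite | with_reducible apply NPC.Poly.decide_and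
      | with_reducible apply NPC.Poly.decide_lt | with_reducible apply NPC.Poly.decide_le
      | with_reducible apply NPC.Poly.decide_eq | with_reducible apply NPC.Poly.add
      | with_reducible apply NPC.Poly.sub | with_reducible apply NPC.Poly.mul
      | with_reducible apply NPC.Poly.div | with_reducible apply NPC.Poly.mod)
  refine (NPC.Poly.getD (NPC.Poly.getD (NPC.Poly.const (dirL DHT)) (p_KK hn hm hφ h1 h2)
    (NPC.Poly.const [])) h3 (NPC.Poly.const 0)).congr fun a => ?_
  unfold hdir DHt
  exact (dir_eq (lt_of_lt_of_le (KK_lt (vr_lt _ _) _ _) (le_of_eq rfl)) (by omega) (by omega)).symm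

theorem p_vdir {n m X Y : α → ℕ} {φ : α → List Cls} (hn : NPC.Poly n) (hm : NPC.Poly m)
    (hφ : NPC.Poly φ) (hX : NPC.Poly X) (hY : NPC.Poly Y) :
    NPC.Poly (fun a => vdir (n a) (m a) (vr (n a) (φ a)) (X a) (Y a)) := by
  have h1 : NPC.Poly (fun a => X a / 27) := by
    repeat (first
      | with_reducible assumption | with_reducible exact NPC.Poly.const _
      | with_reducible apply NPC.Poly.ite | with_reducible apply NPC.Poly.decide_and
      | with_reducible apply NPC.Poly.decide_lt | with_reducible apply NPC.Poly.decide_le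
      | with_reducible apply NPC.Poly.decide_eq | with_reducible apply NPC.Poly.add
      | with_reducible apply NPC.Poly.sub | with_reducible apply NPC.Poly.mul
      | with_reducible apply NPC.Poly.div | with_reducible apply NPC.Poly.mod)
  have h2 : NPC.Poly (fun a => Y a / 24) := by
    repeat (first
      | with_reducible assumption | with_reducible exact NPC.Poly.const _
      | with_reducible apply NPC.Poly.ite | with_reducible apply NPC.Poly.decide_and
      | with_reducible apply NPC.Poly.decide_lt | with_reducible apply NPC.Poly.decide_le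
      | with_reducible apply NPC.Poly.decide_eq | with_reducible apply NPC.Poly.add
      | with_reducible apply NPC.Poly.sub | with_reducible apply NPC.Poly.mul
      | with_reducible apply NPC.Poly.div | with_reducible apply NPC.Poly.mod)
  have h3 : NPC.Poly (fun a => (X a % 27 + 1) * 32 + (Y a % 24 + 1)) := by
    repeat (first
      | with_reducible assumption | with_reducible exact NPC.Poly.const _
      | with_reducible apply NPC.Poly.ite | with_reducible apply NPC.Poly.decide_and
      | with_reducible apply NPC.Poly.decide_lt | with_reducible apply NPC.Poly.decide_le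
      | with_reducible apply NPC.Poly.decide_eq | with_reducible apply NPC.Poly.add
      | with_reducible apply NPC.Poly.sub | with_reducible apply NPC.Poly.mul
      | with_reducible apply NPC.Poly.div | with_reducible apply NPC.Poly.mod)
  refine (NPC.Poly.getD (NPC.Poly.getD (NPC.Poly.const (dirL DVT)) (p_KK hn hm hφ h1 h2)
    (NPC.Poly.const [])) h3 (NPC.Poly.const 0)).congr fun a => ?_
  unfold vdir DVt
  exact (dir_eq (lt_of_lt_of_le (KK_lt (vr_lt _ _) _ _) (le_of_eq rfl)) (by omega) (by omega)).symm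

theorem p_BB {n : α → ℕ} (hn : NPC.Poly n) : NPC.Poly (fun a => BB (n a)) := by
  unfold BB
  repeat (first
    | with_reducible assumption | with_reducible exact NPC.Poly.const _
    | with_reducible apply NPC.Poly.ite | with_reducible apply NPC.Poly.decide_and
    | with_reducible apply NPC.Poly.decide_lt | with_reducible apply NPC.Poly.decide_le
    | with_reducible apply NPC.Poly.decide_eq | with_reducible apply NPC.Poly.add
    | with_reducible apply NPC.Poly.sub | with_reducible apply NPC.Poly.mul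
    | with_reducible apply NPC.Poly.div | with_reducible apply NPC.Poly.mod)

theorem p_AA {n m : α → ℕ} (hn : NPC.Poly n) (hm : NPC.Poly m) :
    NPC.Poly (fun a => AA (n a) (m a)) := by
  unfold AA
  repeat (first
    | with_reducible assumption | with_reducible exact NPC.Poly.const _
    | with_reducible apply NPC.Poly.ite | with_reducible apply NPC.Poly.decide_and
    | with_reducible apply NPC.Poly.decide_lt | with_reducible apply NPC.Poly.decide_le
    | with_reducible apply NPC.Poly.decide_eq | with_reducible apply NPC.Poly.add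
    | with_reducible apply NPC.Poly.sub | with_reducible apply NPC.Poly.mul
    | with_reducible apply NPC.Poly.div | with_reducible apply NPC.Poly.mod)

theorem p_pid {B X Y : α → ℕ} (hB : NPC.Poly B) (hX : NPC.Poly X) (hY : NPC.Poly Y) :
    NPC.Poly (fun a => pid (B a) (X a) (Y a)) := by
  unfold pid
  repeat (first
    | with_reducible assumption | with_reducible exact NPC.Poly.const _
    | with_reducible apply NPC.Poly.ite | with_reducible apply NPC.Poly.decide_and
    | with_reducible apply NPC.Poly.decide_lt | with_reducible apply NPC.Poly.decide_le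
    | with_reducible apply NPC.Poly.decide_eq | with_reducible apply NPC.Poly.add
    | with_reducible apply NPC.Poly.sub | with_reducible apply NPC.Poly.mul
    | with_reducible apply NPC.Poly.div | with_reducible apply NPC.Poly.mod)

/-- the arcs at a grid point -/
def pArc (n m : ℕ) (φ : List Cls) (X Y : ℕ) : List (ℕ × ℕ) :=
  hArc (BB n) (hdir n m (vr n φ)) X Y ++ vArc (BB n) (vdir n m (vr n φ)) X Y

theorem p_pArc {n m X Y : α → ℕ} {φ : α → List Cls} (hn : NPC.Poly n) (hm : NPC.Poly m)
    (hφ : NPC.Poly φ) (hX : NPC.Poly X) (hY : NPC.Poly Y) :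
    NPC.Poly (fun a => pArc (n a) (m a) (φ a) (X a) (Y a)) := by
  have hh := p_hdir hn hm hφ hX hY
  have hv := p_vdir hn hm hφ hX hY
  have h0 := p_pid (p_BB hn) hX hY
  have h1 := p_pid (p_BB hn) (NPC.Poly.add hX (NPC.Poly.const 1)) hY
  have h2 := p_pid (p_BB hn) hX (NPC.Poly.add hY (NPC.Poly.const 1))
  have e : NPC.Poly (fun _ : α => ([] : List (ℕ × ℕ))) := NPC.Poly.const _
  unfold pArc hArc vArc
  refine NPC.Poly.append ?_ ?_
  · exact NPC.Poly.ite (NPC.Poly.decide_eq hh (NPC.Poly.const 1)) (NPC.Poly.cons (NPC.Poly.pair h0 h1) e)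
      (NPC.Poly.ite (NPC.Poly.decide_eq hh (NPC.Poly.const 2)) (NPC.Poly.cons (NPC.Poly.pair h1 h0) e) e)
  · exact NPC.Poly.ite (NPC.Poly.decide_eq hv (NPC.Poly.const 1)) (NPC.Poly.cons (NPC.Poly.pair h0 h2) e)
      (NPC.Poly.ite (NPC.Poly.decide_eq hv (NPC.Poly.const 2)) (NPC.Poly.cons (NPC.Poly.pair h2 h0) e) e)

theorem u_n : UPoly (fun φ : List Cls => 3 * φ.length) :=
  UPoly.mul (UPoly.const 3) (UPoly.length NPC.Poly.id)

theorem u_m : UPoly (fun φ : List Cls => φ.length) := UPoly.length NPC.Poly.id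

theorem u_AA : UPoly (fun φ : List Cls => AA (3 * φ.length) φ.length) :=
  UPoly.mul (UPoly.const 27) (UPoly.add (UPoly.add (UPoly.mul (UPoly.const 2) u_n)
    (UPoly.mul (UPoly.const 2) u_m)) (UPoly.const 4))

theorem u_BB : UPoly (fun φ : List Cls => BB (3 * φ.length)) :=
  UPoly.mul (UPoly.const 24) (UPoly.add (UPoly.mul (UPoly.const 2) u_n) (UPoly.const 3))

theorem p_arcs : NPC.Poly (fun φ : List Cls => arcs (3 * φ.length) φ.length (vr (3 * φ.length) φ)) := by
  unfold arcs gArcs
  refine NPC.Poly.flatMap (F := fun (φ : List Cls) (X : ℕ) =>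
    (List.range (BB (3 * φ.length))).flatMap fun Y => pArc (3 * φ.length) φ.length φ X Y) u_AA.range ?_
  refine NPC.Poly.flatMap (F := fun (p : List Cls × ℕ) (Y : ℕ) =>
    pArc (3 * p.1.length) p.1.length p.1 p.2 Y) ((u_BB.comp (NPC.Poly.fst NPC.Poly.id)).range) ?_
  have hφ : NPC.Poly (fun p : (List Cls × ℕ) × ℕ => p.1.1) := NPC.Poly.fst (NPC.Poly.fst NPC.Poly.id)
  exact p_pArc (u_n.toPoly.comp hφ) (u_m.toPoly.comp hφ) hφ
    (NPC.Poly.snd (NPC.Poly.fst NPC.Poly.id)) (NPC.Poly.snd NPC.Poly.id)

theorem p_tpos {n m k : α → ℕ} (hn : NPC.Poly n) (hm : NPC.Poly m) (hk : NPC.Poly k) :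
    NPC.Poly (fun a => tpos (n a) (m a) (k a)) := by
  unfold tpos
  have c := fun (k : ℕ) => NPC.Poly.const (α := α) k
  have d := fun k₀ : ℕ => NPC.Poly.decide_eq hk (c k₀)
  have n1 := NPC.Poly.add hn (c 1)
  have n2 := NPC.Poly.mul (c 2) hn
  have m2 := NPC.Poly.mul (c 2) hm
  exact NPC.Poly.ite (d 11) (NPC.Poly.pair hn n1) (NPC.Poly.ite (d 12)
    (NPC.Poly.pair (NPC.Poly.add (NPC.Poly.add n2 m2) (c 2)) n2) (NPC.Poly.ite (d 17)
    (NPC.Poly.pair (NPC.Poly.add (NPC.Poly.add hn m2) (c 1)) (NPC.Poly.add n2 (c 1)))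
    (NPC.Poly.ite (d 20) (NPC.Poly.pair (NPC.Poly.add hn (c 2)) hn)
    (NPC.Poly.pair (NPC.Poly.add (NPC.Poly.add hn m2) (c 1)) hn))))

theorem p_ptOf {n m : α → ℕ} {e : α → ℕ × ℕ × ℕ} (hn : NPC.Poly n) (hm : NPC.Poly m)
    (he : NPC.Poly e) : NPC.Poly (fun a => ptOf (n a) (m a) (e a)) := by
  have h := p_tpos hn hm (NPC.Poly.fst he)
  exact NPC.Poly.pair
    (NPC.Poly.add (NPC.Poly.mul (NPC.Poly.const 27) (NPC.Poly.fst h)) (NPC.Poly.fst (NPC.Poly.snd he)))
    (NPC.Poly.add (NPC.Poly.mul (NPC.Poly.const 24) (NPC.Poly.snd h)) (NPC.Poly.snd (NPC.Poly.snd he)))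

theorem p_terms (k : ℕ) : NPC.Poly (fun φ : List Cls => terms (3 * φ.length) φ.length k) := by
  unfold terms
  refine NPC.Poly.append (NPC.Poly.map (F := fun (φ : List Cls) (ℓ : ℕ) =>
    (pid (BB (3 * φ.length)) (rT (3 * φ.length) φ.length ℓ).1 (rT (3 * φ.length) φ.length ℓ).2,
    pid (BB (3 * φ.length)) (sT (3 * φ.length) φ.length ℓ).1 (sT (3 * φ.length) φ.length ℓ).2))
    (NPC.Poly.const (List.range 13)) ?_) (NPC.Poly.const _)
  have hφ : NPC.Poly (fun p : List Cls × ℕ => p.1) := NPC.Poly.fst NPC.Poly.id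
  have hn := u_n.toPoly.comp hφ
  have hm := u_m.toPoly.comp hφ
  have hr := p_ptOf hn hm (NPC.Poly.getD (NPC.Poly.const srcK) (NPC.Poly.snd (NPC.Poly.id
    (α := List Cls × ℕ))) (NPC.Poly.const (0, 0, 0)))
  have hs := p_ptOf hn hm (NPC.Poly.getD (NPC.Poly.const snkK) (NPC.Poly.snd (NPC.Poly.id
    (α := List Cls × ℕ))) (NPC.Poly.const (0, 0, 0)))
  exact NPC.Poly.pair (p_pid (p_BB hn) (NPC.Poly.fst hr) (NPC.Poly.snd hr))
    (p_pid (p_BB hn) (NPC.Poly.fst hs) (NPC.Poly.snd hs))

/-- The instance of a formula. -/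
def inst (k : ℕ) (φ : List Cls) : ℕ × List (ℕ × ℕ) × List (ℕ × ℕ) × List (ℕ × ℕ) :=
  (AA (3 * φ.length) φ.length * BB (3 * φ.length),
    arcs (3 * φ.length) φ.length (vr (3 * φ.length) φ), terms (3 * φ.length) φ.length k, FF)

theorem p_inst (k : ℕ) : NPC.Poly (inst k) :=
  NPC.Poly.pair (NPC.Poly.mul u_AA.toPoly u_BB.toPoly)
    (NPC.Poly.pair p_arcs (NPC.Poly.pair (p_terms k) (NPC.Poly.const FF)))

end Pool.Agent.H603R2.EP
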