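import Pool.Agent.H603R2.EP.Engine

/-!
# Conservation over a rectangle
-/

namespace Pool.Agent.H603R2.EP

/-- edges of the boundary entering the rectangle -/
def BI (w h : ℕ) (dh dv : ℕ → ℕ → ℕ) : List (ℕ × ℕ × ℕ) :=
  (((List.range h).filter fun y => Nat.beq (dh 0 (y + 1)) 1).map fun y => (0, 0, y + 1)) ++
  (((List.range h).filter fun y => Nat.beq (dh w (y + 1)) 2).map fun y => (0, w, y + 1)) ++
  (((List.range w).filter fun x => Nat.beq (dv (x + 1) 0) 1).map fun x => (1, x + 1, 0)) ++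
  (((List.range w).filter fun x => Nat.beq (dv (x + 1) h) 2).map fun x => (1, x + 1, h))

/-- edges of the boundary leaving the rectangle -/
def BO (w h : ℕ) (dh dv : ℕ → ℕ → ℕ) : List (ℕ × ℕ × ℕ) :=
  (((List.range h).filter fun y => Nat.beq (dh 0 (y + 1)) 2).map fun y => (0, 0, y + 1)) ++
  (((List.range h).filter fun y => Nat.beq (dh w (y + 1)) 1).map fun y => (0, w, y + 1)) ++
  (((List.range w).filter fun x => Nat.beq (dv (x + 1) 0) 2).map fun x => (1, x + 1, 0)) ++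
  (((List.range w).filter fun x => Nat.beq (dv (x + 1) h) 1).map fun x => (1, x + 1, h))

/-- signed value -/
def sg (d : ℕ) (b : Bool) : ℤ := if d = 1 then (b.toNat : ℤ) else if d = 2 then -(b.toNat : ℤ) else 0

theorem sg_list (L : List ℕ) (d : ℕ → ℕ) (b : ℕ → Bool) :
    (L.map fun y => sg (d y) (b y)).sum =
      (((L.filter fun y => Nat.beq (d y) 1).map fun y => (b y).toNat).sum : ℤ) -
      (((L.filter fun y => Nat.beq (d y) 2).map fun y => (b y).toNat).sum : ℤ) := by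
  induction L with
  | nil => simp
  | cons a L ih =>
    rw [List.map_cons, List.sum_cons, ih, List.filter_cons, List.filter_cons]
    unfold sg
    simp only [Nat.beq_eq]
    by_cases h1 : d a = 1
    · have h2 : d a ≠ 2 := by omega
      rw [if_pos h1, if_pos h1, if_neg h2, List.map_cons, List.sum_cons]
      push_cast
      ring
    · by_cases h2 : d a = 2
      · rw [if_neg h1, if_pos h2, if_neg h1, if_pos h2, List.map_cons, List.sum_cons]
        push_cast
        ring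
      · rw [if_neg h1, if_neg h2, if_neg h1, if_neg h2]
        ring

theorem sum_range_list (n : ℕ) (f : ℕ → ℤ) : ∑ i ∈ Finset.range n, f i = ((List.range n).map f).sum :=
  rfl

theorem region_sum {g : ℕ → ℕ → ℕ → Bool} {w h : ℕ} {dh dv : ℕ → ℕ → ℕ}
    (hc : ∀ x y, 1 ≤ x → x ≤ w → 1 ≤ y → y ≤ h → inS dh dv g x y = outS dh dv g x y) :
    ((BI w h dh dv).map fun e => (g e.1 e.2.1 e.2.2).toNat).sum =
      ((BO w h dh dv).map fun e => (g e.1 e.2.1 e.2.2).toNat).sum := by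
  have h1 : ∀ x y, x < w → y < h →
      (sg (dh x (y + 1)) (g 0 x (y + 1)) - sg (dh (x + 1) (y + 1)) (g 0 (x + 1) (y + 1))) +
      (sg (dv (x + 1) y) (g 1 (x + 1) y) - sg (dv (x + 1) (y + 1)) (g 1 (x + 1) (y + 1))) = 0 := by
    intro x y hx hy
    have := hc (x + 1) (y + 1) (by omega) (by omega) (by omega) (by omega)
    unfold inS outS at this
    rw [Nat.add_sub_cancel, Nat.add_sub_cancel] at this
    have key1 : ∀ (d : ℕ) (b : Bool), (ci d b : ℤ) - co d b = sg d b := by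
      intro d b
      unfold ci co sg
      by_cases h1 : d = 1
      · have h2 : d ≠ 2 := by omega
        simp [h1]
      · by_cases h2 : d = 2
        · simp [h2]
        · simp [h1, h2]
    have key2 : ∀ (d : ℕ) (b : Bool), (ci (sw d) b : ℤ) - co (sw d) b = -sg d b := by
      intro d b
      unfold ci co sg
      simp only [sw_eq_one, sw_eq_two]
      by_cases h1 : d = 1
      · have h2 : d ≠ 2 := by omega
        simp [h1]
      · by_cases h2 : d = 2
        · simp [h2]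
        · simp [h1, h2]
    have e1 := key1 (dh x (y + 1)) (g 0 x (y + 1))
    have e2 := key2 (dh (x + 1) (y + 1)) (g 0 (x + 1) (y + 1))
    have e3 := key1 (dv (x + 1) y) (g 1 (x + 1) y)
    have e4 := key2 (dv (x + 1) (y + 1)) (g 1 (x + 1) (y + 1))
    have e5 : (ci (sw (dh (x + 1) (y + 1))) (g 0 (x + 1) (y + 1)) : ℤ) +
        ci (dh x (y + 1)) (g 0 x (y + 1)) + ci (sw (dv (x + 1) (y + 1))) (g 1 (x + 1) (y + 1)) +
        ci (dv (x + 1) y) (g 1 (x + 1) y) = co (sw (dh (x + 1) (y + 1))) (g 0 (x + 1) (y + 1)) +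
        co (dh x (y + 1)) (g 0 x (y + 1)) + co (sw (dv (x + 1) (y + 1))) (g 1 (x + 1) (y + 1)) +
        co (dv (x + 1) y) (g 1 (x + 1) y) := by exact_mod_cast this
    linarith
  have h2 : ∑ y ∈ Finset.range h, ∑ x ∈ Finset.range w,
      (sg (dh x (y + 1)) (g 0 x (y + 1)) - sg (dh (x + 1) (y + 1)) (g 0 (x + 1) (y + 1))) +
      ∑ x ∈ Finset.range w, ∑ y ∈ Finset.range h,
      (sg (dv (x + 1) y) (g 1 (x + 1) y) - sg (dv (x + 1) (y + 1)) (g 1 (x + 1) (y + 1))) = 0 := by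
    rw [Finset.sum_comm (s := Finset.range w), ← Finset.sum_add_distrib]
    refine Finset.sum_eq_zero fun y hy => ?_
    rw [← Finset.sum_add_distrib]
    refine Finset.sum_eq_zero fun x hx => ?_
    exact h1 x y (Finset.mem_range.1 hx) (Finset.mem_range.1 hy)
  have h3 : ∀ y, ∑ x ∈ Finset.range w,
      (sg (dh x (y + 1)) (g 0 x (y + 1)) - sg (dh (x + 1) (y + 1)) (g 0 (x + 1) (y + 1))) =
      sg (dh 0 (y + 1)) (g 0 0 (y + 1)) - sg (dh w (y + 1)) (g 0 w (y + 1)) := fun y =>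
    Finset.sum_range_sub' (fun x => sg (dh x (y + 1)) (g 0 x (y + 1))) w
  have h4 : ∀ x, ∑ y ∈ Finset.range h,
      (sg (dv (x + 1) y) (g 1 (x + 1) y) - sg (dv (x + 1) (y + 1)) (g 1 (x + 1) (y + 1))) =
      sg (dv (x + 1) 0) (g 1 (x + 1) 0) - sg (dv (x + 1) h) (g 1 (x + 1) h) := fun x =>
    Finset.sum_range_sub' (fun y => sg (dv (x + 1) y) (g 1 (x + 1) y)) h
  simp only [h3, h4, Finset.sum_sub_distrib] at h2
  simp only [sum_range_list] at h2
  rw [sg_list _ (fun y => dh 0 (y + 1)) (fun y => g 0 0 (y + 1)),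
    sg_list _ (fun y => dh w (y + 1)) (fun y => g 0 w (y + 1)),
    sg_list _ (fun x => dv (x + 1) 0) (fun x => g 1 (x + 1) 0),
    sg_list _ (fun x => dv (x + 1) h) (fun x => g 1 (x + 1) h)] at h2
  unfold BI BO
  simp only [List.map_append, List.sum_append, List.map_map, Function.comp_def]
  have h5 : ∀ (a b c d a' b' c' d' : ℕ), ((a : ℤ) - b - (c - d)) + ((a' : ℤ) - b' - (c' - d')) = 0 →
      a + d + a' + d' = b + c + b' + c' := by
    intros
    omega
  exact h5 _ _ _ _ _ _ _ _ h2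

/-- look up a label in a state -/
def bit (Y ℓ : ℕ) (e : ℕ × ℕ × ℕ) : Bool :=
  Nat.beq ((get Y (code e.1 e.2.1 e.2.2) >>> ℓ) &&& 1) 1

theorem bit_eq {Y ℓ : ℕ} {e : ℕ × ℕ × ℕ} (h : bit Y ℓ e = true) :
    (get Y (code e.1 e.2.1 e.2.2)).testBit ℓ = true := by
  unfold bit at h
  rw [Nat.beq_eq] at h
  rw [Nat.testBit, Nat.and_comm, h]
  rfl

def sm (e : ℕ × ℕ × ℕ) : Bool := Nat.blt e.1 2 && Nat.blt e.2.2 32

theorem exists_of_sum {α : Type} {f : α → Bool} {L : List α}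
    (h : 1 ≤ (L.map fun e => (f e).toNat).sum) : ∃ e ∈ L, f e = true := by
  by_contra hcon
  push Not at hcon
  have : (L.map fun e => (f e).toNat).sum = 0 := by
    apply List.sum_eq_zero
    intro x hx
    rw [List.mem_map] at hx
    obtain ⟨e, he, rfl⟩ := hx
    have := hcon e he
    simp [this]
  omega

theorem sum_of_exists {α : Type} {f : α → Bool} {L : List α} {e : α} (he : e ∈ L)
    (h : f e = true) : 1 ≤ (L.map fun e => (f e).toNat).sum := by
  have h1 : (f e).toNat ∈ L.map fun e => (f e).toNat := List.mem_map.2 ⟨e, he, rfl⟩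
  have h2 := List.single_le_sum (l := L.map fun e => (f e).toNat) (fun _ _ => Nat.zero_le _) _ h1
  rw [h] at h2
  exact h2

/-- the region rule, check -/
def rchk (Y N ℓ : ℕ) (known others Os : List (ℕ × ℕ × ℕ)) : Bool :=
  (known.any fun e => sm e && bit Y ℓ e) &&
    (others.all fun e => sm e && (bit N ℓ e || Os.any fun e' =>
      Nat.beq e.1 e'.1 && Nat.beq e.2.1 e'.2.1 && Nat.beq e.2.2 e'.2.2))

theorem rchk_spec {g : ℕ → ℕ → ℕ → ℕ → Bool} {Y N ℓ : ℕ} (hℓ : ℓ < 13) (hv : Valid g Y N)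
    {known others Os : List (ℕ × ℕ × ℕ)}
    (hs : (known.map fun e => (g ℓ e.1 e.2.1 e.2.2).toNat).sum =
      (others.map fun e => (g ℓ e.1 e.2.1 e.2.2).toNat).sum)
    (h : rchk Y N ℓ known others Os = true) : ∃ e ∈ Os, g ℓ e.1 e.2.1 e.2.2 = true := by
  unfold rchk at h
  rw [Bool.and_eq_true, List.any_eq_true, List.all_eq_true] at h
  obtain ⟨⟨e, he, he'⟩, h2⟩ := h
  rw [Bool.and_eq_true] at he'
  have hsm : ∀ e : ℕ × ℕ × ℕ, sm e = true → e.1 < 2 ∧ e.2.2 < 32 := by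
    intro e h
    unfold sm at h
    rw [Bool.and_eq_true, Nat.blt_eq, Nat.blt_eq] at h
    exact h
  have h3 : g ℓ e.1 e.2.1 e.2.2 = true := by
    obtain ⟨k1, k2⟩ := hsm e he'.1
    exact (hv e.1 k1 e.2.1 e.2.2 k2 ℓ hℓ).1 (bit_eq he'.2)
  have h4 := sum_of_exists (f := fun e : ℕ × ℕ × ℕ => g ℓ e.1 e.2.1 e.2.2) he h3
  rw [hs] at h4
  obtain ⟨e', he1, he2⟩ := exists_of_sum (f := fun e : ℕ × ℕ × ℕ => g ℓ e.1 e.2.1 e.2.2) h4
  have h5 := h2 e' he1
  rw [Bool.and_eq_true, Bool.or_eq_true, List.any_eq_true] at h5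
  obtain ⟨h6, h7 | ⟨e'', h7, h8⟩⟩ := h5
  · obtain ⟨k1, k2⟩ := hsm e' h6
    have := (hv e'.1 k1 e'.2.1 e'.2.2 k2 ℓ hℓ).2 (bit_eq h7)
    rw [this] at he2
    exact absurd he2 (by decide)
  · rw [Bool.and_eq_true, Bool.and_eq_true, Nat.beq_eq, Nat.beq_eq, Nat.beq_eq] at h8
    have : e' = e'' := Prod.ext h8.1.1 (Prod.ext h8.1.2 h8.2)
    rw [this] at he2
    exact ⟨e'', h7, he2⟩

/-- conservation at the vertices of a rectangle without terminals -/
theorem region_sum' {g : ℕ → ℕ → ℕ → ℕ → Bool} {w h : ℕ} {dh dv : ℕ → ℕ → ℕ}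
    (hc : ∀ x y, 1 ≤ x → x ≤ w → 1 ≤ y → y ≤ h → Cons g dh dv 0 0 x y) {ℓ : ℕ} (hℓ : ℓ < 13) :
    ((BI w h dh dv).map fun e => (g ℓ e.1 e.2.1 e.2.2).toNat).sum =
      ((BO w h dh dv).map fun e => (g ℓ e.1 e.2.1 e.2.2).toNat).sum := by
  refine region_sum (g := g ℓ) ?_
  intro x y h1 h2 h3 h4
  have := (hc x y h1 h2 h3 h4 ℓ hℓ).1
  simpa using this

end Pool.Agent.H603R2.EP
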