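import Pool.Agent.H603R2.EP.PropD
import Pool.Agent.H603R2.EP.Kinds

/-!
# The first bundle is forced
-/

namespace Pool.Agent.H603R2.EP

variable {n m : ℕ} {var : ℕ → ℕ → ℕ} {Fl : ℕ → ℕ → ℕ → ℕ → Bool}

/-! ### Changing the frame -/

theorem loc_right {σ ρ bx b ℓ o y : ℕ} (hbx : 1 ≤ bx) :
    loc Fl σ ρ bx b ℓ o 27 y = loc Fl σ ρ (bx + 1) b ℓ o 0 y := by
  unfold loc
  have : 27 * bx - 1 + 27 = 27 * (bx + 1) - 1 + 0 := by omega
  rw [this]

theorem loc_up {σ ρ bx b ℓ o x : ℕ} (hb : 1 ≤ b) :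
    loc Fl σ ρ bx b ℓ o x 24 = loc Fl σ ρ bx (b + 1) ℓ o x 0 := by
  unfold loc
  have : 24 * b - 1 + 24 = 24 * (b + 1) - 1 + 0 := by omega
  rw [this]

theorem hF_right {σ ρ bx b : ℕ} (hbx : 1 ≤ bx) {l : LF} :
    (∀ f ∈ hF 27 l, Holds (loc Fl σ ρ bx b) f) ↔ ∀ f ∈ hF 0 l, Holds (loc Fl σ ρ (bx + 1) b) f := by
  unfold hF Holds
  simp only [List.mem_map, forall_exists_index, and_imp, forall_apply_eq_imp_iff₂,
    loc_right hbx]

theorem vF_up {σ ρ bx b : ℕ} (hb : 1 ≤ b) {l : LF} :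
    (∀ f ∈ vF 24 l, Holds (loc Fl σ ρ bx b) f) ↔ ∀ f ∈ vF 0 l, Holds (loc Fl σ ρ bx (b + 1)) f := by
  unfold vF Holds
  simp only [List.mem_map, forall_exists_index, and_imp, forall_apply_eq_imp_iff₂,
    loc_up hb]

/-! ### Changing the orders -/

def symOK (σ ρ σ' ρ' m : ℕ) : Bool :=
  (List.range 13).all fun ℓ => !(m.testBit ℓ) || (List.range 13).any fun ℓ' =>
    m.testBit ℓ' && Nat.beq (pi σ ρ ℓ') (pi σ' ρ' ℓ)

def symL (σ ρ σ' ρ' : ℕ) (l : LF) : Bool :=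
  l.all fun f => symOK σ ρ σ' ρ' f.2.1 && symOK σ ρ σ' ρ' f.2.2

theorem symOK_spec {σ ρ σ' ρ' m : ℕ} (h : symOK σ ρ σ' ρ' m = true) {ℓ : ℕ} (hℓ : ℓ < 13)
    (hm : m.testBit ℓ = true) : ∃ ℓ' < 13, m.testBit ℓ' = true ∧ pi σ ρ ℓ' = pi σ' ρ' ℓ := by
  unfold symOK at h
  have h1 := List.all_eq_true.1 h ℓ (List.mem_range.2 hℓ)
  rw [hm, Bool.not_true, Bool.false_or, List.any_eq_true] at h1
  obtain ⟨ℓ', h2, h3⟩ := h1
  rw [Bool.and_eq_true, Nat.beq_eq] at h3
  exact ⟨ℓ', List.mem_range.1 h2, h3⟩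

theorem holds_conv {σ ρ σ' ρ' bx b : ℕ} {f : Fact} (h : Holds (loc Fl σ ρ bx b) f)
    (h1 : symOK σ ρ σ' ρ' f.2.2.2.1 = true) (h2 : symOK σ ρ σ' ρ' f.2.2.2.2 = true) :
    Holds (loc Fl σ' ρ' bx b) f := by
  intro ℓ hℓ
  constructor
  · intro hb
    obtain ⟨ℓ', h3, h4, h5⟩ := symOK_spec h1 hℓ hb
    have := (h ℓ' h3).1 h4
    unfold loc at this ⊢
    rw [← h5]
    exact this
  · intro hb
    obtain ⟨ℓ', h3, h4, h5⟩ := symOK_spec h2 hℓ hb
    have := (h ℓ' h3).2 h4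
    unfold loc at this ⊢
    rw [← h5]
    exact this

theorem hF_conv {σ ρ σ' ρ' bx b x : ℕ} {l : LF} (hs : symL σ ρ σ' ρ' l = true)
    (h : ∀ f ∈ hF x l, Holds (loc Fl σ ρ bx b) f) : ∀ f ∈ hF x l, Holds (loc Fl σ' ρ' bx b) f := by
  intro f hf
  unfold symL at hs
  rw [List.all_eq_true] at hs
  obtain ⟨g, hg, rfl⟩ := List.mem_map.1 hf
  have h1 := hs g hg
  rw [Bool.and_eq_true] at h1
  exact holds_conv (h _ hf) h1.1 h1.2

theorem vF_conv {σ ρ σ' ρ' bx b y : ℕ} {l : LF} (hs : symL σ ρ σ' ρ' l = true)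
    (h : ∀ f ∈ vF y l, Holds (loc Fl σ ρ bx b) f) : ∀ f ∈ vF y l, Holds (loc Fl σ' ρ' bx b) f := by
  intro f hf
  unfold symL at hs
  rw [List.all_eq_true] at hs
  obtain ⟨g, hg, rfl⟩ := List.mem_map.1 hf
  have h1 := hs g hg
  rw [Bool.and_eq_true] at h1
  exact holds_conv (h _ hf) h1.1 h1.2

theorem sym_X : ∀ σ < 2, ∀ σ' < 2, symL σ 0 σ' 0 lanX = true := by decide +kernel
theorem sym_N : ∀ σ < 2, ∀ ρ < 6, symL σ 0 σ ρ lanN = true := by decide +kernel
theorem sym_P : ∀ σ < 2, ∀ ρ < 6, symL σ 0 σ ρ lanP = true := by decide +kernel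

/-! ### States -/

/-- facts on the left boundary of the tile `(bx, b)` -/
def HSt (Fl : ℕ → ℕ → ℕ → ℕ → Bool) (σ bx b : ℕ) (l : LF) : Prop :=
  ∀ f ∈ hF 0 l, Holds (loc Fl σ 0 bx b) f

/-- facts on the bottom boundary of the tile `(bx, b)` -/
def VSt (Fl : ℕ → ℕ → ℕ → ℕ → Bool) (σ bx b : ℕ) (l : LF) : Prop :=
  ∀ f ∈ vF 0 l, Holds (loc Fl σ 0 bx b) f

theorem not_isT {k : ℕ} (h : k ≠ 11 ∧ k ≠ 12 ∧ k ≠ 17 ∧ k ≠ 20 ∧ k ≠ 21) : ¬ isT k := by
  unfold isT
  omega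

theorem step_HB (hc : Ctx n m var Fl) {σ bx b : ℕ} (hσ : σ < 2) (hbx : 1 ≤ bx) (hb : 1 ≤ b)
    (hk : KK n m var bx b = 1) (h : HSt Fl σ bx b lanN) : HSt Fl σ (bx + 1) b lanN :=
  (hF_right hbx).1 (run_tile hc hσ (by omega) hbx hb hk (not_isT (by omega)) ck_HB h)

theorem step_C1 (hc : Ctx n m var Fl) {σ bx b : ℕ} (hσ : σ < 2) (hbx : 1 ≤ bx) (hb : 1 ≤ b)
    (hk : KK n m var bx b = 4) (h : HSt Fl σ bx b lanN) : VSt Fl σ bx b lanN :=
  run_tile hc hσ (by omega) hbx hb hk (not_isT (by omega)) ck_C1 h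

theorem step_VBr (hc : Ctx n m var Fl) {σ bx b : ℕ} (hσ : σ < 2) (hbx : 1 ≤ bx) (hb : 1 ≤ b)
    (hk : KK n m var bx b = 5) (h : VSt Fl σ bx (b + 1) lanN) : VSt Fl σ bx b lanN :=
  run_tile hc hσ (by omega) hbx hb hk (not_isT (by omega)) ck_VBr ((vF_up hb).2 h)

theorem step_C2 (hc : Ctx n m var Fl) {σ bx b : ℕ} (hσ : σ < 2) (hbx : 1 ≤ bx) (hb : 1 ≤ b)
    (hk : KK n m var bx b = 6) (h : VSt Fl σ bx (b + 1) lanN) : HSt Fl σ bx b lanB :=
  run_tile hc hσ (by omega) hbx hb hk (not_isT (by omega)) ck_C2 ((vF_up hb).2 h)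

theorem step_HBb (hc : Ctx n m var Fl) {σ bx b : ℕ} (hσ : σ < 2) (hbx : 1 ≤ bx) (hb : 1 ≤ b)
    (hk : KK n m var bx b = 7) (h : HSt Fl σ (bx + 1) b lanB) : HSt Fl σ bx b lanB :=
  run_tile hc hσ (by omega) hbx hb hk (not_isT (by omega)) ck_HBb ((hF_right hbx).2 h)

theorem step_C3 (hc : Ctx n m var Fl) {σ bx b : ℕ} (hσ : σ < 2) (hbx : 1 ≤ bx) (hb : 1 ≤ b)
    (hk : KK n m var bx b = 8) (h : HSt Fl σ (bx + 1) b lanB) : VSt Fl σ bx (b + 1) lanB :=
  (vF_up hb).1 (run_tile hc hσ (by omega) hbx hb hk (not_isT (by omega)) ck_C3 ((hF_right hbx).2 h))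

theorem step_VBl (hc : Ctx n m var Fl) {σ bx b : ℕ} (hσ : σ < 2) (hbx : 1 ≤ bx) (hb : 1 ≤ b)
    (hk : KK n m var bx b = 9) (h : VSt Fl σ bx b lanB) : VSt Fl σ bx (b + 1) lanB :=
  (vF_up hb).1 (run_tile hc hσ (by omega) hbx hb hk (not_isT (by omega)) ck_VBl h)

theorem step_C4 (hc : Ctx n m var Fl) {σ bx b : ℕ} (hσ : σ < 2) (hbx : 1 ≤ bx) (hb : 1 ≤ b)
    (hk : KK n m var bx b = 10) (h : VSt Fl σ bx b lanB) : HSt Fl σ (bx + 1) b lanN :=
  (hF_right hbx).1 (run_tile hc hσ (by omega) hbx hb hk (not_isT (by omega)) ck_C4 h)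

theorem step_HS (hc : Ctx n m var Fl) {bx b : ℕ} (hbx : 1 ≤ bx) (hb : 1 ≤ b)
    (hk : KK n m var bx b = 11) : HSt Fl 0 (bx + 1) b lanN :=
  (hF_right hbx).1 (run_tileS hc hbx hb hk ck_HS (by simp))

/-- adding a label to a fact -/
theorem holds_add {g : ℕ → ℕ → ℕ → ℕ → Bool} {o x y a nm ℓ₀ a' : ℕ} (h : Holds g (o, x, y, a, nm))
    (h0 : g ℓ₀ o x y = true) (ha : ∀ ℓ < 13, a'.testBit ℓ = true → a.testBit ℓ = true ∨ ℓ = ℓ₀) :
    Holds g (o, x, y, a', nm) := by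
  intro ℓ hℓ
  refine ⟨fun hb => ?_, (h ℓ hℓ).2⟩
  rcases ha ℓ hℓ hb with h1 | h1
  · exact (h ℓ hℓ).1 h1
  · rw [h1]
    exact h0

theorem bit_4 : ∀ ℓ < 13, (4 : ℕ).testBit ℓ = true → (0 : ℕ).testBit ℓ = true ∨ ℓ = 2 := by
  decide +kernel
theorem bit_8 : ∀ ℓ < 13, (8 : ℕ).testBit ℓ = true → (0 : ℕ).testBit ℓ = true ∨ ℓ = 3 := by
  decide +kernel
theorem bit_96 : ∀ ℓ < 13, (96 : ℕ).testBit ℓ = true → (32 : ℕ).testBit ℓ = true ∨ ℓ = 6 := by
  decide +kernel

theorem lanN_of_X {g : ℕ → ℕ → ℕ → ℕ → Bool} {x : ℕ} (h : ∀ f ∈ hF x lanX, Holds g f)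
    (h2 : g 2 0 x 14 = true) (h3 : g 3 0 x 11 = true) : ∀ f ∈ hF x lanN, Holds g f := by
  unfold hF lanX at h
  unfold hF lanN
  simp only [List.map_cons, List.map_nil, List.mem_cons, List.not_mem_nil, or_false] at h ⊢
  intro f hf
  rcases hf with rfl | rfl | rfl | rfl | rfl | rfl
  · exact h _ (by simp)
  · exact holds_add (h (0, x, 14, 0, 16) (by simp)) h2 bit_4
  · exact holds_add (h (0, x, 11, 0, 16) (by simp)) h3 bit_8
  · exact h _ (by simp)
  · exact h _ (by simp)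
  · exact h _ (by simp)

/-- the exchange tiles -/
theorem step_swap (hc : Ctx n m var Fl) {σ bx b k : ℕ} (hσ : σ < 2) (hbx : 1 ≤ bx) (hb : 1 ≤ b)
    (hk : KK n m var bx b = k) (hk' : k = 2 ∨ k = 3) (h : HSt Fl σ bx b lanN) :
    ∃ σ' < 2, HSt Fl σ' (bx + 1) b lanN := by
  obtain ⟨c1, c2, c3⟩ := ck_HBs k hk'
  have hT : ¬ isT k := not_isT (by omega)
  have h1 := run_tile hc hσ (by omega) hbx hb hk hT c1 h
  obtain ⟨e2, he2, h2⟩ := reg_I hc hσ (by omega) hbx hb hk hT (by omega) c2 h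
  obtain ⟨e3, he3, h3⟩ := reg_I hc hσ (by omega) hbx hb hk hT (by omega) c3 h
  simp only [List.mem_cons, List.not_mem_nil, or_false] at he2 he3
  have hen : enB 2 3 = true := by decide
  have hen' := loc_enm hc hσ (ρ := 0) (by omega) bx b 2 3
  rcases he2 with rfl | rfl
  · rcases he3 with rfl | rfl
    · exfalso
      have := hen' _ _ _ hen h2
      rw [h3] at this
      exact absurd this (by decide)
    · exact ⟨σ, hσ, (hF_right hbx).1 (lanN_of_X h1 h2 h3)⟩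
  · rcases he3 with rfl | rfl
    · refine ⟨1 - σ, by omega, (hF_right hbx).1 (lanN_of_X (hF_conv (sym_X σ hσ (1 - σ)
        (by omega)) h1) ?_ ?_)⟩
      · have : pi (1 - σ) 0 2 = pi σ 0 3 := by interval_cases σ <;> decide
        unfold loc at h3 ⊢
        rw [this]
        exact h3
      · have : pi (1 - σ) 0 3 = pi σ 0 2 := by interval_cases σ <;> decide
        unfold loc at h2 ⊢
        rw [this]
        exact h2
    · exfalso
      have := hen' _ _ _ hen h2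
      rw [h3] at this
      exact absurd this (by decide)

theorem step_DH (hc : Ctx n m var Fl) {σ bx b : ℕ} (hσ : σ < 2) (hbx : 1 ≤ bx) (hb : 1 ≤ b)
    {v : ℕ} (hv : v < 7) (hk : KK n m var bx b = 22 + v)
    (h : HSt Fl σ bx b lanN) : HSt Fl σ (bx + 1) b lanP := by
  have hck := ckDH_all v hv
  unfold ckDH at hck
  rw [Bool.and_eq_true] at hck
  have hT : ¬ isT (22 + v) := not_isT (by omega)
  have h1 := run_tile hc hσ (by omega) hbx hb hk hT hck.1 h
  obtain ⟨e, he, h2⟩ := reg_O hc hσ (by omega) hbx hb hk hT (by omega) hck.2 h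
  simp only [List.mem_cons, List.not_mem_nil, or_false] at he
  subst he
  refine (hF_right hbx).1 ?_
  unfold hF lanP' at h1
  unfold hF lanP
  simp only [List.map_cons, List.map_nil, List.mem_cons, List.not_mem_nil, or_false] at h1 ⊢
  intro f hf
  rcases hf with rfl | rfl | rfl | rfl | rfl | rfl
  · exact h1 _ (by simp)
  · exact h1 _ (by simp)
  · exact h1 _ (by simp)
  · exact h1 _ (by simp)
  · exact h1 _ (by simp)
  · exact holds_add (h1 (0, 27, 23, 32, 0) (by simp)) h2 bit_96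

theorem step_UH (hc : Ctx n m var Fl) {σ bx b k : ℕ} (hσ : σ < 2) (hbx : 1 ≤ bx) (hb : 1 ≤ b)
    (hk : KK n m var bx b = k) (hk' : k = 13 ∨ k = 14)
    (h : HSt Fl σ bx b lanP) : HSt Fl σ (bx + 1) b lanN := by
  have hck : ckUH k = true := by
    rcases hk' with rfl | rfl
    · exact ckUH_U
    · exact ckUH_W
  unfold ckUH at hck
  rw [Bool.and_eq_true] at hck
  have hT : ¬ isT k := not_isT (by omega)
  have h1 := run_tile hc hσ (by omega) hbx hb hk hT hck.1 h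
  obtain ⟨e, he, h2⟩ := reg_O hc hσ (by omega) hbx hb hk hT (by omega) hck.2 h
  simp only [List.mem_cons, List.not_mem_nil, or_false] at he
  subst he
  refine (hF_right hbx).1 ?_
  unfold hF lanN' at h1
  unfold hF lanN
  simp only [List.map_cons, List.map_nil, List.mem_cons, List.not_mem_nil, or_false] at h1 ⊢
  intro f hf
  rcases hf with rfl | rfl | rfl | rfl | rfl | rfl
  · exact h1 _ (by simp)
  · exact h1 _ (by simp)
  · exact h1 _ (by simp)
  · exact h1 _ (by simp)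
  · exact h1 _ (by simp)
  · exact holds_add (h1 (0, 27, 2, 32, 0) (by simp)) h2 bit_96

/-! ### The rows -/

/-- the lanes at the columns of the core -/
def lan (t : ℕ) : LF := if t % 2 = 0 then lanN else lanP

theorem core_step (hc : Ctx n m var Fl) {σ b t : ℕ} (hσ : σ < 2) (h1 : n + 1 ≤ b) (h2 : b ≤ 2 * n)
    (ht : t < 2 * m) (h : HSt Fl σ (n + 2 + t) b (lan t)) : HSt Fl σ (n + 2 + (t + 1)) b (lan (t + 1)) := by
  rcases Nat.even_or_odd' t with ⟨j, rfl | rfl⟩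
  · have e1 : lan (2 * j) = lanN := by
      unfold lan
      rw [if_pos (by omega)]
    have e2 : lan (2 * j + 1) = lanP := by
      unfold lan
      rw [if_neg (by omega)]
    rw [e1] at h
    rw [e2]
    exact step_DH (bx := n + 2 + 2 * j) hc hσ (by omega) (by omega) (hc.hv _ _)
      (KK_D (by omega) h1 h2) h
  · have e1 : lan (2 * j + 1) = lanP := by
      unfold lan
      rw [if_neg (by omega)]
    have e2 : lan (2 * j + 1 + 1) = lanN := by
      unfold lan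
      rw [if_pos (by omega)]
    rw [e1] at h
    rw [e2]
    rcases Nat.eq_or_lt_of_le (show j + 1 ≤ m by omega) with h3 | h3
    · have e3 : n + 2 + (2 * j + 1) = n + 2 * m + 1 := by omega
      have hk := KK_W (var := var) hc.hm h1 h2
      rw [← e3] at hk
      exact step_UH (bx := n + 2 + (2 * j + 1)) hc hσ (by omega) (by omega) hk (Or.inr rfl) h
    · have e3 : n + 2 + (2 * j + 1) = n + 3 + 2 * j := by omega
      have hk := KK_U (n := n) (var := var) h3 h1 h2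
      rw [← e3] at hk
      exact step_UH (bx := n + 2 + (2 * j + 1)) hc hσ (by omega) (by omega) hk (Or.inl rfl) h

theorem core_row (hc : Ctx n m var Fl) {σ b : ℕ} (hσ : σ < 2) (h1 : n + 1 ≤ b) (h2 : b ≤ 2 * n)
    (h : HSt Fl σ (n + 2) b lanN) : ∀ t ≤ 2 * m, HSt Fl σ (n + 2 + t) b (lan t) := by
  intro t
  induction t with
  | zero =>
    intro _
    exact h
  | succ t ih =>
    intro ht
    exact core_step hc hσ h1 h2 (by omega) (ih (by omega))

/-- from the right end of a row to the left end of the next row -/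
theorem around (hc : Ctx n m var Fl) {σ i : ℕ} (hσ : σ < 2) (hi : i + 2 ≤ n)
    (h : HSt Fl σ (n + 2 * m + 3) (n + 1 + i) lanN) : HSt Fl σ (n + 1) (n + 2 + i) lanN := by
  have a1 : ∀ t ≤ i, HSt Fl σ (n + 2 * m + 3 + t) (n + 1 + i) lanN := by
    intro t
    induction t with
    | zero =>
      intro _
      exact h
    | succ t ih =>
      intro ht
      exact step_HB (bx := n + 2 * m + 3 + t) hc hσ (by omega) (by omega)
        (KK_HBr (by omega) (by omega)) (ih (by omega))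
  have a2 := step_C1 hc hσ (by omega) (by omega) (KK_C1 hi) (a1 i (le_refl i))
  have a3 : ∀ s ≤ 2 * i + 1, VSt Fl σ (n + 2 * m + 3 + i) (n + 1 + i - s) lanN := by
    intro s
    induction s with
    | zero =>
      intro _
      exact a2
    | succ s ih =>
      intro hs
      refine step_VBr hc hσ (by omega) (by omega) (KK_VBr hi (by omega) (by omega)) ?_
      have : n + 1 + i - (s + 1) + 1 = n + 1 + i - s := by omega
      rw [this]
      exact ih (by omega)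
  have a4 : HSt Fl σ (n + 2 * m + 3 + i) (n - 1 - i) lanB := by
    refine step_C2 hc hσ (by omega) (by omega) (KK_C2 hi) ?_
    have := a3 (2 * i + 1) (le_refl _)
    have e : n - 1 - i + 1 = n + 1 + i - (2 * i + 1) := by omega
    rw [e]
    exact this
  have a5 : ∀ s ≤ 2 * m + 3 + 2 * i, HSt Fl σ (n + 2 * m + 3 + i - s) (n - 1 - i) lanB := by
    intro s
    induction s with
    | zero =>
      intro _
      exact a4
    | succ s ih =>
      intro hs
      refine step_HBb hc hσ (by omega) (by omega) (KK_HBb hi (by omega) (by omega)) ?_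
      have : n + 2 * m + 3 + i - (s + 1) + 1 = n + 2 * m + 3 + i - s := by omega
      rw [this]
      exact ih (by omega)
  have a6 : VSt Fl σ (n - 1 - i) (n - 1 - i + 1) lanB := by
    refine step_C3 hc hσ (by omega) (by omega) (KK_C3 hi) ?_
    have := a5 (2 * m + 3 + 2 * i) (le_refl _)
    have e : n - 1 - i + 1 = n + 2 * m + 3 + i - (2 * m + 3 + 2 * i) := by omega
    rw [e]
    exact this
  have a7 : ∀ s ≤ 2 * i + 2, VSt Fl σ (n - 1 - i) (n - i + s) lanB := by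
    intro s
    induction s with
    | zero =>
      intro _
      have e : n - 1 - i + 1 = n - i + 0 := by omega
      rw [← e]
      exact a6
    | succ s ih =>
      intro hs
      exact step_VBl (b := n - i + s) hc hσ (by omega) (by omega)
        (KK_VBl hi (by omega) (by omega)) (ih (by omega))
  have a8 : HSt Fl σ (n - 1 - i + 1) (n + 2 + i) lanN := by
    refine step_C4 hc hσ (by omega) (by omega) (KK_C4 hi) ?_
    have := a7 (2 * i + 2) (le_refl _)
    have e : n + 2 + i = n - i + (2 * i + 2) := by omega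
    rw [e]
    exact this
  have a9 : ∀ s ≤ i + 1, HSt Fl σ (n - i + s) (n + 2 + i) lanN := by
    intro s
    induction s with
    | zero =>
      intro _
      have e : n - 1 - i + 1 = n - i + 0 := by omega
      rw [← e]
      exact a8
    | succ s ih =>
      intro hs
      exact step_HB (bx := n - i + s) hc hσ (by omega) (by omega)
        (KK_HBl hi (by omega) (by omega)) (ih (by omega))
  have e := a9 (i + 1) (le_refl _)
  have e' : n - i + (i + 1) = n + 1 := by omega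
  rw [e'] at e
  exact e

theorem row_in (hc : Ctx n m var Fl) : ∀ i < n, ∃ σ < 2, HSt Fl σ (n + 1) (n + 1 + i) lanN := by
  intro i
  induction i with
  | zero =>
    intro _
    refine ⟨0, by omega, step_HS hc hc.hn (by omega) ?_⟩
    exact KK_tpos hc.hn hc.hm (k := 11) (Or.inl rfl)
  | succ i ih =>
    intro hi
    obtain ⟨σ, hσ, h⟩ := ih (by omega)
    have hn := hc.hn
    obtain ⟨σ1, hσ1, h1⟩ := step_swap hc hσ (by omega) (by omega)
      (KK_HBs hc.hm (by omega) (by omega)) (Or.inl rfl) h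
    have h2 := core_row hc hσ1 (by omega) (by omega) h1 (2 * m) (le_refl _)
    have e : lan (2 * m) = lanN := by
      unfold lan
      rw [if_pos (by omega)]
    have e2 : n + 2 + 2 * m = n + 2 * m + 2 := by omega
    rw [e, e2] at h2
    obtain ⟨σ2, hσ2, h3⟩ := step_swap hc hσ1 (by omega) (by omega)
      (KK_HBe hc.hm (by omega) (by omega)) (Or.inr rfl) h2
    refine ⟨σ2, hσ2, ?_⟩
    have e3 : n + 1 + (i + 1) = n + 2 + i := by omega
    rw [e3]
    exact around hc hσ2 (by omega) h3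

/-- the first bundle is forced -/
theorem soundH (hc : Ctx n m var Fl) : ∃ σ : ℕ → ℕ, (∀ b, σ b < 2) ∧
    ∀ b, n + 1 ≤ b → b ≤ 2 * n → ∀ t ≤ 2 * m, HSt Fl (σ b) (n + 2 + t) b (lan t) := by
  have h : ∀ b, ∃ σ < 2, n + 1 ≤ b → b ≤ 2 * n → ∀ t ≤ 2 * m, HSt Fl σ (n + 2 + t) b (lan t) := by
    intro b
    by_cases hb : n + 1 ≤ b ∧ b ≤ 2 * n
    · obtain ⟨σ, hσ, h⟩ := row_in hc (b - (n + 1)) (by omega)
      have e : n + 1 + (b - (n + 1)) = b := by omega
      rw [e] at h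
      obtain ⟨σ1, hσ1, h1⟩ := step_swap hc hσ (by omega) (by omega)
        (KK_HBs hc.hm (by omega) (by omega)) (Or.inl rfl) h
      exact ⟨σ1, hσ1, fun _ _ => core_row hc hσ1 (by omega) (by omega) h1⟩
    · exact ⟨0, by omega, fun h1 h2 => absurd ⟨h1, h2⟩ hb⟩
  choose σ hσ h using h
  exact ⟨σ, hσ, h⟩

end Pool.Agent.H603R2.EP
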