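import Pool.Agent.H603R2.EP.SoundH

/-!
# The second bundle is forced
-/

namespace Pool.Agent.H603R2.EP

variable {n m : ℕ} {var : ℕ → ℕ → ℕ} {Fl : ℕ → ℕ → ℕ → ℕ → Bool}

theorem sym_V : ∀ σ < 2, ∀ ρ < 6, symL 0 ρ σ ρ vdl = true ∧ symL σ ρ 0 ρ vdl = true ∧
    symL 0 ρ σ ρ vul = true ∧ symL σ ρ 0 ρ vul = true := by decide +kernel
theorem sym_G : ∀ σ < 2, ∀ ρ < 6, symL 0 0 σ ρ ngl = true ∧ symL σ ρ 0 0 ngl = true := by
  decide +kernel
theorem sym_S : ∀ ρ < 6, ∀ ρ' < 6, symL 0 ρ 0 ρ' [(5, 128, 0), (17, 2048, 0)] = true ∧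
    symL 0 ρ 0 ρ' [(20, 128, 0), (8, 2048, 0)] = true := by decide +kernel
theorem sym_2 : ∀ σ < 2, ∀ ρ < 6, symL 0 0 σ ρ [(38, 4096, 0)] = true ∧
    symL σ ρ 0 0 [(38, 4096, 0)] = true := by decide +kernel

/-- facts about the second bundle on the bottom boundary of the tile `(bx, b)` -/
def WSt (Fl : ℕ → ℕ → ℕ → ℕ → Bool) (ρ bx b : ℕ) (l : LF) : Prop :=
  ∀ f ∈ vF 0 l, Holds (loc Fl 0 ρ bx b) f

/-- facts about the second bundle on the left boundary of the tile `(bx, b)` -/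
def ZSt (Fl : ℕ → ℕ → ℕ → ℕ → Bool) (ρ bx b : ℕ) (l : LF) : Prop :=
  ∀ f ∈ hF 0 l, Holds (loc Fl 0 ρ bx b) f

theorem forall_append {L L' : List Fact} {p : Fact → Prop} (h : ∀ f ∈ L, p f) (h' : ∀ f ∈ L', p f) :
    ∀ f ∈ L ++ L', p f := by
  intro f hf
  rcases List.mem_append.1 hf with h1 | h1
  · exact h f h1
  · exact h' f h1

theorem append_forall {L L' : List Fact} {p : Fact → Prop} (h : ∀ f ∈ L ++ L', p f) :
    (∀ f ∈ L, p f) ∧ ∀ f ∈ L', p f :=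
  ⟨fun f hf => h f (List.mem_append_left _ hf), fun f hf => h f (List.mem_append_right _ hf)⟩

/-- the conclusion drawn at a test -/
def Tst (σ ρ v : ℕ) : Prop := v ≠ 0 →
  ¬ (pi σ ρ (if (v - 1) % 2 = 0 then 2 else 3) = 2 ∧ pi σ ρ (8 + (v - 1) / 2) = 8)

theorem tst_bits : ∀ v < 7, v ≠ 0 →
    ((if (v - 1) % 2 = 0 then 4 else 8) ||| (256 <<< ((v - 1) / 2)) : ℕ).testBit
      (if (v - 1) % 2 = 0 then 2 else 3) = true ∧
    ((if (v - 1) % 2 = 0 then 4 else 8) ||| (256 <<< ((v - 1) / 2)) : ℕ).testBit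
      (8 + (v - 1) / 2) = true ∧ (if (v - 1) % 2 = 0 then 2 else 3) < 13 ∧
      8 + (v - 1) / 2 < 13 := by decide +kernel

theorem tst_of (hc : Ctx n m var Fl) {σ ρ bx b v : ℕ} (hv : v < 7)
    (h : ∀ f ∈ tst v, Holds (loc Fl σ ρ bx b) f) : Tst σ ρ v := by
  intro hv0
  rintro ⟨h1, h2⟩
  unfold tst at h
  rw [if_neg hv0] at h
  have h3 := h _ (List.mem_singleton.2 rfl)
  obtain ⟨b1, b2, b3, b4⟩ := tst_bits v hv hv0
  have h4 := (h3 _ b3).1 b1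
  have h5 := (h3 _ b4).1 b2
  unfold loc at h4 h5
  rw [h1] at h4
  rw [h2] at h5
  have := hc.pq _ _ _ h4
  dsimp only at this h5
  rw [h5] at this
  exact absurd this (by decide)

/-- no label of the second bundle crosses the left boundary of the tile `(bx, b)` backwards -/
def NGt (Fl : ℕ → ℕ → ℕ → ℕ → Bool) (bx b : ℕ) : Prop :=
  ∀ f ∈ hF 0 ngl, Holds (loc Fl 0 0 bx b) f

theorem hN_conv {σ ρ bx b : ℕ} (hσ : σ < 2) (hρ : ρ < 6) (h : HSt Fl σ bx b lanN) :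
    ∀ f ∈ hF 0 lanN, Holds (loc Fl σ ρ bx b) f := hF_conv (sym_N σ hσ ρ hρ) h
theorem hP_conv {σ ρ bx b : ℕ} (hσ : σ < 2) (hρ : ρ < 6) (h : HSt Fl σ bx b lanP) :
    ∀ f ∈ hF 0 lanP, Holds (loc Fl σ ρ bx b) f := hF_conv (sym_P σ hσ ρ hρ) h

theorem step_DV (hc : Ctx n m var Fl) {σ ρ bx b v : ℕ} (hσ : σ < 2) (hρ : ρ < 6) (hbx : 1 ≤ bx)
    (hb : 1 ≤ b) (hv : v < 7) (hk : KK n m var bx b = 22 + v)
    (h1 : HSt Fl σ bx b lanN) (h2 : HSt Fl σ (bx + 1) b lanP) (h3 : WSt Fl ρ bx (b + 1) vdl)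
    (h4 : NGt Fl (bx + 1) b) : WSt Fl ρ bx b vdl ∧ NGt Fl bx b ∧ Tst σ ρ v := by
  have hck := ckDV_all v hv
  unfold ckDV at hck
  have hT : ¬ isT (22 + v) := not_isT (by omega)
  have h := run_tile hc hσ hρ hbx hb hk hT hck (forall_append (hN_conv hσ hρ h1)
    (forall_append ((hF_right hbx).2 (hP_conv hσ hρ h2))
      (forall_append ((vF_up hb).2 (vF_conv (sym_V σ hσ ρ hρ).1 h3))
        ((hF_right hbx).2 (hF_conv (sym_G σ hσ ρ hρ).1 h4)))))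
  obtain ⟨k1, k2⟩ := append_forall h
  obtain ⟨k2, k3⟩ := append_forall k2
  exact ⟨vF_conv (sym_V σ hσ ρ hρ).2.1 k1, hF_conv (sym_G σ hσ ρ hρ).2 k2, tst_of hc hv k3⟩

theorem step_UV (hc : Ctx n m var Fl) {σ ρ bx b : ℕ} (hσ : σ < 2) (hρ : ρ < 6) (hbx : 1 ≤ bx)
    (hb : 1 ≤ b) (hk : KK n m var bx b = 13)
    (h1 : HSt Fl σ bx b lanP) (h2 : HSt Fl σ (bx + 1) b lanN) (h3 : WSt Fl ρ bx b vul)
    (h4 : NGt Fl (bx + 1) b) : WSt Fl ρ bx (b + 1) vul ∧ NGt Fl bx b := by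
  have hT : ¬ isT 13 := not_isT (by omega)
  have h := run_tile hc hσ hρ hbx hb hk hT ck_UV (forall_append (hP_conv hσ hρ h1)
    (forall_append ((hF_right hbx).2 (hN_conv hσ hρ h2))
      (forall_append (vF_conv (sym_V σ hσ ρ hρ).2.2.1 h3)
        ((hF_right hbx).2 (hF_conv (sym_G σ hσ ρ hρ).1 h4)))))
  obtain ⟨k1, k2⟩ := append_forall h
  exact ⟨(vF_up hb).1 (vF_conv (sym_V σ hσ ρ hρ).2.2.2 k1), hF_conv (sym_G σ hσ ρ hρ).2 k2⟩

theorem step_TZU (hc : Ctx n m var Fl) {ρ bx b : ℕ} (hρ : ρ < 6) (hbx : 1 ≤ bx)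
    (hb : 1 ≤ b) (hk : KK n m var bx b = 16) (h : WSt Fl ρ bx b vul) : ZSt Fl ρ bx b zl :=
  run_tile hc (by omega) hρ hbx hb hk (not_isT (by omega)) ck_TZU h

theorem step_BZU (hc : Ctx n m var Fl) {ρ bx b : ℕ} (hρ : ρ < 6) (hbx : 1 ≤ bx)
    (hb : 1 ≤ b) (hk : KK n m var bx b = 19) (h : ZSt Fl ρ (bx + 1) b zl) :
    WSt Fl ρ bx (b + 1) vul :=
  (vF_up hb).1 (run_tile hc (by omega) hρ hbx hb hk (not_isT (by omega)) ck_BZU ((hF_right hbx).2 h))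

theorem step_TZW (hc : Ctx n m var Fl) {bx b : ℕ} (hbx : 1 ≤ bx)
    (hb : 1 ≤ b) (hk : KK n m var bx b = 17) :
    ZSt Fl 0 bx b zl ∧ WSt Fl 0 bx b [(11, 4096, 0)] := by
  have h := run_tileS hc hbx hb hk ck_TZW (by simp)
  exact append_forall h

/-- three pairwise hostile labels on three edges -/
theorem perm_of {g : ℕ → Fin 3 → Bool} (h : ∀ ℓ, 8 ≤ ℓ → ℓ < 11 → ∃ i, g ℓ i = true)
    (he : ∀ ℓ ℓ', 8 ≤ ℓ → ℓ < 11 → 8 ≤ ℓ' → ℓ' < 11 → ℓ ≠ ℓ' → ∀ i, g ℓ i = true → g ℓ' i = false) :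
    ∃ ρ < 6, g (pi 0 ρ 8) 0 = true ∧ g (pi 0 ρ 9) 1 = true ∧ g (pi 0 ρ 10) 2 = true := by
  obtain ⟨i8, h8⟩ := h 8 (by omega) (by omega)
  obtain ⟨i9, h9⟩ := h 9 (by omega) (by omega)
  obtain ⟨i10, h10⟩ := h 10 (by omega) (by omega)
  have n1 : i8 ≠ i9 := by
    rintro rfl
    have := he 8 9 (by omega) (by omega) (by omega) (by omega) (by omega) _ h8
    rw [h9] at this
    exact absurd this (by decide)
  have n2 : i8 ≠ i10 := by
    rintro rfl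
    have := he 8 10 (by omega) (by omega) (by omega) (by omega) (by omega) _ h8
    rw [h10] at this
    exact absurd this (by decide)
  have n3 : i9 ≠ i10 := by
    rintro rfl
    have := he 9 10 (by omega) (by omega) (by omega) (by omega) (by omega) _ h9
    rw [h10] at this
    exact absurd this (by decide)
  have key : ∀ a b c : Fin 3, a ≠ b → a ≠ c → b ≠ c → ∃ ρ < 6,
      (∀ i : Fin 3, pi 0 ρ (8 + i) = if i = a then 8 else if i = b then 9 else 10) := by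
    decide +kernel
  obtain ⟨ρ, hρ, hk⟩ := key i8 i9 i10 n1 n2 n3
  have val : ∀ i : Fin 3, g (pi 0 ρ (8 + i)) i = true := by
    intro i
    rw [hk i]
    have tri : ∀ a b c i : Fin 3, a ≠ b → a ≠ c → b ≠ c → i = a ∨ i = b ∨ i = c := by
      decide +kernel
    have := tri i8 i9 i10 i n1 n2 n3
    rcases this with rfl | rfl | rfl
    · rw [if_pos rfl]
      exact h8
    · rw [if_neg (fun h => n1 h.symm), if_pos rfl]
      exact h9
    · rw [if_neg (fun h => n2 h.symm), if_neg (fun h => n3 h.symm)]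
      exact h10
  exact ⟨ρ, hρ, val 0, val 1, val 2⟩

theorem pi_surj : ∀ ρ < 6, ∀ ℓ < 11, 8 ≤ ℓ → ∃ s < 11, 8 ≤ s ∧ pi 0 ρ s = ℓ := by decide +kernel

theorem Q_enm : ∀ ℓ < 11, ∀ ℓ' < 11, 8 ≤ ℓ → 8 ≤ ℓ' → ℓ ≠ ℓ' → enB ℓ ℓ' = true := by decide +kernel

theorem bit_256 : ∀ ℓ < 13, (256 : ℕ).testBit ℓ = true → ℓ = 8 := by decide +kernel
theorem bit_512 : ∀ ℓ < 13, (512 : ℕ).testBit ℓ = true → ℓ = 9 := by decide +kernel
theorem bit_1024 : ∀ ℓ < 13, (1024 : ℕ).testBit ℓ = true → ℓ = 10 := by decide +kernel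

theorem holds_one {g : ℕ → ℕ → ℕ → ℕ → Bool} {o x y a ℓ₀ : ℕ} (h0 : g ℓ₀ o x y = true)
    (ha : ∀ ℓ < 13, a.testBit ℓ = true → ℓ = ℓ₀) : Holds g (o, x, y, a, 0) := by
  intro ℓ hℓ
  refine ⟨fun hb => ?_, fun hb => ?_⟩
  · rw [ha ℓ hℓ hb]
    exact h0
  · simp at hb

/-- the order of the tracks after an exchange -/
theorem perm_step (hc : Ctx n m var Fl) {ρ bx b : ℕ} (hρ : ρ < 6) (e : Fin 3 → ℕ × ℕ × ℕ)
    (h : ∀ s, 8 ≤ s → s < 11 → ∃ i, loc Fl 0 ρ bx b s (e i).1 (e i).2.1 (e i).2.2 = true) :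
    ∃ ρ' < 6, loc Fl 0 ρ' bx b 8 (e 0).1 (e 0).2.1 (e 0).2.2 = true ∧
      loc Fl 0 ρ' bx b 9 (e 1).1 (e 1).2.1 (e 1).2.2 = true ∧
      loc Fl 0 ρ' bx b 10 (e 2).1 (e 2).2.1 (e 2).2.2 = true := by
  obtain ⟨ρ', hρ', h1, h2, h3⟩ := perm_of
    (g := fun ℓ i => Fl ℓ (e i).1 (27 * bx - 1 + (e i).2.1) (24 * b - 1 + (e i).2.2)) (by
      intro ℓ h8 h11
      obtain ⟨s, hs, hs8, hs'⟩ := pi_surj ρ hρ ℓ h11 h8
      obtain ⟨i, hi⟩ := h s hs8 hs
      refine ⟨i, ?_⟩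
      unfold loc at hi
      rw [hs'] at hi
      exact hi) (by
      intro ℓ ℓ' h1 h2 h3 h4 hne i hi
      exact hc.enm ℓ ℓ' _ _ _ (Q_enm ℓ h2 ℓ' h4 h1 h3 hne) hi)
  exact ⟨ρ', hρ', h1, h2, h3⟩

theorem step_TZD (hc : Ctx n m var Fl) {ρ bx b : ℕ} (hρ : ρ < 6) (hbx : 1 ≤ bx)
    (hb : 1 ≤ b) (hk : KK n m var bx b = 15) (h : ZSt Fl ρ (bx + 1) b zl) :
    ∃ ρ' < 6, WSt Fl ρ' bx b vdl := by
  have hT : ¬ isT 15 := not_isT (by omega)
  have h0 := (hF_right hbx).2 h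
  have h1 := run_tile hc (by omega) hρ hbx hb hk hT ck_TZD.1 h0
  obtain ⟨ρ', hρ', h8, h9, h10⟩ := perm_step hc (bx := bx) (b := b) hρ
    (fun i => (1, 8 + 3 * i.val, 0)) (by
      intro s hs8 hs11
      obtain ⟨e, he, h2⟩ := reg_I hc (σ := 0) (by omega) hρ hbx hb hk hT (by omega)
        (ck_TZD.2 s hs8 hs11) h0
      simp only [List.mem_cons, List.not_mem_nil, or_false] at he
      rcases he with rfl | rfl | rfl
      · exact ⟨0, h2⟩
      · exact ⟨1, h2⟩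
      · exact ⟨2, h2⟩)
  refine ⟨ρ', hρ', ?_⟩
  have h2 := vF_conv (sym_S ρ hρ ρ' hρ').1 h1
  unfold WSt
  unfold vF vdl
  unfold vF at h2
  simp only [List.map_cons, List.map_nil, List.mem_cons, List.not_mem_nil, or_false] at h2 ⊢
  intro f hf
  rcases hf with rfl | rfl | rfl | rfl | rfl
  · exact h2 _ (by simp)
  · exact holds_one h8 bit_256
  · exact holds_one h9 bit_512
  · exact holds_one h10 bit_1024
  · exact h2 _ (by simp)

theorem step_BZD (hc : Ctx n m var Fl) {ρ bx b : ℕ} (hρ : ρ < 6) (hbx : 1 ≤ bx)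
    (hb : 1 ≤ b) (hk : KK n m var bx b = 18) (h : WSt Fl ρ bx (b + 1) vdl) :
    ∃ ρ' < 6, ZSt Fl ρ' bx b zl := by
  have hT : ¬ isT 18 := not_isT (by omega)
  have h0 := (vF_up hb).2 h
  have h1 := run_tile hc (by omega) hρ hbx hb hk hT ck_BZD.1 h0
  obtain ⟨ρ', hρ', h8, h9, h10⟩ := perm_step hc (bx := bx) (b := b) hρ
    (fun i => (0, 0, 17 - 3 * i.val)) (by
      intro s hs8 hs11
      obtain ⟨e, he, h2⟩ := reg_I hc (σ := 0) (by omega) hρ hbx hb hk hT (by omega)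
        (ck_BZD.2 s hs8 hs11) h0
      simp only [List.mem_cons, List.not_mem_nil, or_false] at he
      rcases he with rfl | rfl | rfl
      · exact ⟨0, h2⟩
      · exact ⟨1, h2⟩
      · exact ⟨2, h2⟩)
  refine ⟨ρ', hρ', ?_⟩
  have h2 := hF_conv (sym_S ρ hρ ρ' hρ').2 h1
  unfold ZSt
  unfold hF zl
  unfold hF at h2
  simp only [List.map_cons, List.map_nil, List.mem_cons, List.not_mem_nil, or_false] at h2 ⊢
  intro f hf
  rcases hf with rfl | rfl | rfl | rfl | rfl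
  · exact h2 _ (by simp)
  · exact holds_one h8 bit_256
  · exact holds_one h9 bit_512
  · exact holds_one h10 bit_1024
  · exact h2 _ (by simp)

/-! ### The joint frame -/

theorem joint_cons (hc : Ctx n m var Fl) {σ ρ bx b k : ℕ} (hσ : σ < 2) (hρ : ρ < 6) (hbx : 1 ≤ bx)
    (hb : 1 ≤ b) (hk : KK n m var bx b = k) (hT : ¬ isT k) (hk2 : KK n m var (bx + 1) b = 14) :
    ∀ x y, 1 ≤ x → x ≤ 54 → 1 ≤ y → y ≤ 24 →
      Cons (loc Fl σ ρ bx b) (dhJ k) (dvJ k) 0 0 x y := by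
  subst hk
  have hx' : ∀ x, 27 < x → 27 * bx - 1 + x = 27 * (bx + 1) - 1 + (x - 27) := by
    intro x hx
    omega
  refine loc_cons hc hσ hρ hbx hb (sr := fun _ _ => 0) (sk := fun _ _ => 0) ?_ ?_ ?_ ?_
  · intro x y hx hy1 hy
    unfold dhJ
    rw [Bool.cond_eq_ite]
    simp only [Nat.ble_eq]
    split_ifs with h
    · exact frame_h hc.hn hc.hm hc.hv hbx hb h hy1 hy
    · rw [hx' x (by omega), frame_h hc.hn hc.hm hc.hv (by omega) hb (by omega) hy1 hy, hk2]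
  · intro x y hx1 hx hy
    unfold dvJ
    rw [Bool.cond_eq_ite]
    simp only [Nat.ble_eq]
    split_ifs with h
    · exact frame_v hc.hn hc.hm hc.hv hbx hb hx1 h hy
    · rw [hx' x (by omega), frame_v hc.hn hc.hm hc.hv (by omega) hb (by omega) (by omega) hy, hk2]
  · intro x y hx1 hx hy1 hy ℓ hℓ
    rw [Nat.zero_testBit]
    refine ⟨fun h => absurd h (by decide), fun h => ?_⟩
    by_cases h1 : x ≤ 27
    · exact absurd h (not_rT hc (pi_lt σ hσ ρ hρ ℓ hℓ) hbx hb hx1 h1 hy1 hy hT)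
    · rw [hx' x (by omega)] at h
      exact absurd h (not_rT hc (pi_lt σ hσ ρ hρ ℓ hℓ) (by omega) hb (by omega) (by omega) hy1 hy
        (by rw [hk2]; exact not_isT (by omega)))
  · intro x y hx1 hx hy1 hy ℓ hℓ
    rw [Nat.zero_testBit]
    refine ⟨fun h => absurd h (by decide), fun h => ?_⟩
    by_cases h1 : x ≤ 27
    · exact absurd h (not_sT hc (pi_lt σ hσ ρ hρ ℓ hℓ) hbx hb hx1 h1 hy1 hy hT)
    · rw [hx' x (by omega)] at h
      exact absurd h (not_sT hc (pi_lt σ hσ ρ hρ ℓ hℓ) (by omega) hb (by omega) (by omega) hy1 hy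
        (by rw [hk2]; exact not_isT (by omega)))

theorem loc_54 {σ ρ bx b ℓ o y : ℕ} (hbx : 1 ≤ bx) :
    loc Fl σ ρ bx b ℓ o 54 y = loc Fl σ ρ (bx + 2) b ℓ o 0 y := by
  unfold loc
  have : 27 * bx - 1 + 54 = 27 * (bx + 2) - 1 + 0 := by omega
  rw [this]

theorem hF_54 {σ ρ bx b : ℕ} (hbx : 1 ≤ bx) {l : LF} :
    (∀ f ∈ hF 54 l, Holds (loc Fl σ ρ bx b) f) ↔ ∀ f ∈ hF 0 l, Holds (loc Fl σ ρ (bx + 2) b) f := by
  unfold hF Holds
  simp only [List.mem_map, forall_exists_index, and_imp, forall_apply_eq_imp_iff₂,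
    loc_54 hbx]

/-- facts about the wall, in the frame of the tile `(bx, b)` -/
def S2t (Fl : ℕ → ℕ → ℕ → ℕ → Bool) (bx b : ℕ) : Prop :=
  ∀ f ∈ vF 0 [(38, 4096, 0)], Holds (loc Fl 0 0 bx b) f

theorem s2_of {bx b : ℕ} (hbx : 1 ≤ bx) (h : WSt Fl 0 (bx + 1) b [(11, 4096, 0)]) : S2t Fl bx b := by
  intro f hf
  unfold vF at hf
  simp only [List.map_cons, List.map_nil, List.mem_cons, List.not_mem_nil, or_false] at hf
  subst hf
  have h1 := h (1, 11, 0, 4096, 0) (by simp [vF])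
  intro ℓ hℓ
  have h2 := h1 ℓ hℓ
  have e : loc Fl 0 0 bx b ℓ 1 38 0 = loc Fl 0 0 (bx + 1) b ℓ 1 11 0 := by
    unfold loc
    have : 27 * bx - 1 + 38 = 27 * (bx + 1) - 1 + 11 := by omega
    rw [this]
  dsimp only at h2 ⊢
  rw [e]
  exact h2

theorem step_JV (hc : Ctx n m var Fl) {σ ρ bx b v : ℕ} (hσ : σ < 2) (hρ : ρ < 6) (hbx : 1 ≤ bx)
    (hb : 1 ≤ b) (hv : v < 7) (hk : KK n m var bx b = 22 + v) (hk2 : KK n m var (bx + 1) b = 14)
    (h1 : HSt Fl σ bx b lanN) (h2 : HSt Fl σ (bx + 1) b lanP) (h2' : HSt Fl σ (bx + 2) b lanN)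
    (h3 : WSt Fl ρ bx (b + 1) vdl) (h4 : S2t Fl bx (b + 1)) :
    WSt Fl ρ bx b vdl ∧ S2t Fl bx b ∧ NGt Fl bx b ∧ Tst σ ρ v := by
  have hck := ckJ_all v hv
  unfold ckJ okJ at hck
  rw [Bool.and_eq_true, Bool.and_eq_true] at hck
  have hT : ¬ isT (22 + v) := not_isT (by omega)
  have h := engine (loc_enm hc hσ hρ bx b) (by omega) (joint_cons hc hσ hρ hbx hb hk hT hk2) _ _
    (small_of hck.1) (small_of hck.2.1) (forall_append (hN_conv hσ hρ h1)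
    (forall_append ((hF_right hbx).2 (hP_conv hσ hρ h2))
      (forall_append ((hF_54 hbx).2 (hN_conv hσ hρ h2'))
        (forall_append ((vF_up hb).2 (vF_conv (sym_V σ hσ ρ hρ).1 h3))
          ((vF_up hb).2 (vF_conv (sym_2 σ hσ ρ hρ).1 h4)))))) hck.2.2
  obtain ⟨k1, k2⟩ := append_forall h
  obtain ⟨k2, k3⟩ := append_forall k2
  obtain ⟨k3, k4⟩ := append_forall k3
  exact ⟨vF_conv (sym_V σ hσ ρ hρ).2.1 k1, vF_conv (sym_2 σ hσ ρ hρ).2 k2,
    hF_conv (sym_G σ hσ ρ hρ).2 k3, tst_of hc hv k4⟩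

/-! ### The columns -/

/-- the state of the downward column of clause `j` -/
def Col (n : ℕ) (var : ℕ → ℕ → ℕ) (Fl : ℕ → ℕ → ℕ → ℕ → Bool) (σ : ℕ → ℕ) (j : ℕ) : Prop :=
  ∃ ρ < 6, WSt Fl ρ (n + 2 + 2 * j) (n + 1) vdl ∧ ∀ b, n + 1 ≤ b → b ≤ 2 * n →
    NGt Fl (n + 2 + 2 * j) b ∧ Tst (σ b) ρ (var (n + 2 + 2 * j) b)

theorem col_last (hc : Ctx n m var Fl) {σ : ℕ → ℕ} (hσ : ∀ b, σ b < 2)
    (h : ∀ b, n + 1 ≤ b → b ≤ 2 * n → ∀ t ≤ 2 * m, HSt Fl (σ b) (n + 2 + t) b (lan t)) {j : ℕ}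
    (hj : j + 1 = m) : Col n var Fl σ j := by
  have hn := hc.hn
  have hW := step_TZW hc (bx := n + 2 * m + 1) (b := 2 * n + 1) (by omega) (by omega)
    (KK_tpos hc.hn hc.hm (k := 17) (Or.inr (Or.inr (Or.inl rfl))))
  have e1 : n + 2 * m + 1 = n + 2 + 2 * j + 1 := by omega
  rw [e1] at hW
  obtain ⟨ρ, hρ, hD⟩ := step_TZD hc (bx := n + 2 + 2 * j) (b := 2 * n + 1) (ρ := 0) (by omega)
    (by omega) (by omega) (KK_TZD hc.hn (by omega)) hW.1
  have hS := s2_of (bx := n + 2 + 2 * j) (by omega) hW.2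
  have key : ∀ b, n + 1 ≤ b → b ≤ 2 * n → WSt Fl ρ (n + 2 + 2 * j) (b + 1) vdl →
      S2t Fl (n + 2 + 2 * j) (b + 1) → WSt Fl ρ (n + 2 + 2 * j) b vdl ∧
      S2t Fl (n + 2 + 2 * j) b ∧ NGt Fl (n + 2 + 2 * j) b ∧
      Tst (σ b) ρ (var (n + 2 + 2 * j) b) := by
    intro b h1 h2 h3 h4
    have e3 : n + 2 + 2 * j + 1 = n + 2 * m + 1 := by omega
    have k1 := h b h1 h2 (2 * j) (by omega)
    have k2 := h b h1 h2 (2 * j + 1) (by omega)
    have k3 := h b h1 h2 (2 * j + 2) (by omega)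
    have l1 : lan (2 * j) = lanN := by unfold lan; rw [if_pos (by omega)]
    have l2 : lan (2 * j + 1) = lanP := by unfold lan; rw [if_neg (by omega)]
    have l3 : lan (2 * j + 2) = lanN := by unfold lan; rw [if_pos (by omega)]
    rw [l1] at k1
    rw [l2] at k2
    rw [l3] at k3
    refine step_JV hc (hσ b) hρ (by omega) (by omega) (hc.hv _ _) (KK_D (by omega) h1 h2) ?_
      k1 k2 k3 h3 h4
    rw [e3]
    exact KK_W hc.hm h1 h2
  have all : ∀ s ≤ n, WSt Fl ρ (n + 2 + 2 * j) (2 * n + 1 - s) vdl ∧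
      S2t Fl (n + 2 + 2 * j) (2 * n + 1 - s) := by
    intro s
    induction s with
    | zero =>
      intro _
      exact ⟨hD, hS⟩
    | succ s ih =>
      intro hs
      obtain ⟨h1, h2⟩ := ih (by omega)
      have e : 2 * n + 1 - s = 2 * n + 1 - (s + 1) + 1 := by omega
      rw [e] at h1 h2
      obtain ⟨k1, k2, _⟩ := key _ (by omega) (by omega) h1 h2
      exact ⟨k1, k2⟩
  refine ⟨ρ, hρ, ?_, ?_⟩
  · have := (all n (le_refl n)).1
    have e : 2 * n + 1 - n = n + 1 := by omega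
    rw [e] at this
    exact this
  · intro b h1 h2
    obtain ⟨k1, k2⟩ := all (2 * n - b) (by omega)
    have e : 2 * n + 1 - (2 * n - b) = b + 1 := by omega
    rw [e] at k1 k2
    exact (key b h1 h2 k1 k2).2.2

theorem col_step (hc : Ctx n m var Fl) {σ : ℕ → ℕ} (hσ : ∀ b, σ b < 2)
    (h : ∀ b, n + 1 ≤ b → b ≤ 2 * n → ∀ t ≤ 2 * m, HSt Fl (σ b) (n + 2 + t) b (lan t)) {j : ℕ}
    (hj : j + 1 < m) (hcol : Col n var Fl σ (j + 1)) : Col n var Fl σ j := by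
  have hn := hc.hn
  obtain ⟨ρ0, hρ0, hv0, hr0⟩ := hcol
  have e0 : n + 2 + 2 * (j + 1) = n + 4 + 2 * j := by omega
  rw [e0] at hv0 hr0
  obtain ⟨ρ1, hρ1, hz⟩ := step_BZD hc hρ0 (by omega) (by omega) (KK_BZD hc.hn hj) hv0
  have hu0 := step_BZU hc (bx := n + 3 + 2 * j) hρ1 (by omega) (by omega) (KK_BZU hc.hn hj)
    (by
      have e : n + 3 + 2 * j + 1 = n + 4 + 2 * j := by omega
      rw [e]
      exact hz)
  have l1 : lan (2 * j) = lanN := by unfold lan; rw [if_pos (by omega)]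
  have l2 : lan (2 * j + 1) = lanP := by unfold lan; rw [if_neg (by omega)]
  have l3 : lan (2 * j + 2) = lanN := by unfold lan; rw [if_pos (by omega)]
  have keyU : ∀ b, n + 1 ≤ b → b ≤ 2 * n → WSt Fl ρ1 (n + 3 + 2 * j) b vul →
      WSt Fl ρ1 (n + 3 + 2 * j) (b + 1) vul ∧ NGt Fl (n + 3 + 2 * j) b := by
    intro b h1 h2 h3
    have k2 := h b h1 h2 (2 * j + 1) (by omega)
    have k3 := h b h1 h2 (2 * j + 2) (by omega)
    rw [l2] at k2
    rw [l3] at k3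
    have e2 : n + 2 + (2 * j + 1) = n + 3 + 2 * j := by omega
    have e3 : n + 2 + (2 * j + 2) = n + 3 + 2 * j + 1 := by omega
    rw [e2] at k2
    rw [e3] at k3
    refine step_UV hc (hσ b) hρ1 (by omega) (by omega) (KK_U hj h1 h2) k2 k3 h3 ?_
    have e : n + 3 + 2 * j + 1 = n + 4 + 2 * j := by omega
    rw [e]
    exact (hr0 b h1 h2).1
  have allU : ∀ s ≤ n, WSt Fl ρ1 (n + 3 + 2 * j) (n + 1 + s) vul := by
    intro s
    induction s with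
    | zero =>
      intro _
      exact hu0
    | succ s ih =>
      intro hs
      have := (keyU (n + 1 + s) (by omega) (by omega) (ih (by omega))).1
      exact this
  have hng : ∀ b, n + 1 ≤ b → b ≤ 2 * n → NGt Fl (n + 3 + 2 * j) b := by
    intro b h1 h2
    have := allU (b - (n + 1)) (by omega)
    have e : n + 1 + (b - (n + 1)) = b := by omega
    rw [e] at this
    exact (keyU b h1 h2 this).2
  have hzu : ZSt Fl ρ1 (n + 3 + 2 * j) (2 * n + 1) zl := by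
    have := allU n (le_refl n)
    have e : n + 1 + n = 2 * n + 1 := by omega
    rw [e] at this
    exact step_TZU hc hρ1 (by omega) (by omega) (KK_TZU hc.hn hj) this
  obtain ⟨ρ, hρ, hD⟩ := step_TZD hc (bx := n + 2 + 2 * j) (b := 2 * n + 1) hρ1
    (by omega) (by omega) (KK_TZD hc.hn (by omega)) (by
      have e : n + 2 + 2 * j + 1 = n + 3 + 2 * j := by omega
      rw [e]
      exact hzu)
  have keyD : ∀ b, n + 1 ≤ b → b ≤ 2 * n → WSt Fl ρ (n + 2 + 2 * j) (b + 1) vdl →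
      WSt Fl ρ (n + 2 + 2 * j) b vdl ∧ NGt Fl (n + 2 + 2 * j) b ∧
      Tst (σ b) ρ (var (n + 2 + 2 * j) b) := by
    intro b h1 h2 h3
    have k1 := h b h1 h2 (2 * j) (by omega)
    have k2 := h b h1 h2 (2 * j + 1) (by omega)
    rw [l1] at k1
    rw [l2] at k2
    refine step_DV hc (hσ b) hρ (by omega) (by omega) (hc.hv _ _) (KK_D (by omega) h1 h2) k1 k2 h3 ?_
    have e : n + 2 + 2 * j + 1 = n + 3 + 2 * j := by omega
    rw [e]
    exact hng b h1 h2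
  have all : ∀ s ≤ n, WSt Fl ρ (n + 2 + 2 * j) (2 * n + 1 - s) vdl := by
    intro s
    induction s with
    | zero =>
      intro _
      exact hD
    | succ s ih =>
      intro hs
      have h1 := ih (by omega)
      have e : 2 * n + 1 - s = 2 * n + 1 - (s + 1) + 1 := by omega
      rw [e] at h1
      exact (keyD _ (by omega) (by omega) h1).1
  refine ⟨ρ, hρ, ?_, ?_⟩
  · have := all n (le_refl n)
    have e : 2 * n + 1 - n = n + 1 := by omega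
    rw [e] at this
    exact this
  · intro b h1 h2
    have k1 := all (2 * n - b) (by omega)
    have e : 2 * n + 1 - (2 * n - b) = b + 1 := by omega
    rw [e] at k1
    exact (keyD b h1 h2 k1).2

theorem find_slot : ∀ ρ < 6, ∃ k < 3, ∀ σ < 2, pi σ ρ (8 + k) = 8 := by decide +kernel

theorem div_even (k : ℕ) : (1 + 2 * k - 1) / 2 = k ∧ (1 + 2 * k - 1) % 2 = 0 ∧
    (2 + 2 * k - 1) / 2 = k ∧ (2 + 2 * k - 1) % 2 = 1 := by omega

/-- A solution gives a satisfying assignment. -/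
theorem sound (hc : Ctx n m var Fl) : ∃ σ : ℕ → ℕ, (∀ b, σ b < 2) ∧ ∀ j < m, ∃ k < 3,
    ∀ b, n + 1 ≤ b → b ≤ 2 * n → (var (n + 2 + 2 * j) b = 1 + 2 * k → σ b = 1) ∧
      (var (n + 2 + 2 * j) b = 2 + 2 * k → σ b = 0) := by
  obtain ⟨σ, hσ, h⟩ := soundH hc
  refine ⟨σ, hσ, ?_⟩
  have hcol : ∀ s < m, Col n var Fl σ (m - 1 - s) := by
    intro s
    induction s with
    | zero =>
      intro hs
      exact col_last hc hσ h (by omega)
    | succ s ih =>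
      intro hs
      refine col_step hc hσ h (by omega) ?_
      have e : m - 1 - (s + 1) + 1 = m - 1 - s := by omega
      rw [e]
      exact ih (by omega)
  intro j hj
  have hj' := hcol (m - 1 - j) (by omega)
  have e : m - 1 - (m - 1 - j) = j := by omega
  rw [e] at hj'
  obtain ⟨ρ, hρ, _, hr⟩ := hj'
  obtain ⟨k, hk, hk'⟩ := find_slot ρ hρ
  refine ⟨k, hk, ?_⟩
  intro b h1 h2
  have ht := (hr b h1 h2).2
  obtain ⟨d1, d2, d3, d4⟩ := div_even k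
  have hs2 := hσ b
  constructor
  · intro hv
    rw [hv] at ht
    unfold Tst at ht
    rw [if_pos d2, d1] at ht
    by_contra hcon
    have h0 : σ b = 0 := by omega
    exact ht (by omega) ⟨by rw [h0]; rfl, hk' _ (hσ b)⟩
  · intro hv
    rw [hv] at ht
    unfold Tst at ht
    rw [if_neg (by omega), d3] at ht
    by_contra hcon
    have h0 : σ b = 1 := by omega
    exact ht (by omega) ⟨by rw [h0]; rfl, hk' _ (hσ b)⟩

end Pool.Agent.H603R2.EP
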