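import Pool.Agent.H603R2.EP.Frame

/-!
# The terminals
-/

namespace Pool.Agent.H603R2.EP

/-! ### Terminals -/

/-- sources: tile, local coordinates -/
def srcK : List (ℕ × ℕ × ℕ) := [(11, 25, 16), (11, 25, 7), (11, 25, 13), (11, 25, 10), (12, 0, 4),
  (12, 0, 1), (12, 1, 1), (17, 1, 19), (17, 1, 16), (17, 1, 13), (17, 1, 10), (17, 1, 7), (21, 10, 22)]

/-- sinks: tile, local coordinates -/
def snkK : List (ℕ × ℕ × ℕ) := [(12, 0, 16), (12, 0, 7), (12, 0, 13), (12, 0, 10), (11, 25, 4),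
  (11, 25, 1), (11, 24, 1), (20, 4, 22), (20, 5, 16), (20, 5, 13), (20, 5, 10), (20, 16, 22), (17, 10, 1)]

/-- positions of the tiles that contain terminals -/
def tpos (n m k : ℕ) : ℕ × ℕ :=
  if k = 11 then (n, n + 1) else if k = 12 then (2 * n + 2 * m + 2, 2 * n) else
  if k = 17 then (n + 2 * m + 1, 2 * n + 1) else if k = 20 then (n + 2, n) else (n + 2 * m + 1, n)

def ptOf (n m : ℕ) (e : ℕ × ℕ × ℕ) : ℕ × ℕ :=
  (27 * (tpos n m e.1).1 + e.2.1, 24 * (tpos n m e.1).2 + e.2.2)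

def rT (n m ℓ : ℕ) : ℕ × ℕ := ptOf n m (srcK.getD ℓ (0, 0, 0))
def sT (n m ℓ : ℕ) : ℕ × ℕ := ptOf n m (snkK.getD ℓ (0, 0, 0))

def isT (k : ℕ) : Prop := k = 11 ∨ k = 12 ∨ k = 17 ∨ k = 20 ∨ k = 21

theorem tpos_11 (n m : ℕ) : tpos n m 11 = (n, n + 1) := rfl
theorem tpos_12 (n m : ℕ) : tpos n m 12 = (2 * n + 2 * m + 2, 2 * n) := rfl
theorem tpos_17 (n m : ℕ) : tpos n m 17 = (n + 2 * m + 1, 2 * n + 1) := rfl
theorem tpos_20 (n m : ℕ) : tpos n m 20 = (n + 2, n) := rfl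
theorem tpos_21 (n m : ℕ) : tpos n m 21 = (n + 2 * m + 1, n) := rfl

theorem KK_mk {n m : ℕ} {var : ℕ → ℕ → ℕ} {bx b k c1 c2 c3 c4 : ℕ} (hk : k < 22)
    (h1 : sL n m bx b = c1) (h2 : sL n m (bx + 1) b = c2) (h3 : sB n m bx b = c3)
    (h4 : sB n m bx (b + 1) = c4) (h : tileOf (c1, c2, c3, c4) = k) : KK n m var bx b = k := by
  refine KK_of_quad hk ?_
  unfold quad
  rw [h1, h2, h3, h4]
  exact h

theorem KK_tpos {n m : ℕ} {var : ℕ → ℕ → ℕ} (hn : 1 ≤ n) (hm : 1 ≤ m) {k : ℕ} (hk : isT k) :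
    KK n m var (tpos n m k).1 (tpos n m k).2 = k := by
  rcases hk with rfl | rfl | rfl | rfl | rfl
  · rw [tpos_11]
    refine KK_mk (c1 := 0) (c2 := 1) (c3 := 0) (c4 := 0) (by omega) ?_ ?_ ?_ ?_ (by decide +kernel)
    all_goals (first | unfold sL | unfold sB) <;>
      (repeat (first | rw [if_pos (by omega)] | rw [if_neg (by omega)])) <;>
      (try (split_ifs <;> first | rfl | (exfalso; omega)))
  · rw [tpos_12]
    refine KK_mk (c1 := 1) (c2 := 0) (c3 := 0) (c4 := 0) (by omega) ?_ ?_ ?_ ?_ (by decide +kernel)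
    all_goals (first | unfold sL | unfold sB) <;>
      (repeat (first | rw [if_pos (by omega)] | rw [if_neg (by omega)])) <;>
      (try (split_ifs <;> first | rfl | (exfalso; omega)))
  · rw [tpos_17]
    refine KK_mk (c1 := 5) (c2 := 0) (c3 := 5) (c4 := 0) (by omega) ?_ ?_ ?_ ?_ (by decide +kernel)
    all_goals (first | unfold sL | unfold sB) <;>
      (repeat (first | rw [if_pos (by omega)] | rw [if_neg (by omega)])) <;>
      (try (split_ifs <;> first | rfl | (exfalso; omega)))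
  · rw [tpos_20]
    refine KK_mk (c1 := 0) (c2 := 0) (c3 := 0) (c4 := 3) (by omega) ?_ ?_ ?_ ?_ (by decide +kernel)
    all_goals (first | unfold sL | unfold sB) <;>
      (repeat (first | rw [if_pos (by omega)] | rw [if_neg (by omega)])) <;>
      (try (split_ifs <;> first | rfl | (exfalso; omega)))
  · rw [tpos_21]
    refine KK_mk (c1 := 0) (c2 := 0) (c3 := 0) (c4 := 5) (by omega) ?_ ?_ ?_ ?_ (by decide +kernel)
    all_goals (first | unfold sL | unfold sB) <;>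
      (repeat (first | rw [if_pos (by omega)] | rw [if_neg (by omega)])) <;>
      (try (split_ifs <;> first | rfl | (exfalso; omega)))

theorem sL_one {n m bx b : ℕ} (h : sL n m bx b = 1) : n + 1 ≤ b ∧ b ≤ 2 * n ∧
    ((bx ≤ n + 1 ∧ 2 * n + 2 ≤ bx + b) ∨ (n + 2 * m + 3 ≤ bx ∧ bx ≤ 2 * m + 2 + b)) := by
  unfold sL at h
  split_ifs at h <;> omega

theorem sL_five {n m bx b : ℕ} (h : sL n m bx b = 5) : b = 2 * n + 1 := by
  unfold sL at h
  split_ifs at h <;> omega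

theorem sB_five {n m bx b : ℕ} (h : sB n m bx b = 5) : bx = n + 2 * m + 1 ∧ n + 1 ≤ b ∧
    b ≤ 2 * n + 1 := by
  unfold sB at h
  split_ifs at h <;> omega

theorem sB_three {n m bx b : ℕ} (h : sB n m bx b = 3) : n + 2 ≤ bx ∧ bx ≤ n + 2 * m ∧
    (bx + n) % 2 = 0 ∧ n + 1 ≤ b ∧ b ≤ 2 * n + 1 := by
  unfold sB at h
  split_ifs at h <;> omega

/-- the value of `sL` in the core rows -/
theorem sL_core {n m bx b : ℕ} (h1 : n + 1 ≤ b) (h2 : b ≤ 2 * n) : sL n m bx b =
    if bx ≤ n + 1 then (if 2 * n + 2 ≤ bx + b then 1 else 0)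
     else if bx ≤ n + 2 * m + 2 then (if (bx + n) % 2 = 0 then 2 else 3)
     else if bx ≤ 2 * m + 2 + b then 1 else 0 := by
  unfold sL
  rw [if_neg (by omega), if_neg (by omega), if_pos h2]

theorem tpos_unique {n m : ℕ} {var : ℕ → ℕ → ℕ} (hn : 1 ≤ n) (hm : 1 ≤ m)
    (hv : ∀ bx b, var bx b < 7) {k : ℕ} (hk : isT k) {bx b : ℕ} (h : KK n m var bx b = k) :
    bx = (tpos n m k).1 ∧ b = (tpos n m k).2 := by
  have h1 := sig_KK hn hm hv bx b
  rw [h] at h1
  have h2 : sL n m bx b = (sig k).1 := by rw [h1]; rfl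
  have h3 : sL n m (bx + 1) b = (sig k).2.1 := by rw [h1]; rfl
  have h4 : sB n m bx b = (sig k).2.2.1 := by rw [h1]; rfl
  have h5 : sB n m bx (b + 1) = (sig k).2.2.2 := by rw [h1]; rfl
  clear h1 h
  rcases hk with rfl | rfl | rfl | rfl | rfl
  · have e : sig 11 = (0, 1, 0, 0) := by decide +kernel
    rw [e] at h2 h3 h4 h5
    rw [tpos_11]
    dsimp only at h2 h3 h4 h5 ⊢
    obtain ⟨g1, g2, g3⟩ := sL_one h3
    rw [sL_core g1 g2] at h2
    have g4 : bx + b = 2 * n + 1 ∧ bx ≤ n := by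
      split_ifs at h2 <;> omega
    by_cases g5 : bx < n
    · unfold sB at h4
      rw [if_pos g5, if_pos (by omega)] at h4
      omega
    · omega
  · have e : sig 12 = (1, 0, 0, 0) := by decide +kernel
    rw [e] at h2 h3 h4 h5
    rw [tpos_12]
    dsimp only at h2 h3 h4 h5 ⊢
    obtain ⟨g1, g2, g3⟩ := sL_one h2
    rw [sL_core g1 g2] at h3
    have g4 : bx = 2 * m + 2 + b ∧ n + 2 * m + 3 ≤ bx := by
      split_ifs at h3 <;> omega
    by_cases g5 : b < 2 * n
    · unfold sB at h4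
      rw [if_neg (by omega), if_neg (by omega), if_neg (by omega), if_neg (by omega),
        if_pos (by omega)] at h4
      omega
    · omega
  · have e : sig 17 = (5, 0, 5, 0) := by decide +kernel
    rw [e] at h2 h3 h4 h5
    rw [tpos_17]
    dsimp only at h2 h3 h4 h5 ⊢
    have g1 := sL_five h2
    have g2 := sB_five h4
    omega
  · have e : sig 20 = (0, 0, 0, 3) := by decide +kernel
    rw [e] at h2 h3 h4 h5
    rw [tpos_20]
    dsimp only at h2 h3 h4 h5 ⊢
    obtain ⟨g1, g2, g3, g4, g5⟩ := sB_three h5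
    have g6 : b = n := by
      by_contra hb
      unfold sB at h4
      rw [if_neg (by omega), if_neg (by omega), if_pos (by omega), if_pos (by omega),
        if_neg (by omega), if_pos g3] at h4
      omega
    subst g6
    have g7 : bx < b + 4 := by
      by_contra hb
      unfold sL at h2
      rw [if_neg (by omega), if_pos rfl, if_pos (by omega)] at h2
      omega
    omega
  · have e : sig 21 = (0, 0, 0, 5) := by decide +kernel
    rw [e] at h2 h3 h4 h5
    rw [tpos_21]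
    dsimp only at h2 h3 h4 h5 ⊢
    obtain ⟨g1, g2, g3⟩ := sB_five h5
    have g6 : b = n := by
      by_contra hb
      unfold sB at h4
      rw [if_neg (by omega), if_neg (by omega), if_pos (by omega), if_pos (by omega),
        if_pos g1] at h4
      omega
    omega

theorem src_ok : ∀ ℓ < 13, isT (srcK.getD ℓ (0, 0, 0)).1 ∧ (srcK.getD ℓ (0, 0, 0)).2.1 < 27 ∧
    (srcK.getD ℓ (0, 0, 0)).2.2 < 24 := by
  unfold isT
  decide +kernel

theorem snk_ok : ∀ ℓ < 13, isT (snkK.getD ℓ (0, 0, 0)).1 ∧ (snkK.getD ℓ (0, 0, 0)).2.1 < 27 ∧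
    (snkK.getD ℓ (0, 0, 0)).2.2 < 24 := by
  unfold isT
  decide +kernel

/-- which vertex of a tile is a given terminal -/
theorem pt_iff {n m : ℕ} {var : ℕ → ℕ → ℕ} (hn : 1 ≤ n) (hm : 1 ≤ m)
    (hv : ∀ bx b, var bx b < 7) {e : ℕ × ℕ × ℕ} (he : isT e.1) (he1 : e.2.1 < 27) (he2 : e.2.2 < 24)
    {bx b x y : ℕ} (hbx : 1 ≤ bx) (hb : 1 ≤ b) (hx1 : 1 ≤ x) (hx : x ≤ 27) (hy1 : 1 ≤ y)
    (hy : y ≤ 24) : (27 * bx - 1 + x, 24 * b - 1 + y) = ptOf n m e ↔
      e = (KK n m var bx b, x - 1, y - 1) := by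
  unfold ptOf
  rw [Prod.mk.injEq]
  constructor
  · rintro ⟨h1, h2⟩
    have e1 : bx = (tpos n m e.1).1 := by omega
    have e2 : b = (tpos n m e.1).2 := by omega
    have := KK_tpos (var := var) hn hm he
    rw [← e1, ← e2] at this
    rw [this]
    refine Prod.ext rfl (Prod.ext ?_ ?_)
    · simp only
      omega
    · simp only
      omega
  · intro h
    have h1 : KK n m var bx b = e.1 := by rw [h]
    have h2 : x - 1 = e.2.1 := by rw [h]
    have h3 : y - 1 = e.2.2 := by rw [h]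
    obtain ⟨h4, h5⟩ := tpos_unique hn hm hv he h1
    rw [← h4, ← h5]
    omega

end Pool.Agent.H603R2.EP
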